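import Mathlib

/-!
# Project AAE (MP_ae801b_ag): definitions

Kernels of epimorphisms `k[X_1..X_n] → k[Y_1..Y_m]`, `n ≥ 2m+1`, characteristic zero.
-/

set_option autoImplicit false

open Polynomial

namespace Pool.Agent.H71.AAE

universe u

/-- gradient of `h` along `φ` -/
noncomputable def grad {k : Type u} [Field k] {n m : ℕ}
    (φ : MvPolynomial (Fin n) k →ₐ[k] MvPolynomial (Fin m) k) (h : MvPolynomial (Fin n) k) :
    Fin n → MvPolynomial (Fin m) k := fun i => φ (MvPolynomial.pderiv i h)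

/-- conormal module: vectors orthogonal to the image of the differential -/
def conor {k : Type u} [Field k] {n m : ℕ}
    (φ : MvPolynomial (Fin n) k →ₐ[k] MvPolynomial (Fin m) k) :
    Submodule (MvPolynomial (Fin m) k) (Fin n → MvPolynomial (Fin m) k) where
  carrier := {x | ∀ j, ∑ i, x i * MvPolynomial.pderiv j (φ (MvPolynomial.X i)) = 0}
  add_mem' := by
    intro a b ha hb j
    simp only [Pi.add_apply, add_mul, Finset.sum_add_distrib, ha j, hb j, add_zero]
  zero_mem' := by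
    intro j
    simp
  smul_mem' := by
    intro c x hx j
    simp only [Pi.smul_apply, smul_eq_mul, mul_assoc, ← Finset.mul_sum, hx j, mul_zero]

/-- products of transvections -/
def IsElem {ι : Type} [Fintype ι] [DecidableEq ι] {Λ : Type u} [CommRing Λ] (Q : Matrix ι ι Λ) :
    Prop :=
  Q ∈ Submonoid.closure {t : Matrix ι ι Λ | ∃ i j : ι, ∃ c : Λ, i ≠ j ∧ t = Matrix.transvection i j c}

/-- The sheared surjection: `X_i ↦ f_{i+1} + λ_{i,0} f_0 + λ_{i,1} f_0²`, `X ↦ f_0`. -/
noncomputable def shear {k : Type u} [Field k] {N m : ℕ} (f : Fin (N + 1) → MvPolynomial (Fin m) k)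
    (lam : Fin N × Fin 2 → k) : (MvPolynomial (Fin N) k)[X] →ₐ[k] MvPolynomial (Fin m) k :=
  letI φ₀ : MvPolynomial (Fin N) k →ₐ[k] MvPolynomial (Fin m) k := MvPolynomial.aeval fun i =>
    f i.succ + MvPolynomial.C (lam (i, 0)) * f 0 + MvPolynomial.C (lam (i, 1)) * f 0 ^ 2
  { Polynomial.eval₂RingHom (φ₀ : MvPolynomial (Fin N) k →+* MvPolynomial (Fin m) k) (f 0) with
    commutes' := fun c => by
      simp [Polynomial.algebraMap_apply, MvPolynomial.algebraMap_eq] }

/-- the linear form `Σ a_j X_j` -/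
noncomputable def lin {k : Type u} [Field k] {m : ℕ} (a : Fin m → k) : MvPolynomial (Fin m) k :=
  ∑ j, MvPolynomial.C (a j) * MvPolynomial.X j

/-- the conductor of the subring `φ(R)` in `B` -/
def cond {k : Type u} [Field k] {N m : ℕ}
    (φ : (MvPolynomial (Fin N) k)[X] →ₐ[k] MvPolynomial (Fin m) k) :
    Ideal (MvPolynomial (Fin m) k) where
  carrier := {b | ∀ b', ∃ ρ, φ (C ρ) = b * b'}
  add_mem' := by
    intro a b ha hb b'
    obtain ⟨ρ, hρ⟩ := ha b'
    obtain ⟨ρ', hρ'⟩ := hb b'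
    exact ⟨ρ + ρ', by rw [C_add, map_add, hρ, hρ', add_mul]⟩
  zero_mem' := by
    intro b'
    exact ⟨0, by simp⟩
  smul_mem' := by
    intro c x hx b'
    obtain ⟨ρ, hρ⟩ := hx (c * b')
    exact ⟨ρ, by rw [hρ, smul_eq_mul]; ring⟩

end Pool.Agent.H71.AAE
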