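import Mathlib
import Pool.Agent.H71.AAE.Defs

/-! Project AAE (MP_ae801b_ag), module E: elementary matrices over Artinian rings. -/

set_option autoImplicit false

namespace Pool.Agent.H71.AAE

universe u

section elem

variable {ι : Type} [Fintype ι] [DecidableEq ι] {Λ : Type u} [CommRing Λ]

theorem IsElem.one : IsElem (1 : Matrix ι ι Λ) := Submonoid.one_mem _

theorem IsElem.mul {A B : Matrix ι ι Λ} (hA : IsElem A) (hB : IsElem B) : IsElem (A * B) :=
  Submonoid.mul_mem _ hA hB

theorem IsElem.transvection {i j : ι} (h : i ≠ j) (c : Λ) : IsElem (Matrix.transvection i j c) :=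
  Submonoid.subset_closure ⟨i, j, c, h, rfl⟩

theorem IsElem.induct {p : Matrix ι ι Λ → Prop} (h1 : p 1)
    (hm : ∀ A B, p A → p B → p (A * B))
    (ht : ∀ (i j : ι) (c : Λ), i ≠ j → p (Matrix.transvection i j c)) {A : Matrix ι ι Λ}
    (hA : IsElem A) : p A := by
  refine Submonoid.closure_induction (motive := fun x _ => p x) ?_ h1 ?_ hA
  · rintro x ⟨i, j, c, hij, rfl⟩
    exact ht i j c hij
  · intro x y _ _ hx hy
    exact hm x y hx hy

theorem IsElem.exists_inv {A : Matrix ι ι Λ} (hA : IsElem A) :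
    ∃ B, IsElem B ∧ A * B = 1 ∧ B * A = 1 := by
  refine IsElem.induct (p := fun A => ∃ B, IsElem B ∧ A * B = 1 ∧ B * A = 1) ?_ ?_ ?_ hA
  · exact ⟨1, IsElem.one, one_mul 1, one_mul 1⟩
  · rintro A B ⟨A', hA', h1, h2⟩ ⟨B', hB', h3, h4⟩
    refine ⟨B' * A', hB'.mul hA', ?_, ?_⟩
    · rw [Matrix.mul_assoc, ← Matrix.mul_assoc B, h3, Matrix.one_mul, h1]
    · rw [Matrix.mul_assoc, ← Matrix.mul_assoc A', h2, Matrix.one_mul, h4]
  · intro i j c hij
    refine ⟨Matrix.transvection i j (-c), IsElem.transvection hij _, ?_, ?_⟩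
    · rw [Matrix.transvection_mul_transvection_same _ _ hij, add_neg_cancel,
        Matrix.transvection_zero]
    · rw [Matrix.transvection_mul_transvection_same _ _ hij, neg_add_cancel,
        Matrix.transvection_zero]

theorem IsElem.transpose {A : Matrix ι ι Λ} (hA : IsElem A) : IsElem A.transpose := by
  refine IsElem.induct (p := fun A => IsElem A.transpose) ?_ ?_ ?_ hA
  · rw [Matrix.transpose_one]
    exact IsElem.one
  · intro A B hA hB
    rw [Matrix.transpose_mul]
    exact hB.mul hA
  · intro i j c hij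
    have : (Matrix.transvection i j c).transpose = Matrix.transvection j i c := by
      rw [Matrix.transvection, Matrix.transvection, Matrix.transpose_add, Matrix.transpose_one,
        Matrix.transpose_single]
    rw [this]
    exact IsElem.transvection hij.symm c

theorem IsElem.det_one {A : Matrix ι ι Λ} (hA : IsElem A) : A.det = 1 := by
  refine IsElem.induct (p := fun A => A.det = 1) ?_ ?_ ?_ hA
  · exact Matrix.det_one
  · intro A B hA hB
    rw [Matrix.det_mul, hA, hB, one_mul]
  · intro i j c hij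
    exact Matrix.det_transvection_of_ne i j hij c

/-- column operations from `j₀` -/
theorem isElem_col (j₀ : ι) (c : ι → Λ) (s : Finset ι) (hs : j₀ ∉ s) :
    IsElem (1 + ∑ i ∈ s, Matrix.single i j₀ (c i)) := by
  classical
  induction s using Finset.induction_on with
  | empty =>
    rw [Finset.sum_empty, add_zero]
    exact IsElem.one
  | insert a s ha ih =>
    have h1 : j₀ ∉ s := fun h => hs (Finset.mem_insert_of_mem h)
    have h2 : a ≠ j₀ := fun h => hs (h ▸ Finset.mem_insert_self a s)
    have h3 : (1 + ∑ i ∈ insert a s, Matrix.single i j₀ (c i)) =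
        (1 + ∑ i ∈ s, Matrix.single i j₀ (c i)) * Matrix.transvection a j₀ (c a) := by
      rw [Finset.sum_insert ha, Matrix.transvection, mul_add, mul_one, add_mul, one_mul,
        Finset.sum_mul]
      have h4 : ∑ i ∈ s, Matrix.single i j₀ (c i) * Matrix.single a j₀ (c a) = 0 := by
        refine Finset.sum_eq_zero fun i _ => ?_
        rw [Matrix.single_mul_single_of_ne _ _ _ _ (Ne.symm h2)]
      rw [h4]
      abel
    rw [h3]
    exact (ih h1).mul (IsElem.transvection h2 _)

end elem

section red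

variable {ι : Type} [Fintype ι] [DecidableEq ι] {Λ : Type u} [CommRing Λ]

/-- elementary equivalence of columns -/
def Red (v w : ι → Λ) : Prop := ∃ A : Matrix ι ι Λ, IsElem A ∧ A.mulVec v = w

theorem Red.trans {v w x : ι → Λ} (h1 : Red v w) (h2 : Red w x) : Red v x := by
  obtain ⟨A, hA, rfl⟩ := h1
  obtain ⟨B, hB, rfl⟩ := h2
  exact ⟨B * A, hB.mul hA, by rw [Matrix.mulVec_mulVec]⟩

theorem Red.symm {v w : ι → Λ} (h1 : Red v w) : Red w v := by
  obtain ⟨A, hA, rfl⟩ := h1
  obtain ⟨B, hB, h2, h3⟩ := hA.exists_inv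
  exact ⟨B, hB, by rw [Matrix.mulVec_mulVec, h3, Matrix.one_mulVec]⟩

theorem red_add (v : ι → Λ) {i j : ι} (h : i ≠ j) (c : Λ) :
    Red v (Function.update v i (v i + c * v j)) := by
  refine ⟨Matrix.transvection i j c, IsElem.transvection h c, ?_⟩
  rw [Matrix.transvection, Matrix.add_mulVec, Matrix.one_mulVec]
  ext1 l
  rw [Pi.add_apply, Matrix.single_mulVec]
  by_cases hl : l = i
  · subst hl
    simp
  · simp [hl]

/-- add multiples of the entry `j₀` to all other entries -/
theorem red_col (v : ι → Λ) (j₀ : ι) (c : ι → Λ) (hc : c j₀ = 0) :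
    Red v (fun i => v i + c i * v j₀) := by
  refine ⟨_, isElem_col j₀ c (Finset.univ.erase j₀) (Finset.notMem_erase _ _), ?_⟩
  rw [Matrix.add_mulVec, Matrix.one_mulVec, Matrix.sum_mulVec]
  ext1 l
  rw [Pi.add_apply, Finset.sum_apply]
  congr 1
  by_cases hl : l = j₀
  · subst hl
    rw [hc, zero_mul]
    refine Finset.sum_eq_zero fun i hi => ?_
    rw [Matrix.single_mulVec, Function.update_of_ne (Ne.symm (Finset.ne_of_mem_erase hi)),
      Pi.zero_apply]
  · rw [Finset.sum_eq_single l]
    · rw [Matrix.single_mulVec]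
      simp
    · intro b _ hb
      rw [Matrix.single_mulVec, Function.update_of_ne (Ne.symm hb), Pi.zero_apply]
    · intro h
      exact absurd (Finset.mem_erase.2 ⟨hl, Finset.mem_univ _⟩) h

/-- add multiples of the other entries to the entry `j₀` -/
theorem red_row (v : ι → Λ) (j₀ : ι) (c : ι → Λ) (hc : c j₀ = 0) :
    Red v (Function.update v j₀ (v j₀ + ∑ i, c i * v i)) := by
  refine ⟨_, (isElem_col j₀ c (Finset.univ.erase j₀) (Finset.notMem_erase _ _)).transpose, ?_⟩
  rw [Matrix.transpose_add, Matrix.transpose_one, Matrix.transpose_sum, Matrix.add_mulVec,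
    Matrix.one_mulVec, Matrix.sum_mulVec]
  simp only [Matrix.transpose_single]
  ext1 l
  rw [Pi.add_apply, Finset.sum_apply]
  by_cases hl : l = j₀
  · subst hl
    rw [Function.update_self]
    congr 1
    rw [← Finset.sum_erase_add Finset.univ _ (Finset.mem_univ l), hc, zero_mul, add_zero]
    refine Finset.sum_congr rfl fun i _ => ?_
    rw [Matrix.single_mulVec]
    simp
  · rw [Function.update_of_ne hl]
    have : ∑ c_1 ∈ Finset.univ.erase j₀, (Matrix.single j₀ c_1 (c c_1)).mulVec v l = 0 := by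
      refine Finset.sum_eq_zero fun i _ => ?_
      rw [Matrix.single_mulVec, Function.update_of_ne hl, Pi.zero_apply]
    rw [this, add_zero]

theorem red_unit {n : ℕ} (x : Fin (n + 2) → Λ) (h : IsUnit (x 0)) : Red (Pi.single 0 1) x := by
  obtain ⟨y, hy⟩ := h.exists_left_inv
  have h01 : (1 : Fin (n + 2)) ≠ 0 := by
    intro h
    have := congrArg Fin.val h
    simp at this
  -- step 1
  have r1 : Red (Pi.single 0 1 : Fin (n + 2) → Λ) (Function.update (Pi.single 0 1) 1 1) := by
    have := red_add (Pi.single 0 1 : Fin (n + 2) → Λ) h01 1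
    rwa [Pi.single_eq_same, Pi.single_eq_of_ne h01, zero_add, mul_one] at this
  -- step 2
  set v2 : Fin (n + 2) → Λ := Function.update (Pi.single 0 1) 1 1 with hv2
  have e0 : v2 0 = 1 := by
    rw [hv2, Function.update_of_ne h01.symm, Pi.single_eq_same]
  have e1 : v2 1 = 1 := by
    rw [hv2, Function.update_self]
  have r2 : Red v2 (Function.update v2 0 (x 0)) := by
    have := red_add v2 h01.symm (x 0 - 1)
    rwa [e0, e1, mul_one, add_sub_cancel] at this
  set v3 : Fin (n + 2) → Λ := Function.update v2 0 (x 0) with hv3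
  have r3 := red_col v3 0 (fun i => if i = 0 then 0 else (x i - v3 i) * y) (by simp)
  have e3 : (fun i => v3 i + (if i = 0 then 0 else (x i - v3 i) * y) * v3 0) = x := by
    ext1 i
    by_cases hi : i = 0
    · subst hi
      simp [hv3]
    · rw [if_neg hi]
      have : v3 0 = x 0 := by
        rw [hv3, Function.update_self]
      rw [this, mul_assoc, hy, mul_one]
      ring
  rw [e3] at r3
  exact (r1.trans r2).trans r3

end red

/-- a column whose `0`-th entry is a unit is the first column of an elementary matrix -/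
theorem exists_elem_column {n : ℕ} {Λ : Type u} [CommRing Λ] (x : Fin (n + 2) → Λ)
    (h : IsUnit (x 0)) :
    ∃ Q : Matrix (Fin (n + 2)) (Fin (n + 2)) Λ, IsElem Q ∧ ∀ i, Q i 0 = x i := by
  obtain ⟨A, hA, hx⟩ := red_unit x h
  refine ⟨A, hA, fun i => ?_⟩
  have := congrFun hx i
  rwa [Matrix.mulVec_single_one, Matrix.col_apply] at this

theorem exists_lift_aux {n : ℕ} {B Λ₁ Λ₂ : Type u} [CommRing B] [CommRing Λ₁] [CommRing Λ₂]
    (f₁ : B →+* Λ₁) (f₂ : B →+* Λ₂) (hf : ∀ c, ∃ b, f₁ b = c ∧ f₂ b = 0)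
    (Q₁ : Matrix (Fin n) (Fin n) Λ₁) (h₁ : IsElem Q₁) :
    ∃ G G' : Matrix (Fin n) (Fin n) B, G * G' = 1 ∧ G' * G = 1 ∧ G.map f₁ = Q₁ ∧ G.map f₂ = 1 := by
  refine IsElem.induct (p := fun Q₁ => ∃ G G' : Matrix (Fin n) (Fin n) B,
    G * G' = 1 ∧ G' * G = 1 ∧ G.map f₁ = Q₁ ∧ G.map f₂ = 1) ?_ ?_ ?_ h₁
  · exact ⟨1, 1, one_mul 1, one_mul 1, Matrix.map_one _ (map_zero f₁) (map_one f₁),
      Matrix.map_one _ (map_zero f₂) (map_one f₂)⟩
  · rintro A B ⟨G, G', h1, h2, h3, h4⟩ ⟨K, K', k1, k2, k3, k4⟩
    refine ⟨G * K, K' * G', ?_, ?_, ?_, ?_⟩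
    · rw [Matrix.mul_assoc, ← Matrix.mul_assoc K, k1, Matrix.one_mul, h1]
    · rw [Matrix.mul_assoc, ← Matrix.mul_assoc G', h2, Matrix.one_mul, k2]
    · rw [Matrix.map_mul, h3, k3]
    · rw [Matrix.map_mul, h4, k4, one_mul]
  · intro i j c hij
    obtain ⟨b, hb1, hb2⟩ := hf c
    refine ⟨Matrix.transvection i j b, Matrix.transvection i j (-b), ?_, ?_, ?_, ?_⟩
    · rw [Matrix.transvection_mul_transvection_same _ _ hij, add_neg_cancel,
        Matrix.transvection_zero]
    · rw [Matrix.transvection_mul_transvection_same _ _ hij, neg_add_cancel,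
        Matrix.transvection_zero]
    · rw [Matrix.transvection, Matrix.transvection, Matrix.map_add _ (map_add f₁),
        Matrix.map_one _ (map_zero f₁) (map_one f₁), Matrix.map_single, hb1]
    · rw [Matrix.transvection, Matrix.map_add _ (map_add f₂),
        Matrix.map_one _ (map_zero f₂) (map_one f₂), Matrix.map_single, hb2,
        Matrix.single_zero, add_zero]

theorem exists_lift_elem {n : ℕ} {B Λ₁ Λ₂ : Type u} [CommRing B] [CommRing Λ₁] [CommRing Λ₂]
    (f₁ : B →+* Λ₁) (f₂ : B →+* Λ₂) (hf : Function.Surjective (f₁.prod f₂))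
    (Q₁ : Matrix (Fin n) (Fin n) Λ₁) (h₁ : IsElem Q₁) (Q₂ : Matrix (Fin n) (Fin n) Λ₂)
    (h₂ : IsElem Q₂) :
    ∃ G G' : Matrix (Fin n) (Fin n) B, G * G' = 1 ∧ G' * G = 1 ∧ G.map f₁ = Q₁ ∧ G.map f₂ = Q₂ := by
  obtain ⟨G, G', h1, h2, h3, h4⟩ := exists_lift_aux f₁ f₂ (fun c => by
    obtain ⟨b, hb⟩ := hf (c, 0)
    exact ⟨b, congrArg Prod.fst hb, congrArg Prod.snd hb⟩) Q₁ h₁
  obtain ⟨K, K', k1, k2, k3, k4⟩ := exists_lift_aux f₂ f₁ (fun c => by
    obtain ⟨b, hb⟩ := hf (0, c)
    exact ⟨b, congrArg Prod.snd hb, congrArg Prod.fst hb⟩) Q₂ h₂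
  refine ⟨G * K, K' * G', ?_, ?_, ?_, ?_⟩
  · rw [Matrix.mul_assoc, ← Matrix.mul_assoc K, k1, Matrix.one_mul, h1]
  · rw [Matrix.mul_assoc, ← Matrix.mul_assoc G', h2, Matrix.one_mul, k2]
  · rw [Matrix.map_mul, h3, k4, mul_one]
  · rw [Matrix.map_mul, h4, k3, one_mul]

/-- Artinian rings have stable range one -/
theorem exists_unit_add {Λ : Type u} [CommRing Λ] [IsArtinianRing Λ] (a b : Λ)
    (h : Ideal.span {a, b} = ⊤) : ∃ t, IsUnit (a + t * b) := by
  classical
  obtain ⟨t, ht⟩ := Ideal.exists_forall_sub_mem_ideal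
    (I := fun M : MaximalSpectrum Λ => M.asIdeal) (by
      intro M N hMN
      exact Ideal.isCoprime_of_isMaximal fun h => hMN (MaximalSpectrum.ext h))
    (fun M => if a ∈ M.asIdeal then 1 else 0)
  refine ⟨t, ?_⟩
  by_contra hu
  obtain ⟨M, hM, hm⟩ := exists_max_ideal_of_mem_nonunits hu
  have h1 := ht ⟨M, hM⟩
  dsimp only at h1
  by_cases ha : a ∈ M
  · rw [if_pos ha] at h1
    have h2 : t * b ∈ M := by
      have := M.sub_mem hm ha
      rwa [add_sub_cancel_left] at this
    have h3 : b ∈ M := by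
      have := M.sub_mem h2 (M.mul_mem_right b h1)
      have e : t * b - (t - 1) * b = b := by ring
      rwa [e] at this
    apply hM.ne_top
    rw [eq_top_iff, ← h, Ideal.span_le]
    intro x hx
    rcases hx with rfl | hx
    · exact ha
    · rw [Set.mem_singleton_iff] at hx
      rw [hx]
      exact h3
  · rw [if_neg ha, sub_zero] at h1
    apply ha
    have := M.sub_mem hm (M.mul_mem_right b h1)
    rwa [add_sub_cancel_right] at this

/-- block embedding -/
def blk {n : ℕ} {Λ : Type u} [CommRing Λ] (Q : Matrix (Fin n) (Fin n) Λ) :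
    Matrix (Fin (n + 1)) (Fin (n + 1)) Λ :=
  Matrix.of fun i j => Fin.cases (Fin.cases 1 (fun _ => 0) j)
    (fun i' => Fin.cases 0 (fun j' => Q i' j') j) i

section blk

variable {n : ℕ} {Λ : Type u} [CommRing Λ]

@[simp] theorem blk_zero_zero (Q : Matrix (Fin n) (Fin n) Λ) : blk Q 0 0 = 1 := rfl
@[simp] theorem blk_zero_succ (Q : Matrix (Fin n) (Fin n) Λ) (j : Fin n) :
    blk Q 0 j.succ = 0 := rfl
@[simp] theorem blk_succ_zero (Q : Matrix (Fin n) (Fin n) Λ) (i : Fin n) :
    blk Q i.succ 0 = 0 := rfl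
@[simp] theorem blk_succ_succ (Q : Matrix (Fin n) (Fin n) Λ) (i j : Fin n) :
    blk Q i.succ j.succ = Q i j := rfl

theorem blk_one : blk (1 : Matrix (Fin n) (Fin n) Λ) = 1 := by
  ext i j
  refine Fin.cases ?_ (fun i' => ?_) i
  · refine Fin.cases ?_ (fun j' => ?_) j
    · simp
    · simp [Matrix.one_apply, (Fin.succ_ne_zero j').symm]
  · refine Fin.cases ?_ (fun j' => ?_) j
    · simp [Matrix.one_apply]
    · simp [Matrix.one_apply]

theorem blk_mul (A B : Matrix (Fin n) (Fin n) Λ) : blk (A * B) = blk A * blk B := by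
  ext i j
  refine Fin.cases ?_ (fun i' => ?_) i
  · refine Fin.cases ?_ (fun j' => ?_) j
    · simp [Matrix.mul_apply, Fin.sum_univ_succ]
    · simp [Matrix.mul_apply, Fin.sum_univ_succ]
  · refine Fin.cases ?_ (fun j' => ?_) j
    · simp [Matrix.mul_apply, Fin.sum_univ_succ]
    · simp [Matrix.mul_apply, Fin.sum_univ_succ]

theorem blk_transvection (a b : Fin n) (c : Λ) :
    blk (Matrix.transvection a b c) = Matrix.transvection a.succ b.succ c := by
  ext i j
  refine Fin.cases ?_ (fun i' => ?_) i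
  · refine Fin.cases ?_ (fun j' => ?_) j
    · simp [Matrix.transvection, Matrix.single_apply]
    · simp [Matrix.transvection, Matrix.single_apply, Matrix.one_apply,
        (Fin.succ_ne_zero j').symm]
  · refine Fin.cases ?_ (fun j' => ?_) j
    · simp [Matrix.transvection, Matrix.single_apply, Matrix.one_apply]
    · simp [Matrix.transvection, Matrix.single_apply, Matrix.one_apply]

theorem isElem_blk {Q : Matrix (Fin n) (Fin n) Λ} (h : IsElem Q) : IsElem (blk Q) := by
  refine IsElem.induct (p := fun Q => IsElem (blk Q)) ?_ ?_ ?_ h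
  · rw [blk_one]
    exact IsElem.one
  · intro A B hA hB
    rw [blk_mul]
    exact hA.mul hB
  · intro i j c hij
    rw [blk_transvection]
    exact IsElem.transvection (fun h => hij (Fin.succ_injective _ h)) c

theorem det_blk (Q : Matrix (Fin n) (Fin n) Λ) : (blk Q).det = Q.det := by
  rw [Matrix.det_succ_row_zero, Fin.sum_univ_succ]
  have : ∀ x : Fin n, (-1 : Λ) ^ ((x.succ : Fin (n + 1)) : ℕ) * blk Q 0 x.succ *
      (Matrix.submatrix (blk Q) Fin.succ (x.succ.succAbove)).det = 0 := by
    intro x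
    rw [blk_zero_succ, mul_zero, zero_mul]
  rw [Finset.sum_eq_zero (fun x _ => this x)]
  rw [blk_zero_zero, add_zero, Fin.val_zero, pow_zero, one_mul, one_mul]
  congr 1

end blk

theorem isElem_of_det_one {n : ℕ} {Λ : Type u} [CommRing Λ] [IsArtinianRing Λ]
    (Q : Matrix (Fin n) (Fin n) Λ) (h : Q.det = 1) : IsElem Q := by
  induction n with
  | zero =>
    have : Q = 1 := Subsingleton.elim _ _
    rw [this]
    exact IsElem.one
  | succ n ih =>
    rcases n with _ | n
    · have : Q = 1 := by
        ext i j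
        rw [Matrix.det_fin_one] at h
        have hi : i = 0 := by fin_cases i; rfl
        have hj : j = 0 := by fin_cases j; rfl
        rw [hi, hj, h, Matrix.one_apply_eq]
      rw [this]
      exact IsElem.one
    · -- the first column
      set x : Fin (n + 2) → Λ := fun i => Q i 0 with hx
      have hcol : Q.mulVec (Pi.single 0 1) = x := by
        rw [Matrix.mulVec_single_one]
        rfl
      have huni : ∃ y : Fin (n + 2) → Λ, ∑ i, y i * x i = 1 := by
        refine ⟨fun i => Q.adjugate 0 i, ?_⟩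
        have h1 := congrFun (congrFun (Matrix.adjugate_mul Q) 0) 0
        rw [h, one_smul, Matrix.one_apply_eq, Matrix.mul_apply] at h1
        exact h1
      obtain ⟨y, hy⟩ := huni
      have h2 : Ideal.span {x 0, ∑ i ∈ Finset.univ.erase 0, y i * x i} = ⊤ := by
        rw [Ideal.eq_top_iff_one, Ideal.mem_span_pair]
        refine ⟨y 0, 1, ?_⟩
        rw [one_mul, add_comm, Finset.sum_erase_add _ _ (Finset.mem_univ 0), hy]
      obtain ⟨t, ht⟩ := exists_unit_add _ _ h2
      have r1 := red_row x 0 (fun i => if i = 0 then 0 else t * y i) (by simp)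
      set x' : Fin (n + 2) → Λ := Function.update x 0
        (x 0 + ∑ i, (if i = 0 then 0 else t * y i) * x i) with hx'
      have h3 : IsUnit (x' 0) := by
        rw [hx', Function.update_self]
        convert ht using 2
        rw [Finset.mul_sum, ← Finset.sum_erase_add Finset.univ _ (Finset.mem_univ 0)]
        rw [if_pos rfl, zero_mul, add_zero]
        refine Finset.sum_congr rfl fun i hi => ?_
        rw [if_neg (Finset.ne_of_mem_erase hi), mul_assoc]
      have r2 : Red x (Pi.single 0 1) := r1.trans (red_unit x' h3).symm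
      obtain ⟨A, hA, hAx⟩ := r2
      -- A * Q has first column e_0
      have h4 : ∀ i, (A * Q) i 0 = (Pi.single 0 1 : Fin (n + 2) → Λ) i := by
        intro i
        have h5 : (A * Q).mulVec (Pi.single 0 1) = Pi.single 0 1 := by
          rw [← Matrix.mulVec_mulVec, hcol, hAx]
        have h6 := congrFun h5 i
        rwa [Matrix.mulVec_single_one] at h6
      -- clear the first row
      set K : Matrix (Fin (n + 2)) (Fin (n + 2)) Λ :=
        (1 + ∑ i ∈ Finset.univ.erase 0, Matrix.single i 0 (-(A * Q) 0 i)).transpose with hK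
      have hKE : IsElem K :=
        (isElem_col 0 (fun i => -(A * Q) 0 i) _ (Finset.notMem_erase _ _)).transpose
      set Q' : Matrix (Fin (n + 1)) (Fin (n + 1)) Λ :=
        Matrix.of fun i j => (A * Q) i.succ j.succ with hQ'
      have hKe : K = 1 + ∑ i ∈ Finset.univ.erase 0, Matrix.single 0 i (-(A * Q) 0 i) := by
        rw [hK, Matrix.transpose_add, Matrix.transpose_one, Matrix.transpose_sum]
        simp only [Matrix.transpose_single]
      have h7 : A * Q * K = blk Q' := by
        rw [hKe, mul_add, mul_one, Finset.mul_sum]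
        ext i j
        rw [Matrix.add_apply, Matrix.sum_apply]
        have h8 : ∑ c ∈ (Finset.univ.erase 0 : Finset (Fin (n + 2))), (((A * Q) * Matrix.single 0 c (-(A * Q) 0 c) :
            Matrix (Fin (n + 2)) (Fin (n + 2)) Λ)) i j =
            if j = 0 then 0 else -((A * Q) i 0 * (A * Q) 0 j) := by
          split_ifs with hj
          · refine Finset.sum_eq_zero fun c hc => ?_
            rw [Matrix.mul_single_apply_of_ne]
            rw [hj]
            exact (Finset.ne_of_mem_erase hc).symm
          · rw [Finset.sum_eq_single j]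
            · rw [Matrix.mul_single_apply_same]
              ring
            · intro b _ hb
              rw [Matrix.mul_single_apply_of_ne]
              exact Ne.symm hb
            · intro hj'
              exact absurd (Finset.mem_erase.2 ⟨hj, Finset.mem_univ _⟩) hj'
        rw [h8, h4]
        refine Fin.cases ?_ (fun i' => ?_) i
        · refine Fin.cases ?_ (fun j' => ?_) j
          · rw [if_pos rfl, h4]
            simp
          · rw [if_neg (Fin.succ_ne_zero j')]
            simp
        · refine Fin.cases ?_ (fun j' => ?_) j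
          · rw [if_pos rfl, h4]
            simp
          · rw [if_neg (Fin.succ_ne_zero j')]
            simp [hQ']
      have h9 : Q'.det = 1 := by
        rw [← det_blk, ← h7, Matrix.det_mul, Matrix.det_mul, h, hA.det_one, hKE.det_one]
        simp
      have h10 : IsElem (A * Q * K) := by
        rw [h7]
        exact isElem_blk (ih Q' h9)
      obtain ⟨A', hA', a1, a2⟩ := hA.exists_inv
      obtain ⟨K', hK', k1, k2⟩ := hKE.exists_inv
      have h11 : Q = A' * (A * Q * K) * K' := by
        rw [Matrix.mul_assoc, Matrix.mul_assoc, k1, Matrix.mul_one, ← Matrix.mul_assoc, a2,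
          Matrix.one_mul]
      rw [h11]
      exact (hA'.mul h10).mul hK'

end Pool.Agent.H71.AAE
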