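import Mathlib
import Pool.Agent.H71.AAE.Defs
import Pool.Agent.H71.AAE.E

/-! Project AAE (MP_ae801b_ag), module H, part 2: the Vaserstein ideal. -/

set_option autoImplicit false

open Polynomial

namespace Pool.Agent.H71.AAE

universe u

section Tr

variable {ι : Type} [Fintype ι] [DecidableEq ι] {A B D : Type u} [CommRing A] [CommRing B]
  [CommRing D]

/-- base change of invertible matrices -/
def mapU (f : A →+* B) : (Matrix ι ι A)ˣ →* (Matrix ι ι B)ˣ :=
  Units.map ((f.mapMatrix : Matrix ι ι A →+* Matrix ι ι B) : Matrix ι ι A →* Matrix ι ι B)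

@[simp] theorem coe_mapU (f : A →+* B) (G : (Matrix ι ι A)ˣ) :
    ((mapU f G : (Matrix ι ι B)ˣ) : Matrix ι ι B) = (G : Matrix ι ι A).map f := rfl

theorem mapU_comp (f : A →+* B) (g : B →+* D) (G : (Matrix ι ι A)ˣ) :
    mapU g (mapU f G) = mapU (g.comp f) G := by
  apply Units.ext
  rfl

theorem mapU_id (G : (Matrix ι ι A)ˣ) : mapU (RingHom.id A) G = G := by
  apply Units.ext
  rw [coe_mapU]
  ext i j
  simp

/-- `G` carries the row `v` to the row `w` -/
def Tr (v w : ι → A) (G : (Matrix ι ι A)ˣ) : Prop :=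
  Matrix.vecMul v (G : Matrix ι ι A) = w

theorem Tr.map {v w : ι → A} {G : (Matrix ι ι A)ˣ} (h : Tr v w G) (f : A →+* B) :
    Tr (fun i => f (v i)) (fun i => f (w i)) (mapU f G) := by
  rw [Tr, coe_mapU]
  ext1 i
  rw [← h, RingHom.map_vecMul]
  rfl

theorem Tr.mul {v w x : ι → A} {G H : (Matrix ι ι A)ˣ} (h1 : Tr v w G) (h2 : Tr w x H) :
    Tr v x (G * H) := by
  rw [Tr] at h1 h2 ⊢
  rw [Units.val_mul, ← Matrix.vecMul_vecMul, h1, h2]

theorem Tr.inv {v w : ι → A} {G : (Matrix ι ι A)ˣ} (h1 : Tr v w G) : Tr w v G⁻¹ := by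
  rw [Tr] at h1 ⊢
  rw [← h1, Matrix.vecMul_vecMul, Units.mul_inv, Matrix.vecMul_one]

theorem Tr.one (v : ι → A) : Tr v v 1 := by
  rw [Tr, Units.val_one, Matrix.vecMul_one]

end Tr

section subst

variable {A : Type u} [CommRing A]

/-- `X ↦ X + s Y` -/
noncomputable def subα (s : A) : A[X] →+* A[X][X] :=
  eval₂RingHom (C.comp C) (C X + C (C s) * X)

/-- `Y ↦ c Y` -/
noncomputable def subS (c : A) : A[X][X] →+* A[X][X] := eval₂RingHom C (C (C c) * X)

/-- `X ↦ X + s Y, Y ↦ Y` -/
noncomputable def subT (s : A) : A[X][X] →+* A[X][X] := eval₂RingHom (subα s) X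

@[simp] theorem subα_C (s a : A) : subα s (C a) = C (C a) := by simp [subα]
@[simp] theorem subα_X (s : A) : subα s X = C X + C (C s) * X := by simp [subα]
@[simp] theorem subS_C (s : A) (a : A[X]) : subS s (C a) = C a := by simp [subS]
@[simp] theorem subS_X (s : A) : subS s X = C (C s) * X := by simp [subS]
@[simp] theorem subT_C (s : A) (a : A[X]) : subT s (C a) = subα s a := by simp [subT]
@[simp] theorem subT_X (s : A) : subT s X = X := by simp [subT]

theorem subS_subα (s c : A) (f : A[X]) : subS c (subα s f) = subα (s * c) f := by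
  have : (subS c).comp (subα s) = subα (s * c) := by
    apply Polynomial.ringHom_ext
    · intro a
      simp
    · simp only [RingHom.comp_apply, subα_X, map_add, map_mul, subS_C, subS_X]
      ring
  exact congrArg (fun g => g f) this

theorem subT_subα (s s' : A) (f : A[X]) : subT s' (subα s f) = subα (s + s') f := by
  have : (subT s').comp (subα s) = subα (s + s') := by
    apply Polynomial.ringHom_ext
    · intro a
      simp
    · simp only [RingHom.comp_apply, subα_X, map_add, map_mul, subT_C, subT_X, subα_C]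
      ring
  exact congrArg (fun g => g f) this

theorem ev_subα (s : A) (f : A[X]) : evalRingHom (0 : A[X]) (subα s f) = f := by
  have : (evalRingHom (0 : A[X])).comp (subα s) = RingHom.id _ := by
    apply Polynomial.ringHom_ext
    · intro a
      simp
    · simp
  exact congrArg (fun g => g f) this

theorem ev_subS (s : A) : (evalRingHom (0 : A[X])).comp (subS s) = evalRingHom 0 := by
  apply Polynomial.ringHom_ext
  · intro a
    simp
  · simp

theorem ev_subT (s : A) : (evalRingHom (0 : A[X])).comp (subT s) = evalRingHom 0 := by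
  apply Polynomial.ringHom_ext
  · intro a
    rw [RingHom.comp_apply, subT_C, ev_subα]
    simp
  · simp

theorem ev_C : (evalRingHom (0 : A[X])).comp (C : A[X] →+* A[X][X]) = RingHom.id _ := by
  apply Polynomial.ringHom_ext
  · intro a
    simp
  · simp

end subst

section vas

variable {ι : Type} [Fintype ι] [DecidableEq ι] {O : Type u} [CommRing O]

/-- the Vaserstein ideal of a row -/
def Vas (v : ι → O[X]) : Ideal O where
  carrier := {s | ∃ G : (Matrix ι ι O[X][X])ˣ, mapU (evalRingHom 0) G = 1 ∧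
    Tr (fun i => subα s (v i)) (fun i => C (v i)) G}
  zero_mem' := by
    refine ⟨1, map_one _, ?_⟩
    have : (fun i => subα 0 (v i)) = fun i => (C (v i) : O[X][X]) := by
      ext1 i
      have : subα (0 : O) = C := by
        apply Polynomial.ringHom_ext
        · intro a
          simp
        · simp
      rw [this]
    rw [this]
    exact Tr.one _
  add_mem' := by
    rintro s s' ⟨G, h1, h2⟩ ⟨G', h1', h2'⟩
    refine ⟨mapU (subT s') G * G', ?_, ?_⟩
    · rw [map_mul, mapU_comp, ev_subT, h1, h1', one_mul]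
    · have h3 := h2.map (subT s')
      simp only [subT_subα, subT_C] at h3
      exact h3.mul h2'
  smul_mem' := by
    rintro c s ⟨G, h1, h2⟩
    refine ⟨mapU (subS c) G, ?_, ?_⟩
    · rw [mapU_comp, ev_subS, h1]
    · have h3 := h2.map (subS c)
      simp only [subS_subα, subS_C] at h3
      rwa [smul_eq_mul, mul_comm c s]

end vas

section descent

variable {O : Type u} [CommRing O]

/-- every element has a denominator outside `q` -/
def Den {A B : Type u} [CommRing A] [CommRing B] (q : Ideal O) (ψ : A →+* B) (j : O →+* A) :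
    Prop :=
  ∀ b : B, ∃ s : O, s ∉ q ∧ ∀ t, s ∣ t → ψ (j t) * b ∈ ψ.range

theorem Den.poly {A B : Type u} [CommRing A] [CommRing B] {q : Ideal O} [hq : q.IsPrime]
    {ψ : A →+* B} {j : O →+* A} (h : Den q ψ j) :
    Den q (Polynomial.mapRingHom ψ) (C.comp j) := by
  intro b
  induction b using Polynomial.induction_on' with
  | add f g hf hg =>
    obtain ⟨s, hs, h1⟩ := hf
    obtain ⟨t, ht, h2⟩ := hg
    refine ⟨s * t, fun h => ?_, fun x hx => ?_⟩
    · rcases hq.mem_or_mem h with h | h
      · exact hs h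
      · exact ht h
    · rw [mul_add]
      exact Subring.add_mem _ (h1 x ((dvd_mul_right s t).trans hx))
        (h2 x ((dvd_mul_left t s).trans hx))
  | monomial n a =>
    obtain ⟨s, hs, h1⟩ := h a
    refine ⟨s, hs, fun t ht => ?_⟩
    obtain ⟨c, hc⟩ := h1 t ht
    refine ⟨Polynomial.monomial n c, ?_⟩
    rw [RingHom.comp_apply, Polynomial.coe_mapRingHom, Polynomial.map_monomial, hc,
      Polynomial.map_C, Polynomial.C_mul_monomial]

theorem den_loc (q : Ideal O) [hq : q.IsPrime] :
    Den q (algebraMap O (Localization.AtPrime q)) (RingHom.id O) := by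
  intro b
  obtain ⟨⟨x, s⟩, h⟩ := IsLocalization.surj q.primeCompl b
  refine ⟨s, s.2, ?_⟩
  rintro t ⟨c, rfl⟩
  refine ⟨x * c, ?_⟩
  rw [map_mul, ← h]
  simp only [RingHom.id_apply, map_mul]
  ring

theorem subS_map {A B : Type u} [CommRing A] [CommRing B] (φ : A →+* B) (t : A) (p : A[X][X]) :
    subS (φ t) (mapRingHom (mapRingHom φ) p) = mapRingHom (mapRingHom φ) (subS t p) := by
  have : (subS (φ t)).comp (mapRingHom (mapRingHom φ)) =
      (mapRingHom (mapRingHom φ)).comp (subS t) := by
    apply Polynomial.ringHom_ext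
    · intro a
      simp
    · simp
  exact congrArg (fun g => g p) this

theorem descent_one {K : Type u} [CommRing K] (q : Ideal O) [hq : q.IsPrime] (φ : O →+* K)
    (hφ : Den q φ (RingHom.id O)) (p : K[X][X])
    (h0 : evalRingHom 0 p ∈ (mapRingHom φ).range) :
    ∃ s : O, s ∉ q ∧ ∀ t, s ∣ t → subS (φ t) p ∈ (mapRingHom (mapRingHom φ)).range := by
  obtain ⟨s, hs, h1⟩ := hφ.poly.poly (Polynomial.divX p)
  refine ⟨s, hs, fun t ht => ?_⟩
  obtain ⟨f, hf⟩ := h0
  obtain ⟨p₀, hp⟩ := h1 t ht
  refine ⟨C f + X * subS t p₀, ?_⟩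
  have h2 : p = C (evalRingHom 0 p) + X * divX p := by
    conv_lhs => rw [← Polynomial.X_mul_divX_add p]
    rw [add_comm]
    congr 1
    rw [Polynomial.coe_evalRingHom, ← Polynomial.coeff_zero_eq_eval_zero]
  rw [h2, map_add, map_add, subS_C, map_mul, map_mul, ← subS_map, hp, ← hf, subS_X]
  simp
  ring

theorem descent {α : Type} [Finite α] {K : Type u} [CommRing K] (q : Ideal O) [hq : q.IsPrime]
    (φ : O →+* K) (hφ : Den q φ (RingHom.id O)) (p : α → K[X][X])
    (h0 : ∀ a, evalRingHom 0 (p a) ∈ (mapRingHom φ).range) :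
    ∃ s : O, s ∉ q ∧ ∀ a, subS (φ s) (p a) ∈ (mapRingHom (mapRingHom φ)).range := by
  classical
  have := Fintype.ofFinite α
  choose s hs h using fun a => descent_one q φ hφ (p a) (h0 a)
  refine ⟨∏ a, s a, fun h => ?_, fun a => h a _ (Finset.dvd_prod_of_mem s (Finset.mem_univ a))⟩
  obtain ⟨a, _, ha⟩ := (Ideal.IsPrime.prod_mem_iff (p := q)).1 h
  exact hs a ha

end descent

section main

variable {ι : Type} [Fintype ι] [DecidableEq ι] {O : Type u} [CommRing O]

theorem map_subα {A B : Type u} [CommRing A] [CommRing B] (φ : A →+* B) (t : A) (p : A[X]) :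
    subα (φ t) (mapRingHom φ p) = mapRingHom (mapRingHom φ) (subα t p) := by
  have : (subα (φ t)).comp (mapRingHom φ) = (mapRingHom (mapRingHom φ)).comp (subα t) := by
    apply Polynomial.ringHom_ext
    · intro a
      simp
    · simp
  exact congrArg (fun g => g p) this

theorem vas_local {K : Type u} [CommRing K] (v : ι → O[X]) (q : Ideal O) [hq : q.IsPrime]
    (φ : O →+* K) (hφ : Den q φ (RingHom.id O)) (hinj : Function.Injective φ)
    (σ : (Matrix ι ι K[X])ˣ) (w : ι → K)
    (hσ : Tr (A := K[X]) (fun i => mapRingHom φ (v i)) (fun i => C (w i)) σ) :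
    ∃ s ∈ Vas v, s ∉ q := by
  have hinj1 : Function.Injective (mapRingHom φ) := Polynomial.map_injective _ hinj
  have hinj2 : Function.Injective (mapRingHom (mapRingHom φ)) := Polynomial.map_injective _ hinj1
  -- the matrix Γ
  set Γ : (Matrix ι ι K[X][X])ˣ := mapU (A := K[X]) (B := K[X][X]) (subα 1) σ *
    (mapU (A := K[X]) (B := K[X][X]) C σ)⁻¹ with hΓ
  have h1 : Tr (A := K[X][X]) (fun i => subα 1 (mapRingHom φ (v i)))
      (fun i => C (mapRingHom φ (v i))) Γ := by
    have a1 := hσ.map (B := K[X][X]) (subα 1)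
    have a2 := (hσ.map (B := K[X][X]) C).inv
    simp only [subα_C] at a1
    exact a1.mul a2
  have h2 : mapU (A := K[X][X]) (B := K[X]) (evalRingHom (0 : K[X])) Γ = 1 := by
    rw [hΓ, map_mul, map_inv, mapU_comp, mapU_comp, ev_C, mapU_id]
    have : (evalRingHom (0 : K[X])).comp (subα 1) = RingHom.id _ :=
      RingHom.ext fun f => ev_subα 1 f
    rw [this, mapU_id, mul_inv_cancel]
  have h3 : mapU (A := K[X][X]) (B := K[X]) (evalRingHom (0 : K[X])) Γ⁻¹ = 1 := by
    rw [map_inv, h2, inv_one]
  -- descend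
  have h4 : ∀ (M : (Matrix ι ι K[X][X])ˣ),
      mapU (A := K[X][X]) (B := K[X]) (evalRingHom (0 : K[X])) M = 1 → ∀ i j,
      evalRingHom 0 ((M : Matrix ι ι K[X][X]) i j) ∈ (mapRingHom φ).range := by
    intro M hM i j
    have := congrArg (fun N : (Matrix ι ι K[X])ˣ => (N : Matrix ι ι K[X]) i j) hM
    simp only [coe_mapU, Matrix.map_apply, Units.val_one] at this
    rw [this, Matrix.one_apply]
    split_ifs
    · exact Subring.one_mem _
    · exact Subring.zero_mem _
  obtain ⟨s, hs, h5⟩ := descent (α := ι × ι ⊕ ι × ι) q φ hφ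
    (Sum.elim (fun x => (Γ : Matrix ι ι K[X][X]) x.1 x.2)
      (fun x => ((Γ⁻¹ : (Matrix ι ι K[X][X])ˣ) : Matrix ι ι K[X][X]) x.1 x.2)) (by
    rintro (⟨i, j⟩ | ⟨i, j⟩)
    · exact h4 Γ h2 i j
    · exact h4 Γ⁻¹ h3 i j)
  choose G hG using fun i j => h5 (Sum.inl (i, j))
  choose G' hG' using fun i j => h5 (Sum.inr (i, j))
  simp only [Sum.elim_inl] at hG
  simp only [Sum.elim_inr] at hG'
  set Δ : (Matrix ι ι K[X][X])ˣ := mapU (A := K[X][X]) (B := K[X][X]) (subS (φ s)) Γ with hΔ
  have hG1 : (Matrix.of G).map (mapRingHom (mapRingHom φ)) = (Δ : Matrix ι ι K[X][X]) := by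
    ext1 i j
    rw [Matrix.map_apply, Matrix.of_apply, hG, hΔ, coe_mapU, Matrix.map_apply]
  have hG1' : (Matrix.of G').map (mapRingHom (mapRingHom φ)) =
      ((Δ⁻¹ : (Matrix ι ι K[X][X])ˣ) : Matrix ι ι K[X][X]) := by
    ext1 i j
    rw [Matrix.map_apply, Matrix.of_apply, hG', hΔ, ← map_inv, coe_mapU, Matrix.map_apply]
  have hmi : ∀ A B : Matrix ι ι O[X][X], A.map (mapRingHom (mapRingHom φ)) =
      B.map (mapRingHom (mapRingHom φ)) → A = B := by
    intro A B h
    ext1 i j
    exact hinj2 (congrFun (congrFun h i) j)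
  have hone : (1 : Matrix ι ι O[X][X]).map (mapRingHom (mapRingHom φ)) = 1 :=
    Matrix.map_one _ (map_zero _) (map_one _)
  let L : (Matrix ι ι O[X][X])ˣ :=
    { val := Matrix.of G
      inv := Matrix.of G'
      val_inv := by
        apply hmi
        rw [Matrix.map_mul, hG1, hG1', hone, Units.mul_inv]
      inv_val := by
        apply hmi
        rw [Matrix.map_mul, hG1, hG1', hone, Units.inv_mul] }
  have hL : mapU (A := O[X][X]) (B := K[X][X]) (mapRingHom (mapRingHom φ)) L = Δ :=
    Units.ext hG1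
  refine ⟨s, ⟨L, ?_, ?_⟩, hs⟩
  · -- evaluation at 0
    apply Units.ext
    rw [coe_mapU]
    ext1 i j
    apply hinj1
    have h6 : mapU (A := K[X][X]) (B := K[X]) (evalRingHom (0 : K[X])) Δ = 1 := by
      rw [hΔ, mapU_comp, ev_subS, h2]
    have h7 := congrArg (fun N : (Matrix ι ι K[X])ˣ => (N : Matrix ι ι K[X]) i j) h6
    simp only [coe_mapU, Matrix.map_apply, Units.val_one] at h7
    rw [← hL, coe_mapU, Matrix.map_apply] at h7
    rw [Matrix.map_apply, Units.val_one]
    have h8 : ∀ p : O[X][X], mapRingHom φ (evalRingHom 0 p) =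
        evalRingHom 0 (mapRingHom (mapRingHom φ) p) := by
      intro p
      have : (mapRingHom φ).comp (evalRingHom 0) =
          (evalRingHom 0).comp (mapRingHom (mapRingHom φ)) := by
        apply Polynomial.ringHom_ext
        · intro a
          simp
        · simp
      exact congrArg (fun g => g p) this
    rw [h8, h7, Matrix.one_apply, Matrix.one_apply]
    split_ifs
    · rw [map_one]
    · rw [map_zero]
  · -- the row
    have h9 := h1.map (B := K[X][X]) (subS (φ s))
    rw [← hΔ, ← hL] at h9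
    simp only [subS_subα, one_mul, subS_C, map_subα] at h9
    rw [Tr] at h9 ⊢
    ext1 i
    apply hinj2
    have h10 := congrFun h9 i
    rw [RingHom.map_vecMul]
    simp only [coe_mapRingHom, map_C] at h10 ⊢
    exact h10

theorem vaserstein [IsDomain O] (v : ι → O[X])
    (h : ∀ (q : Ideal O) [q.IsMaximal], ∃ (σ : (Matrix ι ι (Localization.AtPrime q)[X])ˣ)
      (w : ι → Localization.AtPrime q),
      Tr (A := (Localization.AtPrime q)[X])
      (fun i => mapRingHom (algebraMap O (Localization.AtPrime q)) (v i))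
      (fun i => C (w i)) σ) :
    ∃ G : (Matrix ι ι O[X][X])ˣ, mapU (A := O[X][X]) (B := O[X]) (evalRingHom 0) G = 1 ∧
      Tr (A := O[X][X]) (fun i => subα 1 (v i)) (fun i => C (v i)) G := by
  have : Vas v = ⊤ := by
    by_contra hne
    obtain ⟨q, hq, hle⟩ := Ideal.exists_le_maximal _ hne
    obtain ⟨σ, w, hσ⟩ := h q
    obtain ⟨s, hs, hsq⟩ := vas_local v q (algebraMap O (Localization.AtPrime q)) (den_loc q)
      (IsLocalization.injective _ (Ideal.primeCompl_le_nonZeroDivisors q)) σ w hσ
    exact hsq (hle hs)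
  have h1 : (1 : O) ∈ Vas v := by
    rw [this]
    exact Submodule.mem_top
  exact h1

end main

end Pool.Agent.H71.AAE
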