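import Mathlib
import Pool.Agent.H71.AAE.Defs

/-! # AAE, module M, part 1: the conormal generators -/

set_option autoImplicit false

open Polynomial

namespace Pool.Agent.H71.AAE

universe u

/-- The evaluation `X_0 ↦ X`, `X_j ↦ 0` (`j ≥ 1`). -/
noncomputable def ev0 {k : Type u} [Field k] {m : ℕ} :
    MvPolynomial (Fin (m + 1)) k →ₐ[k] k[X] :=
  MvPolynomial.aeval (Fin.cons X fun _ => 0)

theorem ev0_X0 {k : Type u} [Field k] {m : ℕ} :
    ev0 (MvPolynomial.X 0 : MvPolynomial (Fin (m + 1)) k) = X := by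
  simp [ev0]

theorem ev0_Xs {k : Type u} [Field k] {m : ℕ} (j : Fin m) :
    ev0 (MvPolynomial.X j.succ : MvPolynomial (Fin (m + 1)) k) = 0 := by
  simp [ev0]

theorem ev0_aeval {k : Type u} [Field k] {m : ℕ} (Q : k[X]) :
    ev0 (aeval (MvPolynomial.X 0 : MvPolynomial (Fin (m + 1)) k) Q) = Q := by
  rw [← Polynomial.aeval_algHom_apply, ev0_X0]
  simp

/-- The model conductor. -/
noncomputable def cP {k : Type u} [Field k] {m : ℕ} (P : k[X]) :
    Ideal (MvPolynomial (Fin (m + 1)) k) :=
  Ideal.span (insert (aeval (MvPolynomial.X 0) P)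
          (Set.range fun j : Fin m => MvPolynomial.X j.succ))

theorem sub_ev0_mem {k : Type u} [Field k] {m : ℕ} (P : k[X])
    (b : MvPolynomial (Fin (m + 1)) k) :
    b - aeval (MvPolynomial.X 0) (ev0 b) ∈ cP P := by
  induction b using MvPolynomial.induction_on with
  | C a =>
    have : (ev0 (MvPolynomial.C a : MvPolynomial (Fin (m + 1)) k)) = C a := by
      rw [← MvPolynomial.algebraMap_eq, AlgHom.commutes]
      rfl
    rw [this]
    simp [MvPolynomial.algebraMap_eq]
  | add p q hp hq =>
    have : p + q - aeval (MvPolynomial.X 0) (ev0 (p + q)) =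
        (p - aeval (MvPolynomial.X 0) (ev0 p)) + (q - aeval (MvPolynomial.X 0) (ev0 q)) := by
      rw [map_add, map_add]; ring
    rw [this]
    exact Ideal.add_mem _ hp hq
  | mul_X p i hp =>
    refine Fin.cases ?_ (fun j => ?_) i
    · have : p * MvPolynomial.X 0 - aeval (MvPolynomial.X 0) (ev0 (p * MvPolynomial.X 0)) =
          (p - aeval (MvPolynomial.X 0) (ev0 p)) * MvPolynomial.X 0 := by
        rw [map_mul, map_mul, ev0_X0, aeval_X]; ring
      rw [this]
      exact Ideal.mul_mem_right _ _ hp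
    · rw [map_mul, ev0_Xs, mul_zero, map_zero, sub_zero]
      apply Ideal.mul_mem_left
      exact Ideal.subset_span (Set.mem_insert_of_mem _ ⟨j, rfl⟩)

theorem mem_cP_iff {k : Type u} [Field k] {m : ℕ} (P : k[X])
    (b : MvPolynomial (Fin (m + 1)) k) : b ∈ cP P ↔ P ∣ ev0 b := by
  constructor
  · intro hb
    have h1 : cP P ≤ Ideal.comap (ev0 : MvPolynomial (Fin (m + 1)) k →ₐ[k] k[X])
        (Ideal.span {P}) := by
      apply Ideal.span_le.2
      rintro x (rfl | ⟨j, rfl⟩)
      · show ev0 _ ∈ Ideal.span {P}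
        rw [ev0_aeval]
        exact Ideal.mem_span_singleton_self P
      · show ev0 _ ∈ Ideal.span {P}
        rw [ev0_Xs]
        exact Ideal.zero_mem _
    exact Ideal.mem_span_singleton.1 (h1 hb)
  · rintro ⟨q, hq⟩
    have h1 := sub_ev0_mem P b
    have h2 : (aeval (MvPolynomial.X 0 : MvPolynomial (Fin (m + 1)) k)) (ev0 b) ∈ cP P := by
      rw [hq, map_mul]
      exact Ideal.mul_mem_right _ _ (Ideal.subset_span (Set.mem_insert _ _))
    have := Ideal.add_mem _ h1 h2
    rwa [sub_add_cancel] at this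

/-- the generators of the model conductor -/
noncomputable def gam {k : Type u} [Field k] {m : ℕ} (P : k[X]) :
    Fin (m + 1) → MvPolynomial (Fin (m + 1)) k :=
  Fin.cons (aeval (MvPolynomial.X 0) P) fun j => MvPolynomial.X j.succ

theorem span_gam {k : Type u} [Field k] {m : ℕ} (P : k[X]) :
    Ideal.span (Set.range (gam P : Fin (m + 1) → MvPolynomial (Fin (m + 1)) k)) = cP P := by
  unfold gam cP
  rw [Fin.range_cons]

theorem gam_mem {k : Type u} [Field k] {m : ℕ} (P : k[X]) (i : Fin (m + 1)) :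
    gam P i ∈ cP P := by
  rw [← span_gam]
  exact Ideal.subset_span ⟨i, rfl⟩

theorem pderiv_cP_sq {k : Type u} [Field k] {m : ℕ} (P : k[X]) (j : Fin (m + 1))
    {z : MvPolynomial (Fin (m + 1)) k} (hz : z ∈ (cP P) ^ 2) :
    MvPolynomial.pderiv j z ∈ cP P := by
  rw [pow_two] at hz
  induction hz using Submodule.mul_induction_on' with
  | mem_mul_mem a ha b hb =>
    rw [MvPolynomial.pderiv_mul]
    exact Ideal.add_mem _ (Ideal.mul_mem_left _ _ hb) (Ideal.mul_mem_right _ _ ha)
  | add x _ y _ hx hy =>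
    rw [map_add]
    exact Ideal.add_mem _ hx hy

theorem ev0_cP_sq {k : Type u} [Field k] {m : ℕ} (P : k[X])
    {z : MvPolynomial (Fin (m + 1)) k} (hz : z ∈ (cP P) ^ 2) : P ^ 2 ∣ ev0 z := by
  rw [pow_two] at hz
  induction hz using Submodule.mul_induction_on' with
  | mem_mul_mem a ha b hb =>
    rw [map_mul, pow_two]
    exact mul_dvd_mul ((mem_cP_iff P a).1 ha) ((mem_cP_iff P b).1 hb)
  | add x _ y _ hx hy =>
    rw [map_add]
    exact dvd_add hx hy

theorem pderiv_succ_aeval {k : Type u} [Field k] {m : ℕ} (P : k[X]) (j : Fin m) :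
    MvPolynomial.pderiv j.succ (aeval (MvPolynomial.X 0 : MvPolynomial (Fin (m + 1)) k) P) = 0 := by
  induction P using Polynomial.induction_on' with
  | add p q hp hq => rw [map_add, map_add, hp, hq, add_zero]
  | monomial n a =>
    rw [aeval_monomial, MvPolynomial.algebraMap_eq, MvPolynomial.pderiv_C_mul,
      MvPolynomial.pderiv_pow, MvPolynomial.pderiv_X_of_ne (Fin.succ_ne_zero j).symm]
    simp

/-- the generators are independent modulo the square -/
theorem gam_free {k : Type u} [Field k] {m : ℕ} (P : k[X]) (hP : P ≠ 0)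
    (b : Fin (m + 1) → MvPolynomial (Fin (m + 1)) k)
    (h : ∑ i, b i * gam P i ∈ (cP P) ^ 2) (i : Fin (m + 1)) : b i ∈ cP P := by
  have hsucc : ∀ j : Fin m, b j.succ ∈ cP P := by
    intro j
    have h1 := pderiv_cP_sq P j.succ h
    rw [map_sum] at h1
    have h2 : ∀ i, MvPolynomial.pderiv j.succ (b i * gam P i) - (if i = j.succ then b i else 0)
        ∈ cP P := by
      intro i
      rw [MvPolynomial.pderiv_mul]
      have h3 : MvPolynomial.pderiv j.succ (gam P i : MvPolynomial (Fin (m + 1)) k) =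
          if i = j.succ then 1 else 0 := by
        refine Fin.cases ?_ (fun l => ?_) i
        · have : (gam P 0 : MvPolynomial (Fin (m + 1)) k) = aeval (MvPolynomial.X 0) P := rfl
          rw [this, pderiv_succ_aeval, if_neg (Fin.succ_ne_zero j).symm]
        · have : (gam P l.succ : MvPolynomial (Fin (m + 1)) k) = MvPolynomial.X l.succ := rfl
          rw [this, MvPolynomial.pderiv_X, Pi.single_apply]
      rw [h3]
      have h4 : MvPolynomial.pderiv j.succ (b i) * gam P i + b i * (if i = j.succ then 1 else 0) -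
          (if i = j.succ then b i else 0) = MvPolynomial.pderiv j.succ (b i) * gam P i := by
        split_ifs <;> ring
      rw [h4]
      exact Ideal.mul_mem_left _ _ (gam_mem P i)
    have h5 := Ideal.sub_mem _ h1 (Ideal.sum_mem _ fun i (_ : i ∈ Finset.univ) => h2 i)
    rw [← Finset.sum_sub_distrib] at h5
    simpa using h5
  refine Fin.cases ?_ hsucc i
  have h1 := ev0_cP_sq P h
  rw [map_sum, Fin.sum_univ_succ] at h1
  have h2 : ∀ j : Fin m, ev0 (b j.succ * gam P j.succ) = 0 := by
    intro j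
    have : (gam P j.succ : MvPolynomial (Fin (m + 1)) k) = MvPolynomial.X j.succ := rfl
    rw [map_mul, this, ev0_Xs, mul_zero]
  simp only [h2, Finset.sum_const_zero, add_zero] at h1
  have h3 : (gam P 0 : MvPolynomial (Fin (m + 1)) k) = aeval (MvPolynomial.X 0) P := rfl
  rw [map_mul, h3, ev0_aeval, pow_two] at h1
  rw [mem_cP_iff]
  exact (mul_dvd_mul_iff_right hP).1 h1

end Pool.Agent.H71.AAE
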