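import Mathlib
import Pool.Agent.H71.AAE.Defs
import Pool.Agent.H71.AAE.M1

/-! # AAE, module M, part 2: the map Theta -/

set_option autoImplicit false

open Polynomial

namespace Pool.Agent.H71.AAE

universe u

section Theta

variable {k : Type u} [Field k] {N m : ℕ}
  (φ : (MvPolynomial (Fin N) k)[X] →ₐ[k] MvPolynomial (Fin m) k)
  (s p : MvPolynomial (Fin N) k)

/-- the conjugate homomorphism `T ↦ s - g` -/
noncomputable def phi' : (MvPolynomial (Fin N) k)[X] →+* MvPolynomial (Fin m) k :=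
  Polynomial.eval₂RingHom ((φ : (MvPolynomial (Fin N) k)[X] →+* MvPolynomial (Fin m) k).comp C)
    (φ (C s) - φ X)

theorem phi'_C (r : MvPolynomial (Fin N) k) : phi' φ s (C r) = φ (C r) := by
  simp [phi']

theorem phi'_X : phi' φ s X = φ (C s) - φ X := by
  simp [phi']

/-- the element `u = s - 2 g` -/
noncomputable def uu : MvPolynomial (Fin m) k := φ (C s) - 2 * φ X

/-- the quadratic polynomial -/
noncomputable def aa : (MvPolynomial (Fin N) k)[X] := X ^ 2 - C s * X + C p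

theorem aa_monic : (aa s p).Monic := by
  have : aa s p = X ^ 2 + (C (-s) * X + C p) := by
    unfold aa
    rw [C_neg]
    ring
  rw [this]
  apply monic_X_pow_add
  exact lt_of_le_of_lt degree_linear_le (by norm_num)

variable {φ s p}

theorem phi_aa (hg : φ X ^ 2 = φ (C s) * φ X - φ (C p)) : φ (aa s p) = 0 := by
  unfold aa
  rw [map_add, map_sub, map_pow, map_mul, hg]
  ring

theorem phi'_aa (hg : φ X ^ 2 = φ (C s) * φ X - φ (C p)) : phi' φ s (aa s p) = 0 := by
  unfold aa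
  rw [map_add, map_sub, map_pow, map_mul, phi'_X, phi'_C, phi'_C]
  linear_combination hg

theorem decomp (s p : MvPolynomial (Fin N) k) (h : (MvPolynomial (Fin N) k)[X]) :
    ∃ q : (MvPolynomial (Fin N) k)[X], ∃ h₁ h₀ : MvPolynomial (Fin N) k,
      h = q * aa s p + (C h₁ * X + C h₀) := by
  have hm := aa_monic s p
  have h1 := modByMonic_add_div h (aa s p)
  have hdeg : (h %ₘ aa s p).degree < 2 := by
    have h2 := degree_modByMonic_lt h hm
    have h3 : (aa s p).degree = 2 := by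
      have : aa s p = X ^ 2 + (C (-s) * X + C p) := by
        unfold aa
        rw [C_neg]
        ring
      rw [this, degree_add_eq_left_of_degree_lt]
      · simp
      · rw [degree_X_pow]
        exact lt_of_le_of_lt degree_linear_le (by norm_num)
    rwa [h3] at h2
  have h4 := eq_X_add_C_of_degree_le_one (Order.le_of_lt_succ (b := (1 : WithBot ℕ)) (by
    have : Order.succ (1 : WithBot ℕ) = 2 := rfl
    rw [this]
    exact hdeg))
  refine ⟨h /ₘ aa s p, (h %ₘ aa s p).coeff 1, (h %ₘ aa s p).coeff 0, ?_⟩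
  rw [← h4]
  rw [add_comm, mul_comm]
  exact h1.symm

theorem derivative_decomp (q : (MvPolynomial (Fin N) k)[X]) (h₁ h₀ : MvPolynomial (Fin N) k)
    (hg : φ X ^ 2 = φ (C s) * φ X - φ (C p)) :
    φ (derivative (q * aa s p + (C h₁ * X + C h₀))) = φ (C h₁) - φ q * uu φ s := by
  have h1 : derivative (aa s p) = 2 * X - C s := by
    unfold aa
    simp [derivative_add, derivative_sub, derivative_mul, derivative_C, derivative_X]
    ring
  rw [derivative_add, derivative_mul, h1]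
  simp only [derivative_mul, derivative_C, derivative_X, zero_mul, mul_one,
    zero_add, add_zero, map_add, map_mul, map_sub, phi_aa hg, mul_zero]
  unfold uu
  have : φ (2 : (MvPolynomial (Fin N) k)[X]) = 2 := map_ofNat φ 2
  rw [this]
  ring

theorem mem_cond_of {b : MvPolynomial (Fin m) k}
    (hS : ∀ b, ∃ α β : MvPolynomial (Fin N) k, b = φ (C α) + φ (C β) * φ X)
    {r r' : MvPolynomial (Fin N) k} (h1 : φ (C r) = b) (h2 : φ (C r') = b * φ X) :
    b ∈ cond φ := by
  intro b'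
  obtain ⟨α, β, rfl⟩ := hS b'
  refine ⟨r * α + r' * β, ?_⟩
  rw [C_add, C_mul, C_mul, map_add, map_mul, map_mul, h1, h2]
  ring

/-- Properties of `Theta`. -/
theorem theta_exists (hg : φ X ^ 2 = φ (C s) * φ X - φ (C p))
    (hS : ∀ b, ∃ α β : MvPolynomial (Fin N) k, b = φ (C α) + φ (C β) * φ X)
    {h : (MvPolynomial (Fin N) k)[X]} (hh : φ h = 0) :
    ∃ β ∈ cond φ, phi' φ s h = uu φ s * β ∧ ∃ b, φ (derivative h) = β - b * uu φ s := by
  obtain ⟨q, h₁, h₀, rfl⟩ := decomp s p h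
  have h1 : φ (C h₀) = -(φ (C h₁) * φ X) := by
    rw [map_add, map_mul, phi_aa hg, mul_zero, zero_add, map_add, map_mul] at hh
    linear_combination hh
  refine ⟨φ (C h₁), mem_cond_of hS (r := h₁) (r' := -h₀) rfl ?_, ?_, φ q, ?_⟩
  · rw [C_neg, map_neg, h1, neg_neg]
  · rw [map_add, map_mul, phi'_aa hg, mul_zero, zero_add, map_add, map_mul, phi'_C, phi'_C,
      phi'_X, h1]
    unfold uu
    ring
  · exact derivative_decomp q h₁ h₀ hg

theorem theta_surj {β : MvPolynomial (Fin m) k} (hβ : β ∈ cond φ) :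
    ∃ h, φ h = 0 ∧ phi' φ s h = uu φ s * β ∧ φ (derivative h) = β := by
  obtain ⟨r, hr⟩ := hβ 1
  obtain ⟨r', hr'⟩ := hβ (φ X)
  rw [mul_one] at hr
  refine ⟨C r * X - C r', ?_, ?_, ?_⟩
  · rw [map_sub, map_mul, hr, hr', sub_self]
  · rw [map_sub, map_mul, phi'_C, phi'_C, phi'_X, hr, hr']
    unfold uu
    ring
  · simp [derivative_mul, hr]

theorem ker_theta (hg : φ X ^ 2 = φ (C s) * φ X - φ (C p)) (hu : uu φ s ≠ 0)
    {h : (MvPolynomial (Fin N) k)[X]} (hh : φ h = 0) (hh' : phi' φ s h = 0) :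
    ∃ q : (MvPolynomial (Fin N) k)[X], ∃ h₁ h₀ : MvPolynomial (Fin N) k,
      h = q * aa s p + (C h₁ * X + C h₀) ∧ φ (C h₁) = 0 ∧ φ (C h₀) = 0 ∧
      φ (derivative h) = -(φ q * uu φ s) := by
  obtain ⟨q, h₁, h₀, rfl⟩ := decomp s p h
  have h1 : φ (C h₀) = -(φ (C h₁) * φ X) := by
    rw [map_add, map_mul, phi_aa hg, mul_zero, zero_add, map_add, map_mul] at hh
    linear_combination hh
  have h2 : uu φ s * φ (C h₁) = 0 := by
    rw [map_add, map_mul, phi'_aa hg, mul_zero, zero_add, map_add, map_mul, phi'_C, phi'_C,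
      phi'_X, h1] at hh'
    rw [← hh']
    unfold uu
    ring
  have h3 : φ (C h₁) = 0 := (mul_eq_zero.1 h2).resolve_left hu
  refine ⟨q, h₁, h₀, rfl, h3, ?_, ?_⟩
  · rw [h1, h3]
    ring
  · rw [derivative_decomp q h₁ h₀ hg, h3]
    ring

theorem derivative_sq {h : (MvPolynomial (Fin N) k)[X]} (hh : h ∈ (RingHom.ker φ) ^ 2) :
    φ (derivative h) = 0 := by
  rw [pow_two] at hh
  induction hh using Submodule.mul_induction_on' with
  | mem_mul_mem a ha b hb =>
    rw [derivative_mul, map_add, map_mul, map_mul, (RingHom.mem_ker).1 ha, (RingHom.mem_ker).1 hb]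
    ring
  | add x _ y _ hx hy =>
    rw [derivative_add, map_add, hx, hy, add_zero]

theorem sq_lift {b : MvPolynomial (Fin m) k} (hb : b ∈ (cond φ) ^ 2) :
    ∃ y ∈ (RingHom.ker φ) ^ 2, phi' φ s y = uu φ s * (uu φ s * b) := by
  rw [pow_two] at hb
  induction hb using Submodule.mul_induction_on' with
  | mem_mul_mem a ha b hb =>
    obtain ⟨h, hh1, hh2, _⟩ := theta_surj (s := s) ha
    obtain ⟨h', hh1', hh2', _⟩ := theta_surj (s := s) hb
    refine ⟨h * h', ?_, ?_⟩
    · rw [pow_two]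
      exact Ideal.mul_mem_mul (RingHom.mem_ker.2 hh1) (RingHom.mem_ker.2 hh1')
    · rw [map_mul, hh2, hh2']
      ring
  | add x _ y _ hx hy =>
    obtain ⟨a, ha, ha'⟩ := hx
    obtain ⟨b, hb, hb'⟩ := hy
    refine ⟨a + b, Ideal.add_mem _ ha hb, ?_⟩
    rw [map_add, ha', hb']
    ring

theorem mem_sq_of_mul {B : Type u} [CommRing B] {c : Ideal B} {v b : B}
    (hu : Ideal.span {v} ⊔ c = ⊤) (h : v * b ∈ c ^ 2) : b ∈ c ^ 2 := by
  have h1 : (1 : B) ∈ Ideal.span {v} ⊔ c := hu ▸ Submodule.mem_top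
  obtain ⟨x, hx, β, hβ, hxβ⟩ := Submodule.mem_sup.1 h1
  obtain ⟨t, rfl⟩ := Ideal.mem_span_singleton'.1 hx
  have h2 : b = (v * b) * (t ^ 2 * v + 2 * t * β) + b * β ^ 2 := by
    have : (1 : B) = (t * v + β) ^ 2 := by rw [hxβ, one_pow]
    linear_combination b * this
  rw [h2]
  exact Ideal.add_mem _ (Ideal.mul_mem_right _ _ h)
    (Ideal.mul_mem_left _ _ (Ideal.pow_mem_pow hβ 2))

/-- Elements with vanishing derivative and `Theta` in `c²` come from `N`. -/
theorem exists_nu (hg : φ X ^ 2 = φ (C s) * φ X - φ (C p)) (hu0 : uu φ s ≠ 0)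
    (hS : ∀ b, ∃ α β : MvPolynomial (Fin N) k, b = φ (C α) + φ (C β) * φ X)
    (hu : Ideal.span {uu φ s} ⊔ cond φ = ⊤)
    {h : (MvPolynomial (Fin N) k)[X]} (hh : φ h = 0) (hd : φ (derivative h) = 0)
    {β : MvPolynomial (Fin m) k} (hβ : phi' φ s h = uu φ s * β) (hβ2 : β ∈ (cond φ) ^ 2) :
    ∃ ν ν' : MvPolynomial (Fin N) k, φ (C ν) = 0 ∧ φ (C ν') = 0 ∧
      h - (C ν * X + C ν') ∈ (RingHom.ker φ) ^ 2 := by
  obtain ⟨β', _, hβ', b, hb⟩ := theta_exists hg hS hh
  have h1 : β' = β := mul_left_cancel₀ hu0 (hβ'.symm.trans hβ)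
  subst h1
  have h2 : β' = uu φ s * b := by
    rw [hd] at hb
    linear_combination -hb
  have h3 : b ∈ (cond φ) ^ 2 := by
    apply mem_sq_of_mul hu
    rw [← h2]
    exact hβ2
  obtain ⟨y, hy, hy'⟩ := sq_lift (s := s) h3
  have hyk : φ y = 0 := RingHom.mem_ker.1 (Ideal.pow_le_self two_ne_zero hy)
  obtain ⟨q, h₁, h₀, he, e1, e2, e3⟩ := ker_theta hg hu0 (h := h - y)
    (by rw [map_sub, hh, hyk, sub_self])
    (by rw [map_sub, hβ', hy', h2, sub_self])
  rw [derivative_sub, map_sub, hd, derivative_sq hy, sub_zero] at e3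
  have e4 : φ q = 0 := by
    have : φ q * uu φ s = 0 := by linear_combination e3
    exact (mul_eq_zero.1 this).resolve_right hu0
  refine ⟨h₁, h₀, e1, e2, ?_⟩
  have e5 : h - (C h₁ * X + C h₀) = y + q * aa s p := by
    linear_combination he
  rw [e5]
  refine Ideal.add_mem _ hy ?_
  rw [pow_two]
  exact Ideal.mul_mem_mul (RingHom.mem_ker.2 e4) (RingHom.mem_ker.2 (phi_aa hg))

end Theta

end Pool.Agent.H71.AAE
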