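import Mathlib
import Pool.Agent.H71.AAE.Defs

/-! Project AAE (MP_ae801b_ag), module S2: the conductor and the discriminant are comaximal. -/

set_option autoImplicit false

open Polynomial

namespace Pool.Agent.H71.AAE

universe u

theorem lift_hom {k A B T : Type u} [CommRing k] [CommRing A] [CommRing B] [CommRing T]
    [Algebra k A] [Algebra k B] [Algebra k T] (φ : A →ₐ[k] B) (hφ : Function.Surjective φ)
    (ψ : A →ₐ[k] T) (h : ∀ x, φ x = 0 → ψ x = 0) : ∃ θ : B →ₐ[k] T, ∀ x, θ (φ x) = ψ x := by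
  refine ⟨(Ideal.Quotient.liftₐ (RingHom.ker φ) ψ h).comp
    ((Ideal.quotientKerAlgEquivOfSurjective hφ).symm : B →ₐ[k] A ⧸ RingHom.ker φ), fun x => ?_⟩
  have h1 : (Ideal.quotientKerAlgEquivOfSurjective hφ).symm (φ x) =
      Ideal.Quotient.mk (RingHom.ker φ) x := by
    rw [AlgEquiv.symm_apply_eq]
    rfl
  rw [AlgHom.comp_apply]
  show (Ideal.Quotient.liftₐ (RingHom.ker φ) ψ h)
    ((Ideal.quotientKerAlgEquivOfSurjective hφ).symm (φ x)) = ψ x
  rw [h1]
  rfl

section sqg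

variable {k : Type u} [Field k] {N m : ℕ}

/-- the quadratic relation -/
noncomputable def qa (s p : MvPolynomial (Fin N) k) : (MvPolynomial (Fin N) k)[X] :=
  X ^ 2 - C s * X + C p

theorem qa_monic (s p : MvPolynomial (Fin N) k) : (qa s p).Monic := by
  rw [qa]
  monicity!

theorem qa_natDegree (s p : MvPolynomial (Fin N) k) : (qa s p).natDegree = 2 := by
  rw [qa]
  compute_degree!

theorem exists_div (s p : MvPolynomial (Fin N) k) (f : (MvPolynomial (Fin N) k)[X]) :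
    ∃ w α β, f = qa s p * w + (C α + C β * X) := by
  refine ⟨f /ₘ qa s p, (f %ₘ qa s p).coeff 0, (f %ₘ qa s p).coeff 1, ?_⟩
  have h1 : (f %ₘ qa s p).natDegree < 2 := by
    have := Polynomial.natDegree_modByMonic_lt f (qa_monic s p) (by
      intro h
      have := qa_natDegree s p
      rw [h, natDegree_one] at this
      omega)
    rwa [qa_natDegree] at this
  have h2 : f %ₘ qa s p = C ((f %ₘ qa s p).coeff 0) + C ((f %ₘ qa s p).coeff 1) * X := by
    have h3 : (f %ₘ qa s p).natDegree ≤ 1 := by omega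
    conv_lhs => rw [Polynomial.eq_X_add_C_of_natDegree_le_one h3]
    ring
  rw [← h2, add_comm]
  exact (Polynomial.modByMonic_add_div f (qa s p)).symm

theorem phi_qa (φ : (MvPolynomial (Fin N) k)[X] →ₐ[k] MvPolynomial (Fin m) k)
    (s p : MvPolynomial (Fin N) k) (hg : φ X ^ 2 = φ (C s) * φ X - φ (C p)) :
    φ (qa s p) = 0 := by
  rw [qa, map_add, map_sub, map_mul, map_pow, hg]
  ring

/-- a linear relation has coefficients in the conductor -/
theorem mem_cond_of_rel (φ : (MvPolynomial (Fin N) k)[X] →ₐ[k] MvPolynomial (Fin m) k)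
    (hS : ∀ b, ∃ α β : MvPolynomial (Fin N) k, b = φ (C α) + φ (C β) * φ X)
    (α β : MvPolynomial (Fin N) k) (h : φ (C α) + φ (C β) * φ X = 0) :
    φ (C α) ∈ cond φ ∧ φ (C β) ∈ cond φ := by
  have h1 : φ (C β) ∈ cond φ := by
    intro b'
    obtain ⟨x, y, rfl⟩ := hS b'
    refine ⟨β * x - α * y, ?_⟩
    rw [C_sub, C_mul, C_mul, map_sub, map_mul, map_mul]
    linear_combination (-φ (C y)) * h
  refine ⟨?_, h1⟩
  have h2 : φ (C α) = (-φ X) * φ (C β) := by linear_combination h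
  rw [h2]
  exact Ideal.mul_mem_left _ _ h1

theorem struct_unit [CharZero k]
    (φ : (MvPolynomial (Fin N) k)[X] →ₐ[k] MvPolynomial (Fin m) k) (hφ : Function.Surjective φ)
    (h2 : ∀ (Ω : Type u) [Field Ω] [Algebra k Ω] (θ : MvPolynomial (Fin m) k →ₐ[k] DualNumber Ω),
      TrivSqZeroExt.snd (θ (φ X)) ≠ 0 → (∀ ρ, TrivSqZeroExt.snd (θ (φ (C ρ))) = 0) → False)
    (hS : ∀ b, ∃ α β : MvPolynomial (Fin N) k, b = φ (C α) + φ (C β) * φ X)
    (s p : MvPolynomial (Fin N) k) (hg : φ X ^ 2 = φ (C s) * φ X - φ (C p)) :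
    Ideal.span {φ (C s) - 2 * φ X} ⊔ cond φ = ⊤ := by
  by_contra hne
  obtain ⟨n, hn, hle⟩ := Ideal.exists_le_maximal _ hne
  have hu : φ (C s) - 2 * φ X ∈ n :=
    hle (Ideal.mem_sup_left (Ideal.subset_span rfl))
  have hc : ∀ x ∈ cond φ, x ∈ n := fun x hx => hle (Ideal.mem_sup_right hx)
  let _ : Field (MvPolynomial (Fin m) k ⧸ n) := Ideal.Quotient.field n
  have hcz : CharZero (MvPolynomial (Fin m) k ⧸ n) :=
    charZero_of_injective_algebraMap
      (algebraMap k (MvPolynomial (Fin m) k ⧸ n)).injective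
  -- the homomorphism to the dual numbers
  set mk : MvPolynomial (Fin m) k →ₐ[k] MvPolynomial (Fin m) k ⧸ n := Ideal.Quotient.mkₐ k n
    with hmk
  set τ : MvPolynomial (Fin N) k →ₐ[k] DualNumber (MvPolynomial (Fin m) k ⧸ n) :=
    (TrivSqZeroExt.inlAlgHom k (MvPolynomial (Fin m) k ⧸ n) (MvPolynomial (Fin m) k ⧸ n)).comp
      (mk.comp (φ.comp (Algebra.ofId (MvPolynomial (Fin N) k)
        (MvPolynomial (Fin N) k)[X] |>.restrictScalars k))) with hτ
  set t : DualNumber (MvPolynomial (Fin m) k ⧸ n) :=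
    TrivSqZeroExt.inl (mk (φ (C s)) / 2) + TrivSqZeroExt.inr 1 with ht
  have hτ' : ∀ ρ, τ ρ = TrivSqZeroExt.inl (mk (φ (C ρ))) := fun ρ => rfl
  set ψ : (MvPolynomial (Fin N) k)[X] →ₐ[k] DualNumber (MvPolynomial (Fin m) k ⧸ n) :=
    { Polynomial.eval₂RingHom (τ : MvPolynomial (Fin N) k →+* _) t with
      commutes' := fun c => by
        show Polynomial.eval₂RingHom (τ : MvPolynomial (Fin N) k →+* _) t
          (algebraMap k (MvPolynomial (Fin N) k)[X] c) = _
        rw [Polynomial.algebraMap_apply, Polynomial.coe_eval₂RingHom, Polynomial.eval₂_C]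
        exact τ.commutes c } with hψ
  have hψC : ∀ ρ, ψ (C ρ) = TrivSqZeroExt.inl (mk (φ (C ρ))) := by
    intro ρ
    show Polynomial.eval₂ (τ : MvPolynomial (Fin N) k →+* _) t (C ρ) = _
    rw [Polynomial.eval₂_C]
    exact hτ' ρ
  have hψX : ψ X = t := by
    show Polynomial.eval₂ (τ : MvPolynomial (Fin N) k →+* _) t X = _
    rw [Polynomial.eval₂_X]
  have hz : ∀ x, x ∈ n → mk x = 0 := fun x hx => Ideal.Quotient.eq_zero_iff_mem.2 hx
  have hqa : ψ (qa s p) = 0 := by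
    rw [qa, map_add, map_sub, map_mul, map_pow, hψC, hψC, hψX, ht]
    have h3 : mk (φ (C s)) ^ 2 = 4 * mk (φ (C p)) := by
      have h4 : mk ((φ (C s) - 2 * φ X) ^ 2) = 0 := hz _ (Ideal.pow_mem_of_mem n hu 2 (by norm_num))
      have h5 : (φ (C s) - 2 * φ X) ^ 2 = φ (C s) ^ 2 - 4 * φ (C p) := by
        linear_combination 4 * hg
      rw [h5, map_sub, map_mul, map_pow, map_ofNat] at h4
      linear_combination h4
    have h20 : (2 : MvPolynomial (Fin m) k ⧸ n) ≠ 0 := two_ne_zero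
    have h6 : mk (φ (C s)) = 2 * (mk (φ (C s)) / 2) := by field_simp
    ext
    · simp only [TrivSqZeroExt.fst_add, TrivSqZeroExt.fst_sub, TrivSqZeroExt.fst_mul,
        TrivSqZeroExt.fst_pow, TrivSqZeroExt.fst_inl, TrivSqZeroExt.fst_inr, add_zero,
        TrivSqZeroExt.fst_zero]
      field_simp
      linear_combination (-1 : MvPolynomial (Fin m) k ⧸ n) * h3
    · simp only [pow_two, TrivSqZeroExt.snd_add, TrivSqZeroExt.snd_sub, TrivSqZeroExt.snd_mul,
        TrivSqZeroExt.snd_inl, TrivSqZeroExt.snd_inr, TrivSqZeroExt.fst_add,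
        TrivSqZeroExt.fst_inl, TrivSqZeroExt.fst_inr, add_zero, zero_add,
        TrivSqZeroExt.snd_zero, smul_eq_mul, MulOpposite.smul_eq_mul_unop, MulOpposite.unop_op,
        smul_zero, mul_one, one_mul]
      field_simp
      ring
  have hker : ∀ f, φ f = 0 → ψ f = 0 := by
    intro f hf
    obtain ⟨w, α, β, rfl⟩ := exists_div s p f
    rw [map_add, map_mul, phi_qa φ s p hg, zero_mul, zero_add, map_add, map_mul] at hf
    obtain ⟨ha, hb⟩ := mem_cond_of_rel φ hS α β hf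
    rw [map_add, map_mul, hqa, zero_mul, zero_add, map_add, map_mul, hψC, hψC,
      hz _ (hc _ ha), hz _ (hc _ hb)]
    simp
  obtain ⟨θ, hθ⟩ := lift_hom φ hφ ψ hker
  refine h2 (MvPolynomial (Fin m) k ⧸ n) θ ?_ ?_
  · rw [hθ, hψX, ht]
    simp
  · intro ρ
    rw [hθ, hψC]
    simp

end sqg

end Pool.Agent.H71.AAE
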