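import Mathlib
import Pool.Agent.H71.AAE.Defs
import Pool.Agent.H71.AAE.S2

/-! Project AAE (MP_ae801b_ag), module S1: two generators over the image. -/

set_option autoImplicit false

open Polynomial

namespace Pool.Agent.H71.AAE

universe u

theorem two_gen {R B : Type u} [CommRing R] [CommRing B] [Algebra R B] (g : B)
    (hfin : Module.Finite R B)
    (h : ∀ q : Ideal R, q.IsMaximal → ∀ b : B, ∃ α β : R,
      b - (algebraMap R B α + algebraMap R B β * g) ∈ q.map (algebraMap R B)) :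
    ∀ b : B, ∃ α β : R, b = algebraMap R B α + algebraMap R B β * g := by
  set N' : Submodule R B := Submodule.span R {1, g} with hN'
  have hmem : ∀ b, b ∈ N' ↔ ∃ α β : R, algebraMap R B α + algebraMap R B β * g = b := by
    intro b
    rw [hN', Submodule.mem_span_pair]
    simp only [Algebra.smul_def, mul_one]
  suffices hT : N' = ⊤ by
    intro b
    have : b ∈ N' := by rw [hT]; exact Submodule.mem_top
    obtain ⟨α, β, hab⟩ := (hmem b).1 this
    exact ⟨α, β, hab.symm⟩
  by_contra hne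
  have hnt : Nontrivial (B ⧸ N') := Submodule.Quotient.nontrivial_iff.2 hne
  have hann : Module.annihilator R (B ⧸ N') ≠ ⊤ := by
    intro hA
    have h1 : (1 : R) ∈ Module.annihilator R (B ⧸ N') := by rw [hA]; exact Submodule.mem_top
    rw [Module.mem_annihilator] at h1
    obtain ⟨x, y, hxy⟩ := hnt.exists_pair_ne
    apply hxy
    have h2 := h1 x
    have h3 := h1 y
    rw [one_smul] at h2 h3
    rw [h2, h3]
  obtain ⟨q, hq, hle⟩ := Ideal.exists_le_maximal _ hann
  have hqt : (⊤ : Submodule R (B ⧸ N')) ≤ q • (⊤ : Submodule R (B ⧸ N')) := by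
    intro x _
    obtain ⟨b, rfl⟩ := Submodule.mkQ_surjective N' x
    obtain ⟨α, β, hab⟩ := h q hq b
    have h4 : b - (algebraMap R B α + algebraMap R B β * g) ∈ q • (⊤ : Submodule R B) := by
      rw [Ideal.smul_top_eq_map]
      exact hab
    have h5 : N'.mkQ (b - (algebraMap R B α + algebraMap R B β * g)) ∈
        (q • (⊤ : Submodule R B)).map N'.mkQ := ⟨_, h4, rfl⟩
    rw [Submodule.map_smul'', Submodule.map_top, Submodule.range_mkQ, map_sub] at h5
    have h6 : N'.mkQ (algebraMap R B α + algebraMap R B β * g) = 0 := by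
      rw [Submodule.mkQ_apply, Submodule.Quotient.mk_eq_zero, hmem]
      exact ⟨α, β, rfl⟩
    rwa [h6, sub_zero] at h5
  obtain ⟨r, hr1, hr2⟩ := Submodule.exists_sub_one_mem_and_smul_eq_zero_of_fg_of_le_smul q
    (⊤ : Submodule R (B ⧸ N')) Module.Finite.fg_top hqt
  have h7 : r ∈ q := hle (by
    rw [Module.mem_annihilator]
    exact fun x => hr2 x Submodule.mem_top)
  apply hq.ne_top
  rw [Ideal.eq_top_iff_one]
  have := q.sub_mem h7 hr1
  rwa [sub_sub_cancel] at this

section main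

variable {k : Type u} [Field k] {N m : ℕ}

/-- homomorphisms out of the target, from homomorphisms of the fibre over `q` -/
theorem fibre_hom (φ : (MvPolynomial (Fin N) k)[X] →ₐ[k] MvPolynomial (Fin m) k)
    (hφ : Function.Surjective φ) (q : Ideal (MvPolynomial (Fin N) k)) (Q : Ideal (MvPolynomial (Fin m) k))
    (h : (MvPolynomial (Fin N) k ⧸ q)[X])
    (hJ : ∀ f, φ f ∈ Q → h ∣ Polynomial.mapAlgHom (Ideal.Quotient.mkₐ k q) f)
    {T : Type u} [CommRing T] [Algebra k T] [Algebra (MvPolynomial (Fin N) k ⧸ q) T]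
    [IsScalarTower k (MvPolynomial (Fin N) k ⧸ q) T] (t : T) (ht : aeval t h = 0) :
    ∃ θ : MvPolynomial (Fin m) k →ₐ[k] T, θ (φ X) = t ∧
      ∀ ρ, θ (φ (C ρ)) = algebraMap (MvPolynomial (Fin N) k ⧸ q) T (Ideal.Quotient.mk q ρ) := by
  obtain ⟨θ, hθ⟩ := lift_hom φ hφ
    (((aeval t : (MvPolynomial (Fin N) k ⧸ q)[X] →ₐ[MvPolynomial (Fin N) k ⧸ q] T).restrictScalars
      k).comp (Polynomial.mapAlgHom (Ideal.Quotient.mkₐ k q))) (by
      intro f hf
      obtain ⟨w, hw⟩ := hJ f (by rw [hf]; exact Q.zero_mem)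
      rw [AlgHom.comp_apply, hw]
      show aeval t (h * w) = 0
      rw [map_mul, ht, zero_mul])
  refine ⟨θ, ?_, fun ρ => ?_⟩
  · rw [hθ]
    simp
  · rw [hθ]
    simp

theorem fibre_degree (φ : (MvPolynomial (Fin N) k)[X] →ₐ[k] MvPolynomial (Fin m) k)
    (hφ : Function.Surjective φ)
    (h1 : ∀ (Ω : Type u) [Field Ω] [Algebra k Ω] (p q r : MvPolynomial (Fin m) k →ₐ[k] Ω),
      p (φ X) ≠ q (φ X) → q (φ X) ≠ r (φ X) → p (φ X) ≠ r (φ X) →
      (∀ ρ, p (φ (C ρ)) = q (φ (C ρ))) → (∀ ρ, q (φ (C ρ)) = r (φ (C ρ))) → False)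
    (h2 : ∀ (Ω : Type u) [Field Ω] [Algebra k Ω] (θ : MvPolynomial (Fin m) k →ₐ[k] DualNumber Ω),
      TrivSqZeroExt.snd (θ (φ X)) ≠ 0 → (∀ ρ, TrivSqZeroExt.snd (θ (φ (C ρ))) = 0) → False)
    (q : Ideal (MvPolynomial (Fin N) k)) (hq : q.IsMaximal) (Q : Ideal (MvPolynomial (Fin m) k))
    (h : (MvPolynomial (Fin N) k ⧸ q)[X]) (h0 : h ≠ 0)
    (hJ : ∀ f, φ f ∈ Q → h ∣ Polynomial.mapAlgHom (Ideal.Quotient.mkₐ k q) f) :
    h.natDegree ≤ 2 := by
  classical
  by_contra hdeg
  push Not at hdeg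
  let _ : Field (MvPolynomial (Fin N) k ⧸ q) := Ideal.Quotient.field q
  set Ω := AlgebraicClosure (MvPolynomial (Fin N) k ⧸ q) with hΩ
  set s := h.aroots Ω with hs
  have hsc : Multiset.card s = h.natDegree := IsAlgClosed.card_aroots_eq_natDegree
  have hroot : ∀ t ∈ s, aeval t h = 0 := by
    intro t ht
    exact ((Polynomial.mem_aroots.1 ht).2)
  by_cases hnd : s.Nodup
  · -- three distinct roots
    have h3 : 2 < s.toFinset.card := by
      rw [Multiset.toFinset_card_of_nodup hnd, hsc]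
      exact hdeg
    obtain ⟨a, b, c, ha, hb, hc, hab, hac, hbc⟩ := Finset.two_lt_card_iff.1 h3
    rw [Multiset.mem_toFinset] at ha hb hc
    obtain ⟨p1, p1X, p1C⟩ := fibre_hom φ hφ q Q h hJ a (hroot a ha)
    obtain ⟨p2, p2X, p2C⟩ := fibre_hom φ hφ q Q h hJ b (hroot b hb)
    obtain ⟨p3, p3X, p3C⟩ := fibre_hom φ hφ q Q h hJ c (hroot c hc)
    refine h1 Ω p1 p2 p3 ?_ ?_ ?_ ?_ ?_
    · rwa [p1X, p2X]
    · rwa [p2X, p3X]
    · rwa [p1X, p3X]
    · intro ρ
      rw [p1C, p2C]
    · intro ρ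
      rw [p2C, p3C]
  · -- a double root
    rw [Multiset.nodup_iff_count_le_one] at hnd
    push Not at hnd
    obtain ⟨t, ht⟩ := hnd
    rw [hs, Polynomial.aroots, Polynomial.count_roots] at ht
    have hm0 : h.map (algebraMap (MvPolynomial (Fin N) k ⧸ q) Ω) ≠ 0 := by
      rwa [Ne, Polynomial.map_eq_zero]
    rw [Polynomial.one_lt_rootMultiplicity_iff_isRoot hm0] at ht
    have e1 : aeval t h = 0 := by
      rw [Polynomial.aeval_def, ← Polynomial.eval_map]
      exact ht.1
    have e2 : aeval t (derivative h) = 0 := by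
      rw [Polynomial.aeval_def, ← Polynomial.eval_map, ← Polynomial.derivative_map]
      exact ht.2
    set T : DualNumber Ω := TrivSqZeroExt.inl t + TrivSqZeroExt.inr 1 with hT
    have hin : ∀ f : (MvPolynomial (Fin N) k ⧸ q)[X],
        aeval (TrivSqZeroExt.inl t : DualNumber Ω) f = TrivSqZeroExt.inl (aeval t f) := by
      intro f
      exact Polynomial.aeval_algHom_apply
        (TrivSqZeroExt.inlAlgHom (MvPolynomial (Fin N) k ⧸ q) Ω Ω) t f
    have e3 : aeval T h = 0 := by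
      rw [hT, Polynomial.aeval_add_of_sq_eq_zero _ _ _ (by
        rw [pow_two, TrivSqZeroExt.inr_mul_inr]), hin, hin, e1, e2]
      simp
    obtain ⟨θ, hθX, hθC⟩ := fibre_hom φ hφ q Q h hJ T e3
    refine h2 Ω θ ?_ ?_
    · rw [hθX, hT]
      simp only [TrivSqZeroExt.snd_add, TrivSqZeroExt.snd_inl, TrivSqZeroExt.snd_inr, zero_add]
      exact one_ne_zero
    · intro ρ
      rw [hθC, TrivSqZeroExt.algebraMap_eq_inl']
      simp

theorem struct_two
    (φ : (MvPolynomial (Fin N) k)[X] →ₐ[k] MvPolynomial (Fin m) k) (hφ : Function.Surjective φ)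
    (h0 : ∃ h : (MvPolynomial (Fin N) k)[X], h.Monic ∧ φ h = 0)
    (h1 : ∀ (Ω : Type u) [Field Ω] [Algebra k Ω] (p q r : MvPolynomial (Fin m) k →ₐ[k] Ω),
      p (φ X) ≠ q (φ X) → q (φ X) ≠ r (φ X) → p (φ X) ≠ r (φ X) →
      (∀ ρ, p (φ (C ρ)) = q (φ (C ρ))) → (∀ ρ, q (φ (C ρ)) = r (φ (C ρ))) → False)
    (h2 : ∀ (Ω : Type u) [Field Ω] [Algebra k Ω] (θ : MvPolynomial (Fin m) k →ₐ[k] DualNumber Ω),
      TrivSqZeroExt.snd (θ (φ X)) ≠ 0 → (∀ ρ, TrivSqZeroExt.snd (θ (φ (C ρ))) = 0) → False) :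
    ∀ b, ∃ α β : MvPolynomial (Fin N) k, b = φ (C α) + φ (C β) * φ X := by
  obtain ⟨hm, hmon, hm0⟩ := h0
  let ψ : MvPolynomial (Fin N) k →+* MvPolynomial (Fin m) k :=
    (φ : (MvPolynomial (Fin N) k)[X] →+* MvPolynomial (Fin m) k).comp C
  let _ : Algebra (MvPolynomial (Fin N) k) (MvPolynomial (Fin m) k) := ψ.toAlgebra
  have hal : ∀ ρ, algebraMap (MvPolynomial (Fin N) k) (MvPolynomial (Fin m) k) ρ = φ (C ρ) :=
    fun ρ => rfl
  have hsm : ∀ (ρ : MvPolynomial (Fin N) k) (b : MvPolynomial (Fin m) k),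
      ρ • b = φ (C ρ) * b := fun ρ b => rfl
  -- finiteness
  have hfin : Module.Finite (MvPolynomial (Fin N) k) (MvPolynomial (Fin m) k) := by
    let L : (Fin hm.natDegree → MvPolynomial (Fin N) k) →ₗ[MvPolynomial (Fin N) k]
        MvPolynomial (Fin m) k :=
      { toFun := fun c => ∑ i, c i • φ X ^ (i : ℕ)
        map_add' := fun a b => by
          simp only [Pi.add_apply, add_smul, Finset.sum_add_distrib]
        map_smul' := fun c a => by
          simp only [Pi.smul_apply, smul_eq_mul, mul_smul, Finset.smul_sum, RingHom.id_apply] }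
    refine Module.Finite.of_surjective L ?_
    intro b
    obtain ⟨f, rfl⟩ := hφ b
    by_cases hd : hm.natDegree = 0
    · have : hm = 1 := Polynomial.eq_one_of_monic_natDegree_zero hmon hd
      rw [this, map_one] at hm0
      exact absurd hm0 one_ne_zero
    have hlt : (f %ₘ hm).natDegree < hm.natDegree := by
      refine Polynomial.natDegree_modByMonic_lt f hmon ?_
      intro h
      rw [h, natDegree_one] at hd
      exact hd rfl
    refine ⟨fun i => (f %ₘ hm).coeff i, ?_⟩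
    show ∑ i : Fin hm.natDegree, (f %ₘ hm).coeff i • φ X ^ (i : ℕ) = φ f
    have h3 : φ f = φ (f %ₘ hm) := by
      conv_lhs => rw [← Polynomial.modByMonic_add_div f hm]
      rw [map_add, map_mul, hm0, zero_mul, add_zero]
    rw [h3]
    conv_rhs => rw [Polynomial.as_sum_range' (f %ₘ hm) hm.natDegree hlt]
    rw [map_sum, Finset.sum_range]
    refine Finset.sum_congr rfl fun i _ => ?_
    rw [hsm, ← Polynomial.C_mul_X_pow_eq_monomial, map_mul, map_pow]
  -- fibres
  have key := two_gen (R := MvPolynomial (Fin N) k) (B := MvPolynomial (Fin m) k) (φ X) hfin ?_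
  · intro b
    exact key b
  intro q hq b
  let _ : Field (MvPolynomial (Fin N) k ⧸ q) := Ideal.Quotient.field q
  set Q : Ideal (MvPolynomial (Fin m) k) :=
    q.map (algebraMap (MvPolynomial (Fin N) k) (MvPolynomial (Fin m) k)) with hQ
  set π : (MvPolynomial (Fin N) k)[X] →ₐ[k] (MvPolynomial (Fin N) k ⧸ q)[X] :=
    Polynomial.mapAlgHom (Ideal.Quotient.mkₐ k q) with hπ
  have hπs : Function.Surjective π := Polynomial.map_surjective _ Ideal.Quotient.mk_surjective
  set J : Ideal (MvPolynomial (Fin N) k ⧸ q)[X] := Ideal.map π (Ideal.comap φ Q) with hJ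
  have hpr : Submodule.IsPrincipal J := IsPrincipalIdealRing.principal J
  set h := Submodule.IsPrincipal.generator J with hh
  have hJs : Ideal.span {h} = J := Ideal.span_singleton_generator J
  have hdvd : ∀ f, φ f ∈ Q → h ∣ π f := by
    intro f hf
    rw [← Ideal.mem_span_singleton, hJs]
    exact Ideal.mem_map_of_mem _ hf
  have hh0 : h ≠ 0 := by
    intro h0
    have h3 := hdvd hm (by rw [hm0]; exact Q.zero_mem)
    rw [h0, zero_dvd_iff] at h3
    have h4 : (π hm).Monic := hmon.map _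
    exact h4.ne_zero h3
  have hdeg := fibre_degree φ hφ h1 h2 q hq Q h hh0 hdvd
  obtain ⟨f, rfl⟩ := hφ b
  -- division with remainder
  have h5 : (π f % h).degree < h.degree := EuclideanDomain.mod_lt _ hh0
  have h6 : (π f % h).natDegree ≤ 1 := by
    rw [Polynomial.natDegree_le_iff_coeff_eq_zero]
    intro n hn
    refine Polynomial.coeff_eq_zero_of_degree_lt (lt_of_lt_of_le h5 ?_)
    rw [Polynomial.degree_eq_natDegree hh0]
    exact_mod_cast (by omega : h.natDegree ≤ n)
  obtain ⟨α, hα⟩ := Ideal.Quotient.mk_surjective ((π f % h).coeff 0)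
  obtain ⟨β, hβ⟩ := Ideal.Quotient.mk_surjective ((π f % h).coeff 1)
  refine ⟨α, β, ?_⟩
  rw [hal, hal]
  have h7 : π (f - (C α + C β * X)) ∈ J := by
    rw [← hJs, Ideal.mem_span_singleton]
    refine ⟨π f / h, ?_⟩
    have h8 : π f % h = π (C α + C β * X) := by
      conv_lhs => rw [Polynomial.eq_X_add_C_of_natDegree_le_one h6]
      rw [map_add, map_mul]
      rw [← hα, ← hβ]
      simp [hπ]
      ring
    rw [map_sub, ← h8]
    have h9 := EuclideanDomain.div_add_mod (π f) h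
    linear_combination -h9
  obtain ⟨f', hf', hff⟩ := (Ideal.mem_map_iff_of_surjective π hπs).1 h7
  have h10 : π (f - (C α + C β * X) - f') = 0 := by
    rw [map_sub, hff, sub_self]
  -- the kernel of π
  have h11 : ∀ F : (MvPolynomial (Fin N) k)[X], π F = 0 → φ F ∈ Q := by
    intro F hF
    rw [F.as_sum_support_C_mul_X_pow, map_sum]
    refine Ideal.sum_mem _ fun i _ => ?_
    rw [map_mul]
    refine Ideal.mul_mem_right _ _ ?_
    refine Ideal.mem_map_of_mem (algebraMap (MvPolynomial (Fin N) k) (MvPolynomial (Fin m) k)) ?_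
    rw [← Ideal.Quotient.eq_zero_iff_mem]
    have h12 : (π F).coeff i = Ideal.Quotient.mk q (F.coeff i) := Polynomial.coeff_map _ _
    rw [← h12, hF, coeff_zero]
  have h13 := Q.add_mem (h11 _ h10) (show φ f' ∈ Q from hf')
  rw [← map_add, sub_add_cancel, map_sub, map_add, map_mul] at h13
  exact h13

end main

end Pool.Agent.H71.AAE
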