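import Mathlib
import Pool.Agent.H71.AAE.Defs

/-! # AAE, module N: the conormal module of an epimorphism of polynomial rings -/

set_option autoImplicit false

open Polynomial

namespace Pool.Agent.H71.AAE

universe u

theorem pderiv_C_aux {k : Type u} [Field k] {n m : ℕ}
    (ψ : MvPolynomial (Fin n) k →ₐ[k] MvPolynomial (Fin m) k) (a : k) :
    ψ (MvPolynomial.C a) = MvPolynomial.C a := ψ.commutes a

/-- Chain rule. -/
theorem chain_rule {k : Type u} [Field k] {n m : ℕ}
    (ψ : MvPolynomial (Fin n) k →ₐ[k] MvPolynomial (Fin m) k) (h : MvPolynomial (Fin n) k)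
    (j : Fin m) : MvPolynomial.pderiv j (ψ h) =
      ∑ i, ψ (MvPolynomial.pderiv i h) * MvPolynomial.pderiv j (ψ (MvPolynomial.X i)) := by
  induction h using MvPolynomial.induction_on with
  | C a =>
    rw [pderiv_C_aux, MvPolynomial.pderiv_C]
    simp
  | add p q hp hq =>
    rw [map_add, map_add, hp, hq, ← Finset.sum_add_distrib]
    refine Finset.sum_congr rfl fun i _ => ?_
    rw [map_add, map_add, add_mul]
  | mul_X p l hp =>
    have h1 : ∀ i, ψ (MvPolynomial.pderiv i (p * MvPolynomial.X l)) =
        ψ (MvPolynomial.pderiv i p) * ψ (MvPolynomial.X l) +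
          (if i = l then ψ p else 0) := by
      intro i
      rw [MvPolynomial.pderiv_mul, map_add, map_mul, map_mul, MvPolynomial.pderiv_X]
      congr 1
      by_cases hil : i = l
      · subst hil
        simp
      · rw [if_neg hil, Pi.single_apply, if_neg (Ne.symm hil), map_zero, mul_zero]
    simp only [h1, add_mul, Finset.sum_add_distrib, ite_mul, zero_mul, Finset.sum_ite_eq',
      Finset.mem_univ, if_true]
    rw [map_mul, MvPolynomial.pderiv_mul, hp, Finset.sum_mul]
    congr 1
    refine Finset.sum_congr rfl fun i _ => by ring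

theorem grad_mem {k : Type u} [Field k] {n m : ℕ}
    (φ : MvPolynomial (Fin n) k →ₐ[k] MvPolynomial (Fin m) k) {h : MvPolynomial (Fin n) k}
    (hh : φ h = 0) : grad φ h ∈ conor φ := by
  intro j
  have := chain_rule φ h j
  rw [hh, map_zero] at this
  exact this.symm

section Sec

variable {k : Type u} [Field k] {n m : ℕ}
  (φ : MvPolynomial (Fin n) k →ₐ[k] MvPolynomial (Fin m) k)

theorem exists_section (hφ : Function.Surjective φ) :
    ∃ σ : MvPolynomial (Fin m) k →ₐ[k] MvPolynomial (Fin n) k, ∀ b, φ (σ b) = b := by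
  choose G hG using fun j => hφ (MvPolynomial.X j)
  refine ⟨MvPolynomial.aeval G, fun b => ?_⟩
  have : φ.comp (MvPolynomial.aeval G) = AlgHom.id k _ := by
    ext j
    simp [hG]
  exact DFunLike.congr_fun this b

variable {φ}

theorem taylor {σ : MvPolynomial (Fin m) k →ₐ[k] MvPolynomial (Fin n) k}
    (hσ : ∀ b, φ (σ b) = b) (h : MvPolynomial (Fin n) k) :
    h - σ (φ h) - ∑ i, σ (φ (MvPolynomial.pderiv i h)) *
      (MvPolynomial.X i - σ (φ (MvPolynomial.X i))) ∈ (RingHom.ker φ) ^ 2 := by
  induction h using MvPolynomial.induction_on with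
  | C a =>
    rw [pderiv_C_aux, pderiv_C_aux]
    simp
  | add p q hp hq =>
    have := Ideal.add_mem _ hp hq
    convert this using 1
    simp only [map_add, add_mul, Finset.sum_add_distrib]
    ring
  | mul_X p l hp =>
    have h1 : ∀ i, σ (φ (MvPolynomial.pderiv i (p * MvPolynomial.X l))) =
        σ (φ (MvPolynomial.pderiv i p)) * σ (φ (MvPolynomial.X l)) +
          (if i = l then σ (φ p) else 0) := by
      intro i
      rw [MvPolynomial.pderiv_mul, map_add, map_mul, map_mul, MvPolynomial.pderiv_X, map_add,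
        map_mul, map_mul]
      congr 1
      by_cases hil : i = l
      · subst hil
        simp
      · rw [if_neg hil, Pi.single_apply, if_neg (Ne.symm hil), map_zero, map_zero, mul_zero]
    simp only [h1, add_mul, Finset.sum_add_distrib, ite_mul, zero_mul, Finset.sum_ite_eq',
      Finset.mem_univ, if_true]
    have h2 : p * MvPolynomial.X l - σ (φ (p * MvPolynomial.X l)) -
        (∑ i, σ (φ (MvPolynomial.pderiv i p)) * σ (φ (MvPolynomial.X l)) *
          (MvPolynomial.X i - σ (φ (MvPolynomial.X i))) +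
          σ (φ p) * (MvPolynomial.X l - σ (φ (MvPolynomial.X l)))) =
        σ (φ (MvPolynomial.X l)) * (p - σ (φ p) - ∑ i, σ (φ (MvPolynomial.pderiv i p)) *
          (MvPolynomial.X i - σ (φ (MvPolynomial.X i)))) +
        (p - σ (φ p)) * (MvPolynomial.X l - σ (φ (MvPolynomial.X l))) := by
      rw [map_mul, map_mul, mul_sub (σ (φ (MvPolynomial.X l))), Finset.mul_sum]
      have h3 : ∑ i, σ (φ (MvPolynomial.pderiv i p)) * σ (φ (MvPolynomial.X l)) *
          (MvPolynomial.X i - σ (φ (MvPolynomial.X i))) =
          ∑ i, σ (φ (MvPolynomial.X l)) * (σ (φ (MvPolynomial.pderiv i p)) *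
          (MvPolynomial.X i - σ (φ (MvPolynomial.X i)))) :=
        Finset.sum_congr rfl fun i _ => by ring
      rw [h3]
      ring
    rw [h2]
    refine Ideal.add_mem _ (Ideal.mul_mem_left _ _ hp) ?_
    rw [pow_two]
    refine Ideal.mul_mem_mul ?_ ?_
    · rw [RingHom.mem_ker, map_sub, hσ, sub_self]
    · rw [RingHom.mem_ker, map_sub, hσ, sub_self]

end Sec

theorem grad_ker {k : Type u} [Field k] {n m : ℕ}
    (φ : MvPolynomial (Fin n) k →ₐ[k] MvPolynomial (Fin m) k) (hφ : Function.Surjective φ)
    {h : MvPolynomial (Fin n) k} (hh : φ h = 0) (h0 : grad φ h = 0) :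
    h ∈ (RingHom.ker φ) ^ 2 := by
  obtain ⟨σ, hσ⟩ := exists_section φ hφ
  have h1 := taylor hσ h
  have h2 : ∀ i, φ (MvPolynomial.pderiv i h) = 0 := fun i => congrFun h0 i
  simpa [hh, h2] using h1

theorem grad_surj {k : Type u} [Field k] {n m : ℕ}
    (φ : MvPolynomial (Fin n) k →ₐ[k] MvPolynomial (Fin m) k) (hφ : Function.Surjective φ)
    {x : Fin n → MvPolynomial (Fin m) k} (hx : x ∈ conor φ) :
    ∃ h, φ h = 0 ∧ grad φ h = x := by
  obtain ⟨σ, hσ⟩ := exists_section φ hφ
  have h1 : ∀ i, φ (MvPolynomial.X i - σ (φ (MvPolynomial.X i))) = 0 := by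
    intro i
    rw [map_sub, hσ, sub_self]
  refine ⟨∑ i, σ (x i) * (MvPolynomial.X i - σ (φ (MvPolynomial.X i))), ?_, ?_⟩
  · rw [map_sum]
    refine Finset.sum_eq_zero fun i _ => ?_
    rw [map_mul, h1, mul_zero]
  · ext1 l
    show φ (MvPolynomial.pderiv l (∑ i, σ (x i) * (MvPolynomial.X i -
      σ (φ (MvPolynomial.X i))))) = x l
    rw [map_sum, map_sum]
    have h2 : ∀ i, φ (MvPolynomial.pderiv l (σ (x i) * (MvPolynomial.X i -
        σ (φ (MvPolynomial.X i))))) = (if i = l then x i else 0) -
        ∑ j, (x i * MvPolynomial.pderiv j (φ (MvPolynomial.X i))) *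
          φ (MvPolynomial.pderiv l (σ (MvPolynomial.X j))) := by
      intro i
      rw [MvPolynomial.pderiv_mul, map_add, map_mul, h1, mul_zero, zero_add, map_mul, hσ,
        map_sub, MvPolynomial.pderiv_X, chain_rule σ, map_sub, map_sum, mul_sub]
      congr 1
      · by_cases hil : i = l
        · subst hil
          simp
        · rw [if_neg hil, Pi.single_eq_of_ne hil, map_zero, mul_zero]
      · rw [Finset.mul_sum]
        refine Finset.sum_congr rfl fun j _ => ?_
        rw [map_mul, hσ]
        ring
    simp only [h2, Finset.sum_sub_distrib, Finset.sum_ite_eq', Finset.mem_univ, if_true]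
    rw [Finset.sum_comm]
    simp only [← Finset.sum_mul]
    have h3 : ∀ j, ∑ i, x i * MvPolynomial.pderiv j (φ (MvPolynomial.X i)) = 0 := hx
    simp [h3]

theorem conor_split {k : Type u} [Field k] {n m : ℕ}
    (φ : MvPolynomial (Fin n) k →ₐ[k] MvPolynomial (Fin m) k) (hφ : Function.Surjective φ) :
    Nonempty ((conor φ × (Fin m → MvPolynomial (Fin m) k)) ≃ₗ[MvPolynomial (Fin m) k]
      (Fin n → MvPolynomial (Fin m) k)) := by
  obtain ⟨σ, hσ⟩ := exists_section φ hφ
  let δ : (Fin n → MvPolynomial (Fin m) k) →ₗ[MvPolynomial (Fin m) k]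
      (Fin m → MvPolynomial (Fin m) k) :=
    { toFun := fun x j => ∑ i, x i * MvPolynomial.pderiv j (φ (MvPolynomial.X i))
      map_add' := by
        intro x y
        ext1 j
        simp [add_mul, Finset.sum_add_distrib]
      map_smul' := by
        intro c x
        ext1 j
        simp [mul_assoc, Finset.mul_sum] }
  let ε : (Fin m → MvPolynomial (Fin m) k) →ₗ[MvPolynomial (Fin m) k]
      (Fin n → MvPolynomial (Fin m) k) :=
    { toFun := fun y i => ∑ j, y j * φ (MvPolynomial.pderiv i (σ (MvPolynomial.X j)))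
      map_add' := by
        intro x y
        ext1 j
        simp [add_mul, Finset.sum_add_distrib]
      map_smul' := by
        intro c x
        ext1 j
        simp [mul_assoc, Finset.mul_sum] }
  have hδε : ∀ y, δ (ε y) = y := by
    intro y
    ext1 j
    show ∑ i, (∑ l, y l * φ (MvPolynomial.pderiv i (σ (MvPolynomial.X l)))) *
      MvPolynomial.pderiv j (φ (MvPolynomial.X i)) = y j
    simp only [Finset.sum_mul]
    rw [Finset.sum_comm]
    have h1 : ∀ l, ∑ i, y l * φ (MvPolynomial.pderiv i (σ (MvPolynomial.X l))) *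
        MvPolynomial.pderiv j (φ (MvPolynomial.X i)) = if l = j then y l else 0 := by
      intro l
      have h2 := chain_rule φ (σ (MvPolynomial.X l)) j
      rw [hσ, MvPolynomial.pderiv_X] at h2
      simp only [mul_assoc, ← Finset.mul_sum]
      rw [← h2]
      by_cases hlj : l = j
      · subst hlj
        simp
      · rw [if_neg hlj, Pi.single_eq_of_ne hlj, mul_zero]
    simp [h1]
  have hmem : ∀ x, x ∈ conor φ ↔ δ x = 0 := by
    intro x
    constructor
    · intro h
      ext1 j
      exact h j
    · intro h j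
      exact congrFun h j
  exact ⟨{
    toFun := fun z => z.1.1 + ε z.2
    map_add' := by
      intro a b
      simp only [Prod.fst_add, Prod.snd_add, Submodule.coe_add, map_add]
      abel
    map_smul' := by
      intro c a
      simp
    invFun := fun x => (⟨x - ε (δ x), by rw [hmem, map_sub, hδε, sub_self]⟩, δ x)
    left_inv := by
      intro z
      have h1 : δ (z.1.1 + ε z.2) = z.2 := by
        rw [map_add, hδε, (hmem _).1 z.1.2, zero_add]
      ext1
      · apply Subtype.ext
        show z.1.1 + ε z.2 - ε (δ (z.1.1 + ε z.2)) = z.1.1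
        rw [h1]
        abel
      · exact h1
    right_inv := by
      intro x
      show x - ε (δ x) + ε (δ x) = x
      abel }⟩

end Pool.Agent.H71.AAE
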