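import Mathlib
import Pool.Agent.H71.AAE.Defs
import Pool.Agent.H71.AAE.E

/-! Project AAE (MP_ae801b_ag), module H, part 1: local Horrocks theorem. -/

set_option autoImplicit false

open Polynomial

namespace Pool.Agent.H71.AAE

universe u

section gen

variable {ι : Type} [Fintype ι] [DecidableEq ι] {Λ : Type u} [CommRing Λ]

theorem Red.refl (v : ι → Λ) : Red v v := ⟨1, IsElem.one, Matrix.one_mulVec v⟩

theorem Red.span_le {v w : ι → Λ} (h : Red v w) :
    Ideal.span (Set.range w) ≤ Ideal.span (Set.range v) := by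
  obtain ⟨A, hA, rfl⟩ := h
  rw [Ideal.span_le]
  rintro _ ⟨i, rfl⟩
  refine Ideal.sum_mem _ fun j _ => Ideal.mul_mem_left _ _ (Ideal.subset_span ⟨j, rfl⟩)

theorem Red.span_eq {v w : ι → Λ} (h : Red v w) :
    Ideal.span (Set.range w) = Ideal.span (Set.range v) :=
  le_antisymm h.span_le h.symm.span_le

theorem red_update (v : ι → Λ) {i j : ι} (h : i ≠ j) (c : Λ) {x : Λ} (hx : x = v i + c * v j) :
    Red v (Function.update v i x) := by
  rw [hx]
  exact red_add v h c

/-- adding an element of the ideal spanned by two other entries -/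
theorem red_update_two (v : ι → Λ) {i j l : ι} (h1 : l ≠ i) (h2 : l ≠ j) {g : Λ}
    (hg : g ∈ Ideal.span {v i, v j}) : Red v (Function.update v l (v l + g)) := by
  rw [Ideal.mem_span_pair] at hg
  obtain ⟨α, β, rfl⟩ := hg
  have r1 := red_add v h1 α
  have r2 := red_add (Function.update v l (v l + α * v i)) h2 β
  rw [Function.update_self, Function.update_of_ne h2.symm, Function.update_idem] at r2
  have := r1.trans r2
  rwa [add_assoc] at this

end gen

section coef

variable {O : Type u} [CommRing O]

theorem coef_lemma {f : O[X]} (hf : f.Monic) {e : ℕ} (he : f.natDegree = e + 1) (K : Ideal O[X])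
    (hK : f ∈ K) (k : ℕ) : ∀ w ∈ K, w.natDegree ≤ e → k ≤ e →
      ∃ g ∈ K, g.natDegree ≤ e ∧ g.coeff e = w.coeff (e - k) := by
  induction k with
  | zero =>
    intro w hw hd _
    exact ⟨w, hw, hd, by rw [Nat.sub_zero]⟩
  | succ k ih =>
    intro w hw hd hk
    have h1 : X * w - C (w.coeff e) * f ∈ K :=
      K.sub_mem (K.mul_mem_left _ hw) (K.mul_mem_left _ hK)
    have h2 : (X * w - C (w.coeff e) * f).natDegree ≤ e := by
      rw [Polynomial.natDegree_le_iff_coeff_eq_zero]
      intro N hN
      obtain ⟨N, rfl⟩ : ∃ M, N = M + 1 := ⟨N - 1, by omega⟩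
      rw [coeff_sub, coeff_X_mul, coeff_C_mul]
      rcases Nat.lt_or_ge e N with h | h
      · have h3 : w.coeff N = 0 := coeff_eq_zero_of_natDegree_lt (lt_of_le_of_lt hd h)
        have h4 : f.coeff (N + 1) = 0 := coeff_eq_zero_of_natDegree_lt (by omega)
        rw [h3, h4, mul_zero, sub_zero]
      · have h5 : N = e := by omega
        subst h5
        have h6 : f.coeff (N + 1) = 1 := by
          rw [← he]
          exact hf
        rw [h6, mul_one, sub_self]
    obtain ⟨g, hg, hgd, hge⟩ := ih _ h1 h2 (by omega)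
    refine ⟨g + C (f.coeff (e - k)) * w, K.add_mem hg (K.mul_mem_left _ hw), ?_, ?_⟩
    · refine (natDegree_add_le _ _).trans (max_le hgd ?_)
      exact (natDegree_C_mul_le _ _).trans hd
    · rw [coeff_add, hge, coeff_sub, coeff_C_mul, coeff_C_mul]
      obtain ⟨N, hN⟩ : ∃ M, e - k = M + 1 := ⟨e - k - 1, by omega⟩
      have hN' : e - (k + 1) = N := by omega
      rw [hN, hN', coeff_X_mul]
      ring

end coef

section horrocks

variable {O : Type u} [CommRing O] [IsLocalRing O]

theorem exists_third {r : ℕ} (i j : Fin (r + 3)) : ∃ l, l ≠ i ∧ l ≠ j := by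
  have h : ({i, j} : Finset (Fin (r + 3))) ≠ Finset.univ := by
    intro h
    have h1 := congrArg Finset.card h
    rw [Finset.card_univ, Fintype.card_fin] at h1
    have h2 := Finset.card_le_two (a := i) (b := j)
    omega
  obtain ⟨l, hl⟩ : ∃ l, l ∉ ({i, j} : Finset (Fin (r + 3))) := by
    by_contra hc
    push Not at hc
    exact h (Finset.eq_univ_of_forall hc)
  simp only [Finset.mem_insert, Finset.mem_singleton, not_or] at hl
  exact ⟨l, hl.1, hl.2⟩

theorem red_of_isUnit {r : ℕ} {Λ : Type u} [CommRing Λ] (v : Fin (r + 3) → Λ) (i : Fin (r + 3))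
    (h : IsUnit (v i)) : Red v (Pi.single 0 1) := by
  by_cases hi : i = 0
  · subst hi
    exact (red_unit (n := r + 1) v h).symm
  · obtain ⟨y, hy⟩ := h.exists_left_inv
    have r1 := red_update v (Ne.symm hi) ((1 - v 0) * y) (x := 1) (by
      rw [mul_assoc, hy]
      ring)
    refine r1.trans (red_unit (n := r + 1) _ ?_).symm
    rw [Function.update_self]
    exact isUnit_one

theorem horrocks_local {r : ℕ} (d : ℕ) : ∀ (v : Fin (r + 3) → O[X]) (i₀ : Fin (r + 3)),
    (v i₀).Monic → (v i₀).natDegree = d → Ideal.span (Set.range v) = ⊤ →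
      Red v (Pi.single 0 1) := by
  induction d with
  | zero =>
    intro v i₀ hm hd _
    refine red_of_isUnit v i₀ ?_
    rw [Polynomial.eq_one_of_monic_natDegree_zero hm hd]
    exact isUnit_one
  | succ e ih =>
    intro v i₀ hm hd hu
    -- reduce
    set v1 : Fin (r + 3) → O[X] := fun i => v i +
      (if i = i₀ then 0 else -(v i /ₘ v i₀)) * v i₀ with hv1
    have r1 : Red v v1 := red_col v i₀ (fun i => if i = i₀ then 0 else -(v i /ₘ v i₀))
      (if_pos rfl)
    have e0 : v1 i₀ = v i₀ := by
      rw [hv1]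
      simp
    have e1 : ∀ i, i ≠ i₀ → v1 i = v i %ₘ v i₀ := by
      intro i hi
      rw [hv1]
      simp only [if_neg hi]
      rw [Polynomial.modByMonic_eq_sub_mul_div]
      ring
    have d1 : ∀ i, i ≠ i₀ → (v1 i).natDegree ≤ e := by
      intro i hi
      rw [e1 i hi]
      have := Polynomial.natDegree_modByMonic_lt (v i) hm (by
        intro h
        rw [h, natDegree_one] at hd
        omega)
      omega
    have hu1 : Ideal.span (Set.range v1) = ⊤ := by rw [r1.span_eq, hu]
    -- some entry has a unit coefficient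
    obtain ⟨j, hj, k, hk⟩ : ∃ j, j ≠ i₀ ∧ ∃ k, IsUnit ((v1 j).coeff k) := by
      by_contra hcon
      push Not at hcon
      let π : O[X] →+* (O ⧸ IsLocalRing.maximalIdeal O)[X] :=
        Polynomial.mapRingHom (Ideal.Quotient.mk _)
      have h0 : ∀ j, j ≠ i₀ → π (v1 j) = 0 := by
        intro j hj
        ext k
        rw [Polynomial.coe_mapRingHom, Polynomial.coeff_map, Polynomial.coeff_zero,
          Ideal.Quotient.eq_zero_iff_mem, IsLocalRing.mem_maximalIdeal]
        exact hcon j hj k
      have h1 : Ideal.span (Set.range fun i => π (v1 i)) = ⊤ := by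
        have h2 : Ideal.map π (Ideal.span (Set.range v1)) = ⊤ := by
          rw [hu1, Ideal.map_top]
        rw [Ideal.map_span, ← Set.range_comp] at h2
        exact h2
      have h3 : Ideal.span (Set.range fun i => π (v1 i)) ≤ Ideal.span {π (v i₀)} := by
        rw [Ideal.span_le]
        rintro _ ⟨i, rfl⟩
        by_cases hi : i = i₀
        · subst hi
          rw [← e0]
          exact Ideal.subset_span rfl
        · show π (v1 i) ∈ _
          rw [h0 i hi]
          exact Ideal.zero_mem _
      rw [h1, top_le_iff, Ideal.span_singleton_eq_top] at h3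
      have h4 : (π (v i₀)).Monic := hm.map _
      have h5 := h4.eq_one_of_isUnit h3
      have h6 : (π (v i₀)).natDegree = (v i₀).natDegree := hm.natDegree_map _
      rw [h5, natDegree_one, hd] at h6
      omega
    have hke : k ≤ e := by
      by_contra hc
      rw [coeff_eq_zero_of_natDegree_lt (lt_of_le_of_lt (d1 j hj) (not_le.1 hc))] at hk
      exact not_isUnit_zero hk
    obtain ⟨g, hgK, hgd, hge⟩ := coef_lemma hm hd (Ideal.span {v1 i₀, v1 j})
      (Ideal.subset_span (by rw [e0]; exact Set.mem_insert _ _)) (e - k) (v1 j)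
      (Ideal.subset_span (Set.mem_insert_of_mem _ rfl)) (d1 j hj) (by omega)
    rw [show e - (e - k) = k by omega] at hge
    obtain ⟨y, hy⟩ := hk.exists_left_inv
    obtain ⟨l, hl1, hl2⟩ := exists_third i₀ j
    have r2 := red_update_two v1 hl1 hl2 (g := C ((1 - (v1 l).coeff e) * y) * g)
      (Ideal.mul_mem_left _ _ hgK)
    set v2 := Function.update v1 l (v1 l + C ((1 - (v1 l).coeff e) * y) * g) with hv2
    have e2 : v2 l = v1 l + C ((1 - (v1 l).coeff e) * y) * g := by
      rw [hv2, Function.update_self]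
    have d2 : (v2 l).natDegree ≤ e := by
      rw [e2]
      exact (natDegree_add_le _ _).trans (max_le (d1 l hl1) ((natDegree_C_mul_le _ _).trans hgd))
    have c2 : (v2 l).coeff e = 1 := by
      rw [e2, coeff_add, coeff_C_mul, hge, mul_assoc, hy]
      ring
    have m2 : (v2 l).Monic := Polynomial.monic_of_natDegree_le_of_coeff_eq_one e d2 c2
    have n2 : (v2 l).natDegree = e := by
      refine le_antisymm d2 ?_
      refine Polynomial.le_natDegree_of_ne_zero ?_
      rw [c2]
      exact one_ne_zero
    refine (r1.trans r2).trans (ih v2 l m2 n2 ?_)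
    rw [r2.span_eq, hu1]

theorem horrocks_unit {r : ℕ} (v : Fin (r + 3) → O[X]) (i₀ : Fin (r + 3))
    (hm : IsUnit (v i₀).leadingCoeff) (hu : Ideal.span (Set.range v) = ⊤) :
      Red v (Pi.single 0 1) := by
  obtain ⟨y, hy⟩ := hm.exists_left_inv
  have hm1 : (C y * v i₀).Monic := by
    rw [Polynomial.Monic, Polynomial.leadingCoeff, ]
    have h1 : (C y * v i₀).natDegree = (v i₀).natDegree := by
      refine le_antisymm (natDegree_C_mul_le _ _) ?_
      refine Polynomial.le_natDegree_of_ne_zero ?_
      rw [coeff_C_mul, Polynomial.coeff_natDegree, hy]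
      exact one_ne_zero
    rw [h1, coeff_C_mul, Polynomial.coeff_natDegree, hy]
  obtain ⟨l, hl, _⟩ := exists_third i₀ i₀
  have e1 : v l %ₘ (C y * v i₀) + (C y * v i₀) =
      v l + ((1 - (v l /ₘ (C y * v i₀))) * C y) * v i₀ := by
    rw [Polynomial.modByMonic_eq_sub_mul_div]
    ring
  have r1 := red_update v hl ((1 - (v l /ₘ (C y * v i₀))) * C y) e1
  refine r1.trans (horrocks_local _ _ l ?_ rfl ?_)
  · rw [Function.update_self]
    by_cases h0 : (C y * v i₀) = 1
    · rw [h0, Polynomial.modByMonic_one, zero_add]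
      exact monic_one
    · rw [add_comm]
      exact hm1.add_of_left (Polynomial.degree_modByMonic_lt _ hm1)
  · rw [r1.span_eq, hu]

end horrocks

end Pool.Agent.H71.AAE
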