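import Mathlib
import Pool.Agent.H71.AAE.Defs
import Pool.Agent.H71.AAE.E
import Pool.Agent.H71.AAE.H1
import Pool.Agent.H71.AAE.H2

/-! Project AAE (MP_ae801b_ag), module H, part 3: unimodular rows with a monic entry. -/

set_option autoImplicit false

open Polynomial

namespace Pool.Agent.H71.AAE

universe u

section iso

variable {ι : Type} [Fintype ι] [DecidableEq ι] {A : Type u} [CommRing A]

/-- isotopy of rows -/
def Iso (v w : ι → A) : Prop :=
  ∃ G : (Matrix ι ι A[X])ˣ, mapU (A := A[X]) (B := A) (evalRingHom 0) G = 1 ∧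
    Tr (A := A) v w (mapU (A := A[X]) (B := A) (evalRingHom 1) G)

theorem Iso.trans {v w x : ι → A} (h1 : Iso v w) (h2 : Iso w x) : Iso v x := by
  obtain ⟨G, g1, g2⟩ := h1
  obtain ⟨H, k1, k2⟩ := h2
  refine ⟨G * H, ?_, ?_⟩
  · rw [map_mul, g1, k1, one_mul]
  · rw [map_mul]
    exact g2.mul k2

theorem iso_of_isElem {P : Matrix ι ι A} (hP : IsElem P) :
    ∃ G : (Matrix ι ι A[X])ˣ, mapU (A := A[X]) (B := A) (evalRingHom 0) G = 1 ∧
      ((mapU (A := A[X]) (B := A) (evalRingHom 1) G : (Matrix ι ι A)ˣ) : Matrix ι ι A) = P := by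
  refine IsElem.induct (p := fun P => ∃ G : (Matrix ι ι A[X])ˣ,
      mapU (A := A[X]) (B := A) (evalRingHom 0) G = 1 ∧
      ((mapU (A := A[X]) (B := A) (evalRingHom 1) G : (Matrix ι ι A)ˣ) : Matrix ι ι A) = P)
      ?_ ?_ ?_ hP
  · exact ⟨1, map_one _, by rw [map_one, Units.val_one]⟩
  · rintro P Q ⟨G, g1, g2⟩ ⟨H, k1, k2⟩
    exact ⟨G * H, by rw [map_mul, g1, k1, one_mul], by rw [map_mul, Units.val_mul, g2, k2]⟩
  · intro i j c hij
    refine ⟨⟨Matrix.transvection i j (C c * X), Matrix.transvection i j (-(C c * X)), ?_, ?_⟩,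
      ?_, ?_⟩
    · rw [Matrix.transvection_mul_transvection_same _ _ hij, add_neg_cancel,
        Matrix.transvection_zero]
    · rw [Matrix.transvection_mul_transvection_same _ _ hij, neg_add_cancel,
        Matrix.transvection_zero]
    · apply Units.ext
      rw [coe_mapU, Units.val_one]
      show (1 + Matrix.single i j (C c * X)).map (evalRingHom (0 : A)) = 1
      rw [Matrix.map_add _ (map_add _),
        Matrix.map_one _ (map_zero _) (map_one _), Matrix.map_single]
      simp
    · rw [coe_mapU]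
      show (1 + Matrix.single i j (C c * X)).map (evalRingHom (1 : A)) = _
      rw [Matrix.map_add _ (map_add _),
        Matrix.map_one _ (map_zero _) (map_one _), Matrix.map_single, Matrix.transvection]
      simp

theorem Red.iso {v w : ι → A} (h : Red v w) : Iso v w := by
  obtain ⟨P, hP, rfl⟩ := h
  obtain ⟨G, g1, g2⟩ := iso_of_isElem hP.transpose
  refine ⟨G, g1, ?_⟩
  rw [Tr, g2, Matrix.vecMul_transpose]

theorem Red.tr {v w : ι → A} (h : Red v w) : ∃ G : (Matrix ι ι A)ˣ, Tr v w G := by
  obtain ⟨P, hP, rfl⟩ := h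
  obtain ⟨Q, hQ, h1, h2⟩ := hP.exists_inv
  refine ⟨⟨P.transpose, Q.transpose, ?_, ?_⟩, ?_⟩
  · rw [← Matrix.transpose_mul, h2, Matrix.transpose_one]
  · rw [← Matrix.transpose_mul, h1, Matrix.transpose_one]
  · rw [Tr]
    exact Matrix.vecMul_transpose _ _

end iso

section rho

variable {A : Type u} [CommRing A]

/-- the substitution `X ↦ 1, Y ↦ Y (T - 1)` -/
noncomputable def rhoA : A[X][X] →+* A[X][X] :=
  eval₂RingHom (eval₂RingHom (C.comp C) 1) (X * C (X - 1))

/-- the substitution `X ↦ 0, Y ↦ Y` -/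
noncomputable def rhoB : A[X][X] →+* A[X][X] :=
  eval₂RingHom (eval₂RingHom (C.comp C) 0) X

theorem ev0_rhoA : (evalRingHom (0 : A[X])).comp rhoA =
    (eval₂RingHom C 1 : A[X] →+* A[X]).comp (evalRingHom (0 : A[X])) := by
  apply Polynomial.ringHom_ext
  · intro a
    have : ((evalRingHom (0 : A[X])).comp rhoA).comp C =
        ((eval₂RingHom C 1 : A[X] →+* A[X]).comp (evalRingHom (0 : A[X]))).comp C := by
      apply Polynomial.ringHom_ext
      · intro b
        simp [rhoA]
      · simp [rhoA]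
    exact congrArg (fun g => g a) this
  · simp [rhoA]

theorem ev0_rhoB : (evalRingHom (0 : A[X])).comp rhoB =
    (eval₂RingHom C 0 : A[X] →+* A[X]).comp (evalRingHom (0 : A[X])) := by
  apply Polynomial.ringHom_ext
  · intro a
    have : ((evalRingHom (0 : A[X])).comp rhoB).comp C =
        ((eval₂RingHom C 0 : A[X] →+* A[X]).comp (evalRingHom (0 : A[X]))).comp C := by
      apply Polynomial.ringHom_ext
      · intro b
        simp [rhoB]
      · simp [rhoB]
    exact congrArg (fun g => g a) this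
  · simp [rhoB]

theorem ev1_rhoA_subα (f : A[X]) : evalRingHom (1 : A[X]) (rhoA (subα 1 f)) = f := by
  have : ((evalRingHom (1 : A[X])).comp rhoA).comp (subα 1) = RingHom.id _ := by
    apply Polynomial.ringHom_ext
    · intro b
      simp [rhoA]
    · simp [rhoA]
  exact congrArg (fun g => g f) this

theorem ev1_rhoA_C (f : A[X]) : evalRingHom (1 : A[X]) (rhoA (C f)) = C (f.eval 1) := by
  have : ((evalRingHom (1 : A[X])).comp rhoA).comp C = (C : A →+* A[X]).comp (evalRingHom 1) := by
    apply Polynomial.ringHom_ext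
    · intro b
      simp [rhoA]
    · simp [rhoA]
  exact congrArg (fun g => g f) this

theorem ev1_rhoB_subα (f : A[X]) : evalRingHom (1 : A[X]) (rhoB (subα 1 f)) = C (f.eval 1) := by
  have : ((evalRingHom (1 : A[X])).comp rhoB).comp (subα 1) =
      (C : A →+* A[X]).comp (evalRingHom 1) := by
    apply Polynomial.ringHom_ext
    · intro b
      simp [rhoB]
    · simp [rhoB]
  exact congrArg (fun g => g f) this

theorem ev1_rhoB_C (f : A[X]) : evalRingHom (1 : A[X]) (rhoB (C f)) = C (f.eval 0) := by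
  have : ((evalRingHom (1 : A[X])).comp rhoB).comp C = (C : A →+* A[X]).comp (evalRingHom 0) := by
    apply Polynomial.ringHom_ext
    · intro b
      simp [rhoB]
    · simp [rhoB]
  exact congrArg (fun g => g f) this

end rho

section main

variable {A : Type u} [CommRing A] [IsDomain A] {r : ℕ}

theorem hloc (v : Fin (r + 3) → A[X])
    (h : ∀ (q : Ideal A) [q.IsMaximal], ∃ i,
      IsUnit (mapRingHom (algebraMap A (Localization.AtPrime q)) (v i)).leadingCoeff)
    (hu : Ideal.span (Set.range v) = ⊤) :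
    ∃ G : (Matrix (Fin (r + 3)) (Fin (r + 3)) A[X][X])ˣ,
      mapU (A := A[X][X]) (B := A[X]) (evalRingHom 0) G = 1 ∧
      Tr (A := A[X][X]) (fun i => subα 1 (v i)) (fun i => C (v i)) G := by
  refine vaserstein v ?_
  intro q hq
  obtain ⟨i₀, hi⟩ := h q
  have h1 : Red (fun i => mapRingHom (algebraMap A (Localization.AtPrime q)) (v i))
      (Pi.single 0 1) := by
    refine horrocks_unit _ i₀ hi ?_
    have h2 : Ideal.map (mapRingHom (algebraMap A (Localization.AtPrime q)))
        (Ideal.span (Set.range v)) = ⊤ := by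
      rw [hu, Ideal.map_top]
    rw [Ideal.map_span, ← Set.range_comp] at h2
    exact h2
  obtain ⟨σ, hσ⟩ := h1.tr
  refine ⟨σ, Pi.single 0 1, ?_⟩
  have h3 : (fun i => C ((Pi.single 0 1 : Fin (r + 3) → Localization.AtPrime q) i)) =
      (Pi.single 0 1 : Fin (r + 3) → (Localization.AtPrime q)[X]) := by
    ext1 i
    by_cases hi : i = 0
    · subst hi
      rw [Pi.single_eq_same, Pi.single_eq_same, C_1]
    · rw [Pi.single_eq_of_ne hi, Pi.single_eq_of_ne hi, C_0]
  rw [h3]
  exact hσ

theorem iso_const (v : Fin (r + 3) → A[X])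
    (h : ∀ (q : Ideal A) [q.IsMaximal], ∃ i,
      IsUnit (mapRingHom (algebraMap A (Localization.AtPrime q)) (v i)).leadingCoeff)
    (hu : Ideal.span (Set.range v) = ⊤) :
    Iso v (fun i => C ((v i).eval 1)) ∧
      Iso (A := A[X]) (fun i => C ((v i).eval 1)) (fun i => C ((v i).eval 0)) := by
  obtain ⟨G, h1, h2⟩ := hloc v h hu
  constructor
  · refine ⟨mapU (A := A[X][X]) (B := A[X][X]) rhoA G, ?_, ?_⟩
    · rw [mapU_comp, ev0_rhoA, ← mapU_comp, h1, map_one]
    · have h3 := (h2.map (B := A[X][X]) rhoA).map (B := A[X]) (evalRingHom 1)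
      simp only [ev1_rhoA_subα, ev1_rhoA_C] at h3
      exact h3
  · refine ⟨mapU (A := A[X][X]) (B := A[X][X]) rhoB G, ?_, ?_⟩
    · rw [mapU_comp, ev0_rhoB, ← mapU_comp, h1, map_one]
    · have h3 := (h2.map (B := A[X][X]) rhoB).map (B := A[X]) (evalRingHom 1)
      simp only [ev1_rhoB_subα, ev1_rhoB_C] at h3
      exact h3

theorem iso_monic (v : Fin (r + 3) → A[X]) (i₀ : Fin (r + 3)) (hm : (v i₀).Monic)
    (hu : Ideal.span (Set.range v) = ⊤) : Iso v (Pi.single 0 1) := by
  set v1 : Fin (r + 3) → A[X] := fun i => v i +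
    (if i = i₀ then 0 else -(v i /ₘ v i₀)) * v i₀ with hv1
  have r1 : Red v v1 := red_col v i₀ (fun i => if i = i₀ then 0 else -(v i /ₘ v i₀))
    (if_pos rfl)
  have e0 : v1 i₀ = v i₀ := by
    rw [hv1]
    simp
  have e1 : ∀ i, i ≠ i₀ → v1 i = v i %ₘ v i₀ := by
    intro i hi
    rw [hv1]
    simp only [if_neg hi]
    rw [Polynomial.modByMonic_eq_sub_mul_div]
    ring
  set d := (v i₀).natDegree with hd
  have d1 : ∀ i, i ≠ i₀ → (v1 i).natDegree ≤ d ∧ (v1 i).coeff d = 0 := by
    intro i hi
    rw [e1 i hi]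
    have h1 := Polynomial.degree_modByMonic_lt (v i) hm
    have h2 : (v i₀).degree = d := Polynomial.degree_eq_natDegree hm.ne_zero
    rw [h2] at h1
    exact ⟨Polynomial.natDegree_le_of_degree_le h1.le,
      Polynomial.coeff_eq_zero_of_degree_lt h1⟩
  have d2 : ∀ i, (v1 i).natDegree ≤ d := by
    intro i
    by_cases hi : i = i₀
    · subst hi
      rw [e0]
    · exact (d1 i hi).1
  have hu1 : Ideal.span (Set.range v1) = ⊤ := by rw [r1.span_eq, hu]
  have s1 := (iso_const v1 (fun q _ => ⟨i₀, by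
    rw [e0]
    have : (mapRingHom (algebraMap A (Localization.AtPrime q)) (v i₀)).leadingCoeff = 1 :=
      hm.map _
    rw [this]
    exact isUnit_one⟩) hu1).1
  -- the row at infinity
  set w : Fin (r + 3) → A[X] := fun i => (v1 i).reflect d with hw
  have w1 : ∀ i, (w i).eval 1 = (v1 i).eval 1 := by
    intro i
    haveI : Invertible (1 : A) := invertibleOne
    have h1 := Polynomial.eval₂_reflect_mul_pow (RingHom.id A) (1 : A) d (v1 i) (d2 i)
    rw [invOf_one, one_pow, mul_one] at h1
    exact h1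
  have w0 : ∀ i, (w i).eval 0 = (Pi.single i₀ 1 : Fin (r + 3) → A) i := by
    intro i
    rw [← Polynomial.coeff_zero_eq_eval_zero, hw]
    show ((v1 i).reflect d).coeff 0 = _
    rw [Polynomial.coeff_reflect, Polynomial.revAt_le (Nat.zero_le d), Nat.sub_zero]
    by_cases hi : i = i₀
    · subst hi
      rw [e0, Pi.single_eq_same]
      exact hm
    · rw [(d1 i hi).2, Pi.single_eq_of_ne hi]
  have wu : Ideal.span (Set.range w) = ⊤ := by
    have h1 : (1 : A[X]) ∈ Ideal.span (Set.range v1) := by rw [hu1]; exact Submodule.mem_top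
    rw [Ideal.mem_span_range_iff_exists_fun] at h1
    obtain ⟨a, ha⟩ := h1
    set N := Finset.univ.sup fun i => (a i).natDegree with hN
    have h2 : ∀ i, (a i).natDegree ≤ N := fun i =>
      Finset.le_sup (f := fun i => (a i).natDegree) (Finset.mem_univ i)
    have h3 : (X : A[X]) ^ (N + d) ∈ Ideal.span (Set.range w) := by
      have h4 : (X : A[X]) ^ (N + d) = ∑ i, (a i).reflect N * w i := by
        have h5 : (1 : A[X]).reflect (N + d) = X ^ (N + d) := by
          rw [← C_1, Polynomial.reflect_C, C_1, one_mul]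
        rw [← h5, ← ha]
        ext k
        rw [Polynomial.coeff_reflect, Polynomial.finsetSum_coeff, Polynomial.finsetSum_coeff]
        refine Finset.sum_congr rfl fun i _ => ?_
        rw [← Polynomial.coeff_reflect, Polynomial.reflect_mul _ _ (h2 i) (d2 i)]
      rw [h4]
      exact Ideal.sum_mem _ fun i _ => Ideal.mul_mem_left _ _ (Ideal.subset_span ⟨i, rfl⟩)
    have h6 : IsCoprime (X : A[X]) (w i₀) := by
      have h7 := w0 i₀
      rw [Pi.single_eq_same, ← Polynomial.coeff_zero_eq_eval_zero] at h7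
      refine ⟨-(divX (w i₀)), 1, ?_⟩
      have := Polynomial.X_mul_divX_add (w i₀)
      rw [h7, C_1] at this
      linear_combination (-1 : A[X]) * this
    have h8 : IsCoprime ((X : A[X]) ^ (N + d)) (w i₀) := h6.pow_left
    obtain ⟨α, β, hαβ⟩ := h8
    rw [Ideal.eq_top_iff_one, ← hαβ]
    exact Ideal.add_mem _ (Ideal.mul_mem_left _ _ h3)
      (Ideal.mul_mem_left _ _ (Ideal.subset_span ⟨i₀, rfl⟩))
  have s2 := (iso_const w (fun q hq => by
    -- some constant term of v1 is not in q
    obtain ⟨i, hi⟩ : ∃ i, (v1 i).eval 0 ∉ q := by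
      by_contra hcon
      push Not at hcon
      have h1 : Ideal.map (evalRingHom (0 : A)) (Ideal.span (Set.range v1)) ≤ q := by
        rw [Ideal.map_le_iff_le_comap, Ideal.span_le]
        rintro _ ⟨i, rfl⟩
        exact hcon i
      rw [hu1, Ideal.map_top] at h1
      exact hq.ne_top (top_le_iff.1 h1)
    refine ⟨i, ?_⟩
    have hunit : IsUnit (algebraMap A (Localization.AtPrime q) ((v1 i).eval 0)) :=
      IsLocalization.map_units (Localization.AtPrime q) (⟨_, hi⟩ : q.primeCompl)
    have h2 : (mapRingHom (algebraMap A (Localization.AtPrime q)) (w i)).coeff d =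
        algebraMap A (Localization.AtPrime q) ((v1 i).eval 0) := by
      rw [Polynomial.coe_mapRingHom, Polynomial.coeff_map, hw]
      show algebraMap A (Localization.AtPrime q) (((v1 i).reflect d).coeff d) = _
      rw [Polynomial.coeff_reflect, Polynomial.revAt_le le_rfl, Nat.sub_self,
        Polynomial.coeff_zero_eq_eval_zero]
    have h3 : (mapRingHom (algebraMap A (Localization.AtPrime q)) (w i)).natDegree = d := by
      refine le_antisymm ?_ ?_
      · refine (Polynomial.natDegree_map_le).trans ?_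
        refine (Polynomial.natDegree_le_iff_coeff_eq_zero).2 fun k hk => ?_
        rw [hw]
        show ((v1 i).reflect d).coeff k = 0
        rw [Polynomial.coeff_reflect, Polynomial.revAt_eq_self_of_lt hk]
        exact coeff_eq_zero_of_natDegree_lt (lt_of_le_of_lt (d2 i) hk)
      · refine Polynomial.le_natDegree_of_ne_zero ?_
        rw [h2]
        exact hunit.ne_zero
    rw [Polynomial.leadingCoeff, h3, h2]
    exact hunit) wu).2
  simp only [w1, w0] at s2
  have s3 : Iso (A := A[X]) (fun i => C ((Pi.single i₀ 1 : Fin (r + 3) → A) i))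
      (Pi.single 0 1) := by
    refine (red_of_isUnit _ i₀ ?_).iso
    rw [Pi.single_eq_same, C_1]
    exact isUnit_one
  exact ((r1.iso.trans s1).trans s2).trans s3

end main

/-- A unimodular row of length `≥ 3` over `C[X]` (`C` a domain) with a monic entry is carried to
`(1, 0, ..., 0)` by an invertible matrix which is isotopic to the identity: `G` has entries in
`C[X][Y]`, `G(Y = 0) = 1`, and `v * G(Y = 1) = (1, 0, ..., 0)`. -/
theorem monic_row {C : Type u} [CommRing C] [IsDomain C] {r : ℕ} (v : Fin (r + 3) → C[X])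
    (i₀ : Fin (r + 3)) (hmonic : (v i₀).Monic) (hu : Ideal.span (Set.range v) = ⊤) :
    ∃ G G' : Matrix (Fin (r + 3)) (Fin (r + 3)) C[X][X], G * G' = 1 ∧ G' * G = 1 ∧
      G.map (eval 0) = 1 ∧ Matrix.vecMul v (G.map (eval 1)) = Pi.single 0 1 := by
  obtain ⟨G, h1, h2⟩ := iso_monic v i₀ hmonic hu
  have h3 := congrArg Units.val h1
  rw [coe_mapU, Units.val_one] at h3
  rw [Tr, coe_mapU] at h2
  exact ⟨G.val, G.inv, G.val_inv, G.inv_val, h3, h2⟩

end Pool.Agent.H71.AAE
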