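import Mathlib
import Pool.Agent.H71.AAE.Defs
import Pool.Agent.H71.AAE.E
import Pool.Agent.H71.AAE.H1
import Pool.Agent.H71.AAE.H2
import Pool.Agent.H71.AAE.H3

/-! Project AAE (MP_ae801b_ag), module U: unimodular rows over polynomial rings.

The section `nagata` is copied from Mathlib's `Mathlib/RingTheory/NoetherNormalization.lean`
(Sihan Su, Riccardo Brasca, Wan Lin, Xiaoyang Su), where these lemmas are private. -/

set_option autoImplicit false

namespace Pool.Agent.H71.AAE

section nagata

open Polynomial MvPolynomial Ideal Nat RingHom List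

variable {k : Type*} [Field k] {n : ℕ} (f : MvPolynomial (Fin (n + 1)) k)
variable (v w : Fin (n + 1) →₀ ℕ)

variable {f v} in
theorem lt_up (vlt : ∀ i, v i < (2 + f.totalDegree)) : ∀ l ∈ ofFn v, l < (2 + f.totalDegree) := by
  grind

/-- We construct an algebra map `nT1 f c` which maps `X_i` into `X_i + c • X_0 ^ r_i` when `i ≠ 0`
and `X_0` to `X_0`. -/
noncomputable abbrev nT1 (c : k) :
    MvPolynomial (Fin (n + 1)) k →ₐ[k] MvPolynomial (Fin (n + 1)) k :=
  aeval fun i ↦ if i = 0 then X 0 else X i + c • X 0 ^ (fun (i : Fin (n + 1)) ↦ (2 + f.totalDegree) ^ i.1) i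

theorem t1_comp_t1_neg (c : k) : (nT1 f c).comp (nT1 f (-c)) = AlgHom.id _ _ := by
  rw [comp_aeval, ← MvPolynomial.aeval_X_left]
  ext i v
  cases i using Fin.cases <;> simp

/-- `nT1 f 1` leads to an algebra equiv `nT f`. -/
noncomputable abbrev nT := AlgEquiv.ofAlgHom (nT1 f 1) (nT1 f (-1))
  (t1_comp_t1_neg f 1) (by simpa using t1_comp_t1_neg f (-1))

theorem sum_r_mul_ne (vlt : ∀ i, v i < (2 + f.totalDegree)) (wlt : ∀ i, w i < (2 + f.totalDegree)) (ne : v ≠ w) :
    ∑ x : Fin (n + 1), (fun (i : Fin (n + 1)) ↦ (2 + f.totalDegree) ^ i.1) x * v x ≠ ∑ x : Fin (n + 1), (fun (i : Fin (n + 1)) ↦ (2 + f.totalDegree) ^ i.1) x * w x := by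
  intro h
  refine ne <| Finsupp.ext <| congrFun <| ofFn_inj.mp ?_
  apply ofDigits_inj_of_len_eq (Nat.lt_add_right f.totalDegree one_lt_two)
    (by simp) (lt_up vlt) (lt_up wlt)
  simpa only [ofDigits_eq_sum_mapIdx, mapIdx_eq_ofFn, get_ofFn, length_ofFn,
    Fin.val_cast, mul_comm, sum_ofFn] using! h

theorem degreeOf_zero_t {a : k} (ha : a ≠ 0) : ((nT f) (monomial v a)).degreeOf 0 =
    ∑ i : Fin (n + 1), ((fun (i : Fin (n + 1)) ↦ (2 + f.totalDegree) ^ i.1) i) * v i := by
  rw [← natDegree_finSuccEquiv, monomial_eq, Finsupp.prod_pow v fun a ↦ X a]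
  simp only [Fin.prod_univ_succ, Fin.sum_univ_succ, map_mul, map_prod, map_pow,
    AlgEquiv.ofAlgHom_apply, MvPolynomial.aeval_C, MvPolynomial.aeval_X, if_pos, Fin.succ_ne_zero,
    ite_false, one_smul, map_add, finSuccEquiv_X_zero, finSuccEquiv_X_succ, algebraMap_eq]
  have h (i : Fin n) :
      (Polynomial.C (X (R := k) i) + Polynomial.X ^ (fun (i : Fin (n + 1)) ↦ (2 + f.totalDegree) ^ i.1) i.succ) ^ v i.succ ≠ 0 :=
    pow_ne_zero (v i.succ) (leadingCoeff_ne_zero.mp <| by simp [add_comm, leadingCoeff_X_pow_add_C])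
  rw [natDegree_mul (by simp [ha]) (mul_ne_zero (by simp) (Finset.prod_ne_zero_iff.mpr
    (fun i _ ↦ h i))), natDegree_mul (by simp) (Finset.prod_ne_zero_iff.mpr (fun i _ ↦ h i)),
    natDegree_prod _ _ (fun i _ ↦ h i), natDegree_finSuccEquiv, degreeOf_C]
  simpa only [natDegree_pow, zero_add, natDegree_X, mul_one, Fin.val_zero, pow_zero, one_mul,
    add_right_inj] using Finset.sum_congr rfl (fun i _ ↦ by
    rw [add_comm (Polynomial.C _), natDegree_X_pow_add_C, mul_comm])

/-- `nT` maps different monomials of `f` to polynomials with different degrees in `X_0`. -/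
theorem degreeOf_t_ne_of_ne (hv : v ∈ f.support) (hw : w ∈ f.support) (ne : v ≠ w) :
    (nT f <| monomial v <| coeff v f).degreeOf 0 ≠
    (nT f <| monomial w <| coeff w f).degreeOf 0 := by
  rw [degreeOf_zero_t _ _ <| mem_support_iff.mp hv, degreeOf_zero_t _ _ <| mem_support_iff.mp hw]
  refine sum_r_mul_ne f v w (fun i ↦ ?_) (fun i ↦ ?_) ne <;>
  exact lt_of_le_of_lt ((monomial_le_degreeOf i ‹_›).trans (degreeOf_le_totalDegree f i))
    (by lia)

theorem leadingCoeff_finSuccEquiv_t :
    (finSuccEquiv k n ((nT f) ((monomial v) (coeff v f)))).leadingCoeff =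
    algebraMap k _ (coeff v f) := by
  rw [monomial_eq, Finsupp.prod_fintype]
  · simp only [map_mul, map_prod, leadingCoeff_mul, leadingCoeff_prod]
    rw [AlgEquiv.ofAlgHom_apply, algHom_C, algebraMap_eq, finSuccEquiv_apply,
      eval₂Hom_C, coe_comp]
    simp only [AlgEquiv.ofAlgHom_apply, Function.comp_apply, leadingCoeff_C, map_pow,
      leadingCoeff_pow, algebraMap_eq]
    have : ∀ j, ((finSuccEquiv k n) ((nT1 f) 1 (X j))).leadingCoeff = 1 := fun j ↦ by
      by_cases h : j = 0
      · simp [h, finSuccEquiv_apply]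
      · simp only [aeval_eq_bind₁, bind₁_X_right, if_neg h, one_smul, map_add, map_pow]
        obtain ⟨i, rfl⟩ := Fin.exists_succ_eq.mpr h
        simp [finSuccEquiv_X_succ, finSuccEquiv_X_zero, add_comm]
    simp only [this, one_pow, Finset.prod_const_one, mul_one]
  exact fun i ↦ pow_zero _

/-- `nT` maps `f` into some polynomial in `X_0` such that the leading coefficient is invertible. -/
theorem T_leadingcoeff_isUnit (fne : f ≠ 0) :
    IsUnit (finSuccEquiv k n (nT f f)).leadingCoeff := by
  obtain ⟨v, vin, vs⟩ := Finset.exists_max_image f.support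
    (fun v ↦ (nT f ((monomial v) (coeff v f))).degreeOf 0) (support_nonempty.mpr fne)
  set h := fun w ↦ (MvPolynomial.monomial w) (coeff w f)
  simp only [← natDegree_finSuccEquiv] at vs
  replace vs : ∀ x ∈ f.support \ {v}, (finSuccEquiv k n ((nT f) (h x))).degree <
      (finSuccEquiv k n ((nT f) (h v))).degree := by
    intro x hx
    obtain ⟨h1, h2⟩ := Finset.mem_sdiff.mp hx
    apply degree_lt_degree <| lt_of_le_of_ne (vs x h1) ?_
    simpa only [natDegree_finSuccEquiv]
      using degreeOf_t_ne_of_ne f _ _ h1 vin <| ne_of_not_mem_cons h2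
  have coeff : (finSuccEquiv k n ((nT f) (h v + ∑ x ∈ f.support \ {v}, h x))).leadingCoeff =
      (finSuccEquiv k n ((nT f) (h v))).leadingCoeff := by
    simp only [map_add, map_sum]
    rw [add_comm]
    apply leadingCoeff_add_of_degree_lt <| (lt_of_le_of_lt <| degree_sum_le _ _) ?_
    have h2 : h v ≠ 0 := by simpa [h] using mem_support_iff.mp vin
    replace h2 : (finSuccEquiv k n ((nT f) (h v))) ≠ 0 := fun eq ↦ h2 <|
      by simpa only [map_eq_zero_iff _ (AlgEquiv.injective _)] using eq
    exact (Finset.sup_lt_iff <| Ne.bot_lt (fun x ↦ h2 <| degree_eq_bot.mp x)).mpr vs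
  nth_rw 2 [← f.support_sum_monomial_coeff]
  rw [Finset.sum_eq_add_sum_sdiff_singleton_of_mem vin h]
  rw [leadingCoeff_finSuccEquiv_t] at coeff
  simpa only [coeff, algebraMap_eq] using (mem_support_iff.mp vin).isUnit.map MvPolynomial.C

end nagata

universe u

open Polynomial in
theorem exists_monic_of_unit {O : Type u} [CommRing O] [Nontrivial O] {r : ℕ}
    (v : Fin (r + 3) → O[X]) (i₀ : Fin (r + 3)) (hm : IsUnit (v i₀).leadingCoeff) :
    ∃ w l, Red v w ∧ (w l).Monic := by
  obtain ⟨y, hy⟩ := hm.exists_left_inv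
  have hm1 : (C y * v i₀).Monic := by
    rw [Polynomial.Monic, Polynomial.leadingCoeff]
    have h1 : (C y * v i₀).natDegree = (v i₀).natDegree := by
      refine le_antisymm (natDegree_C_mul_le _ _) ?_
      refine Polynomial.le_natDegree_of_ne_zero ?_
      rw [coeff_C_mul, Polynomial.coeff_natDegree, hy]
      exact one_ne_zero
    rw [h1, coeff_C_mul, Polynomial.coeff_natDegree, hy]
  obtain ⟨l, hl, _⟩ := exists_third i₀ i₀
  have e1 : v l %ₘ (C y * v i₀) + (C y * v i₀) =
      v l + ((1 - (v l /ₘ (C y * v i₀))) * C y) * v i₀ := by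
    rw [Polynomial.modByMonic_eq_sub_mul_div]
    ring
  refine ⟨_, l, red_update v hl ((1 - (v l /ₘ (C y * v i₀))) * C y) e1, ?_⟩
  rw [Function.update_self]
  by_cases h0 : (C y * v i₀) = 1
  · rw [h0, Polynomial.modByMonic_one, zero_add]
    exact monic_one
  · rw [add_comm]
    exact hm1.add_of_left (Polynomial.degree_modByMonic_lt _ hm1)

open Polynomial in
theorem tr_poly {O : Type u} [CommRing O] [IsDomain O] {r : ℕ}
    (v : Fin (r + 3) → O[X]) (i₀ : Fin (r + 3)) (hm : IsUnit (v i₀).leadingCoeff)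
    (hu : Ideal.span (Set.range v) = ⊤) :
    ∃ G : (Matrix (Fin (r + 3)) (Fin (r + 3)) O[X])ˣ, Tr (A := O[X]) v (Pi.single 0 1) G := by
  obtain ⟨w, l, hw, hl⟩ := exists_monic_of_unit v i₀ hm
  obtain ⟨G, hG⟩ := hw.tr
  obtain ⟨H, _, hH⟩ := iso_monic w l hl (by rw [hw.span_eq, hu])
  exact ⟨_, hG.mul hH⟩

theorem tr_mv {k : Type u} [Field k] {m r : ℕ}
    (v : Fin (r + 3) → MvPolynomial (Fin m) k) (hu : Ideal.span (Set.range v) = ⊤) :
    ∃ G : (Matrix (Fin (r + 3)) (Fin (r + 3)) (MvPolynomial (Fin m) k))ˣ,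
      Tr (A := MvPolynomial (Fin m) k) v (Pi.single 0 1) G := by
  obtain ⟨i, hi⟩ : ∃ i, v i ≠ 0 := by
    by_contra hcon
    push Not at hcon
    have h1 : Ideal.span (Set.range v) ≤ ⊥ := by
      rw [Ideal.span_le]
      rintro _ ⟨i, rfl⟩
      rw [hcon i]
      exact Submodule.zero_mem _
    rw [hu] at h1
    exact bot_ne_top (top_le_iff.1 h1)
  rcases m with _ | m
  · refine (red_of_isUnit v i ?_).tr
    rw [MvPolynomial.eq_C_of_isEmpty (v i)] at hi ⊢
    refine IsUnit.map MvPolynomial.C (Ne.isUnit ?_)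
    intro h
    rw [h, map_zero] at hi
    exact hi rfl
  · let e : MvPolynomial (Fin (m + 1)) k ≃ₐ[k] Polynomial (MvPolynomial (Fin m) k) :=
      (nT (v i)).trans (MvPolynomial.finSuccEquiv k m)
    have h1 : IsUnit (e (v i)).leadingCoeff := T_leadingcoeff_isUnit (v i) hi
    have h2 : Ideal.span (Set.range fun i => e (v i)) = ⊤ := by
      have h3 : Ideal.map (e : MvPolynomial (Fin (m + 1)) k →+*
          Polynomial (MvPolynomial (Fin m) k)) (Ideal.span (Set.range v)) = ⊤ := by
        rw [hu, Ideal.map_top]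
      rw [Ideal.map_span, ← Set.range_comp] at h3
      exact h3
    obtain ⟨G, hG⟩ := tr_poly (fun i => e (v i)) i h1 h2
    have h4 := hG.map (e.symm : Polynomial (MvPolynomial (Fin m) k) →+* MvPolynomial (Fin (m + 1)) k)
    have h5 : (fun i => (e.symm : Polynomial (MvPolynomial (Fin m) k) →+*
        MvPolynomial (Fin (m + 1)) k) (e (v i))) = v := by
      ext1 i
      exact e.symm_apply_apply (v i)
    have h6 : (fun i => (e.symm : Polynomial (MvPolynomial (Fin m) k) →+*
        MvPolynomial (Fin (m + 1)) k) ((Pi.single 0 1 : Fin (r + 3) → _) i)) =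
        Pi.single 0 1 := by
      ext1 i
      by_cases hi : i = 0
      · subst hi
        rw [Pi.single_eq_same, Pi.single_eq_same, map_one]
      · rw [Pi.single_eq_of_ne hi, Pi.single_eq_of_ne hi, map_zero]
    rw [h5, h6] at h4
    exact ⟨_, h4⟩

theorem unimodular_row {k : Type u} [Field k] {m r : ℕ}
    (v : Fin (r + 3) → MvPolynomial (Fin m) k) (hu : Ideal.span (Set.range v) = ⊤) :
    ∃ G G' : Matrix (Fin (r + 3)) (Fin (r + 3)) (MvPolynomial (Fin m) k), G * G' = 1 ∧ G' * G = 1 ∧
      Matrix.vecMul v G = Pi.single 0 1 := by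
  obtain ⟨G, hG⟩ := tr_mv v hu
  exact ⟨G.val, G.inv, G.val_inv, G.inv_val, hG⟩

theorem cancel_one {k : Type u} [Field k] {m r : ℕ} {N : Type u}
    [AddCommGroup N] [Module (MvPolynomial (Fin m) k) N]
    (e : (N × MvPolynomial (Fin m) k) ≃ₗ[MvPolynomial (Fin m) k]
      (Fin (r + 3) → MvPolynomial (Fin m) k)) :
    Nonempty (N ≃ₗ[MvPolynomial (Fin m) k] (Fin (r + 2) → MvPolynomial (Fin m) k)) := by
  set x := e (0, 1) with hx
  have hu : Ideal.span (Set.range x) = ⊤ := by
    rw [Ideal.eq_top_iff_one]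
    have h1 : (e.symm x).2 = 1 := by rw [hx, LinearEquiv.symm_apply_apply]
    have h2 : (e.symm x).2 = ∑ i, x i * (e.symm (Pi.single i 1)).2 := by
      conv_lhs => rw [pi_eq_sum_univ' x]
      rw [map_sum, Prod.snd_sum]
      refine Finset.sum_congr rfl fun i _ => ?_
      rw [map_smul, Prod.smul_snd, smul_eq_mul]
    rw [← h1, h2]
    exact Ideal.sum_mem _ fun i _ => Ideal.mul_mem_right _ _ (Ideal.subset_span ⟨i, rfl⟩)
  obtain ⟨G, G', h1, h2, h3⟩ := unimodular_row x hu
  let g : (Fin (r + 3) → MvPolynomial (Fin m) k) ≃ₗ[MvPolynomial (Fin m) k]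
      (Fin (r + 3) → MvPolynomial (Fin m) k) :=
    { toFun := fun y => Matrix.vecMul y G
      map_add' := fun a b => Matrix.add_vecMul _ _ _
      map_smul' := fun c a => Matrix.smul_vecMul _ _ _
      invFun := fun y => Matrix.vecMul y G'
      left_inv := fun y => by
        show Matrix.vecMul (Matrix.vecMul y G) G' = y
        rw [Matrix.vecMul_vecMul, h1, Matrix.vecMul_one]
      right_inv := fun y => by
        show Matrix.vecMul (Matrix.vecMul y G') G = y
        rw [Matrix.vecMul_vecMul, h2, Matrix.vecMul_one] }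
  let E := e.trans g
  have hE : E (0, 1) = Pi.single 0 1 := h3
  let f : N →ₗ[MvPolynomial (Fin m) k] (Fin (r + 2) → MvPolynomial (Fin m) k) :=
    { toFun := fun n i => E (n, 0) (Fin.succ i)
      map_add' := fun a b => by
        ext1 i
        have : ((a + b, 0) : N × MvPolynomial (Fin m) k) = (a, 0) + (b, 0) := by simp
        rw [this, map_add]
        rfl
      map_smul' := fun c a => by
        ext1 i
        have : ((c • a, 0) : N × MvPolynomial (Fin m) k) = c • (a, 0) := by simp
        rw [this, map_smul]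
        rfl }
  have hf : ∀ n i, f n i = E (n, 0) (Fin.succ i) := fun _ _ => rfl
  have key : ∀ n c, E (n, c) = E (n, 0) + c • Pi.single 0 1 := by
    intro n c
    rw [← hE, ← map_smul, ← map_add]
    simp
  refine ⟨LinearEquiv.ofBijective f ⟨?_, ?_⟩⟩
  · rw [← LinearMap.ker_eq_bot, LinearMap.ker_eq_bot']
    intro n hn
    have h4 : E (n, 0) = E (0, E (n, 0) 0) := by
      rw [key 0]
      have h5 : ((0, 0) : N × MvPolynomial (Fin m) k) = 0 := rfl
      rw [h5, map_zero, zero_add]
      ext1 i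
      refine Fin.cases ?_ (fun i => ?_) i
      · simp
      · rw [Pi.smul_apply, Pi.single_eq_of_ne (Fin.succ_ne_zero i), smul_zero, ← hf, hn]
        rfl
    have h6 := E.injective h4
    exact congrArg Prod.fst h6
  · intro y
    obtain ⟨⟨n, c⟩, hnc⟩ := E.surjective (Fin.cons 0 y)
    refine ⟨n, ?_⟩
    ext1 i
    rw [hf]
    have h7 := congrFun hnc (Fin.succ i)
    rw [key, Pi.add_apply, Pi.smul_apply, Pi.single_eq_of_ne (Fin.succ_ne_zero i), smul_zero,
      add_zero, Fin.cons_succ] at h7
    exact h7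

theorem free_of_stably {k : Type u} [Field k] {m d l : ℕ} (hd : 2 ≤ d) {M : Type u}
    [AddCommGroup M] [Module (MvPolynomial (Fin m) k) M]
    (e : (M × (Fin l → MvPolynomial (Fin m) k)) ≃ₗ[MvPolynomial (Fin m) k]
      (Fin (d + l) → MvPolynomial (Fin m) k)) :
    Nonempty (M ≃ₗ[MvPolynomial (Fin m) k] (Fin d → MvPolynomial (Fin m) k)) := by
  induction l with
  | zero =>
    let e0 : M ≃ₗ[MvPolynomial (Fin m) k] (M × (Fin 0 → MvPolynomial (Fin m) k)) :=
      { toFun := fun x => (x, 0)
        map_add' := fun a b => by simp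
        map_smul' := fun a b => by simp
        invFun := fun x => x.1
        left_inv := fun x => rfl
        right_inv := fun x => by
          ext1
          · rfl
          · exact Subsingleton.elim _ _ }
    exact ⟨e0.trans e⟩
  | succ l ih =>
    have e1 : ((M × (Fin l → MvPolynomial (Fin m) k)) × MvPolynomial (Fin m) k)
        ≃ₗ[MvPolynomial (Fin m) k] (M × (Fin (l + 1) → MvPolynomial (Fin m) k)) :=
      { toFun := fun x => (x.1.1, Fin.cons x.2 x.1.2)
        map_add' := fun a b => by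
          ext1
          · rfl
          · ext1 i
            refine Fin.cases ?_ (fun i => ?_) i
            · simp
            · simp
        map_smul' := fun a b => by
          ext1
          · rfl
          · ext1 i
            refine Fin.cases ?_ (fun i => ?_) i
            · simp
            · simp
        invFun := fun x => ((x.1, Fin.tail x.2), x.2 0)
        left_inv := fun x => by
          simp
        right_inv := fun x => by
          simp }
    obtain ⟨r, hr⟩ : ∃ r, d + l = r + 2 := ⟨d + l - 2, by omega⟩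
    have e2 : ((M × (Fin l → MvPolynomial (Fin m) k)) × MvPolynomial (Fin m) k)
        ≃ₗ[MvPolynomial (Fin m) k] (Fin (r + 3) → MvPolynomial (Fin m) k) :=
      (e1.trans e).trans (LinearEquiv.funCongrLeft _ _ (finCongr (by omega)))
    obtain ⟨e3⟩ := cancel_one e2
    exact ih (e3.trans (LinearEquiv.funCongrLeft _ _ (finCongr (by omega))))

end Pool.Agent.H71.AAE
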