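import Mathlib
import Pool.Agent.H71.AAE.Defs
import Pool.Agent.H71.AAE.N
import Pool.Agent.H71.AAE.U
import Pool.Agent.H71.AAE.M1
import Pool.Agent.H71.AAE.M2

/-! # AAE, module M, part 3: generators of the conormal module -/

set_option autoImplicit false

open Polynomial

namespace Pool.Agent.H71.AAE

universe u



theorem grad_add {k : Type u} [Field k] {n m : ℕ}
    (φ : MvPolynomial (Fin n) k →ₐ[k] MvPolynomial (Fin m) k) (a b : MvPolynomial (Fin n) k) :
    grad φ (a + b) = grad φ a + grad φ b := by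
  ext1 i
  simp [grad]

theorem grad_sub {k : Type u} [Field k] {n m : ℕ}
    (φ : MvPolynomial (Fin n) k →ₐ[k] MvPolynomial (Fin m) k) (a b : MvPolynomial (Fin n) k) :
    grad φ (a - b) = grad φ a - grad φ b := by
  ext1 i
  simp [grad]

theorem grad_sum {k : Type u} [Field k] {n m : ℕ}
    (φ : MvPolynomial (Fin n) k →ₐ[k] MvPolynomial (Fin m) k) {ι : Type} (S : Finset ι)
    (a : ι → MvPolynomial (Fin n) k) :
    grad φ (∑ i ∈ S, a i) = ∑ i ∈ S, grad φ (a i) := by
  ext1 i
  simp [grad, Finset.sum_apply]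

theorem grad_mul {k : Type u} [Field k] {n m : ℕ}
    (φ : MvPolynomial (Fin n) k →ₐ[k] MvPolynomial (Fin m) k) (a b : MvPolynomial (Fin n) k)
    (hb : φ b = 0) : grad φ (a * b) = φ a • grad φ b := by
  ext1 i
  simp [grad, hb]

theorem finSucc_pderiv {k : Type u} [Field k] {N : ℕ} (h : MvPolynomial (Fin (N + 1)) k) :
    MvPolynomial.finSuccEquiv k N (MvPolynomial.pderiv 0 h) =
      derivative (MvPolynomial.finSuccEquiv k N h) := by
  induction h using MvPolynomial.induction_on with
  | C a =>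
    have h1 : MvPolynomial.finSuccEquiv k N (MvPolynomial.C a) =
        Polynomial.C (MvPolynomial.C a) :=
      AlgEquiv.commutes (MvPolynomial.finSuccEquiv k N) a
    rw [h1, derivative_C, MvPolynomial.pderiv_C]
    exact map_zero _
  | add p q hp hq =>
    have h1 : MvPolynomial.pderiv 0 (p + q) = MvPolynomial.pderiv 0 p + MvPolynomial.pderiv 0 q :=
      map_add _ _ _
    rw [h1, map_add (MvPolynomial.finSuccEquiv k N), map_add (MvPolynomial.finSuccEquiv k N),
      derivative_add, hp, hq]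
  | mul_X p i hp =>
    have h2 : MvPolynomial.finSuccEquiv k N (MvPolynomial.pderiv 0 (MvPolynomial.X i)) =
        derivative (MvPolynomial.finSuccEquiv k N (MvPolynomial.X i)) := by
      refine Fin.cases ?_ (fun j => ?_) i
      · rw [MvPolynomial.pderiv_X_self, MvPolynomial.finSuccEquiv_X_zero, derivative_X]
        exact map_one _
      · rw [MvPolynomial.pderiv_X_of_ne (Fin.succ_ne_zero j), MvPolynomial.finSuccEquiv_X_succ,
          derivative_C]
        exact map_zero _
    have h3 : MvPolynomial.pderiv 0 (p * MvPolynomial.X i) =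
        MvPolynomial.pderiv 0 p * MvPolynomial.X i + p * MvPolynomial.pderiv 0 (MvPolynomial.X i) :=
      MvPolynomial.pderiv_mul
    rw [h3, map_add (MvPolynomial.finSuccEquiv k N),
      map_mul (MvPolynomial.finSuccEquiv k N), map_mul (MvPolynomial.finSuccEquiv k N),
      map_mul (MvPolynomial.finSuccEquiv k N), derivative_mul, hp, h2]

theorem conormal_gens {k : Type u} [Field k] {N m : ℕ} (hN : N = 2 * (m + 2))
    (φ : (MvPolynomial (Fin N) k)[X] →ₐ[k] MvPolynomial (Fin (m + 2)) k)
    (hφ : Function.Surjective φ) {e : (MvPolynomial (Fin N) k)[X]} (he : φ e = 0)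
    (he1 : φ (derivative e) = 1) :
    ∃ kk : Fin (m + 2) → (MvPolynomial (Fin N) k)[X], (∀ i, φ (kk i) = 0) ∧
      (∀ i, φ (derivative (kk i)) = 0) ∧
      ∀ h, φ h = 0 → ∃ t : (MvPolynomial (Fin N) k)[X],
        ∃ ti : Fin (m + 2) → (MvPolynomial (Fin N) k)[X],
        h - (t * e + ∑ i, ti i * kk i) ∈ (RingHom.ker φ) ^ 2 := by
  let E := MvPolynomial.finSuccEquiv k N
  let φ₀ : MvPolynomial (Fin (N + 1)) k →ₐ[k] MvPolynomial (Fin (m + 2)) k :=
    φ.comp (E : MvPolynomial (Fin (N + 1)) k →ₐ[k] (MvPolynomial (Fin N) k)[X])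
  have hφ₀ : Function.Surjective φ₀ := hφ.comp E.surjective
  have happ : ∀ h, φ₀ h = φ (E h) := fun h => rfl
  have hE : ∀ h, φ₀ (E.symm h) = φ h := fun h => by rw [happ, AlgEquiv.apply_symm_apply]
  have hD : ∀ h, grad φ₀ (E.symm h) 0 = φ (derivative h) := by
    intro h
    show φ₀ (MvPolynomial.pderiv 0 (E.symm h)) = _
    rw [happ]
    have := finSucc_pderiv (E.symm h)
    rw [show MvPolynomial.finSuccEquiv k N = E from rfl] at this
    rw [this, AlgEquiv.apply_symm_apply]
  -- the linear form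
  let D : conor φ₀ →ₗ[MvPolynomial (Fin (m + 2)) k] MvPolynomial (Fin (m + 2)) k :=
    (LinearMap.proj 0).comp (conor φ₀).subtype
  have hDapp : ∀ x : conor φ₀, D x = x.1 0 := fun x => rfl
  let e₀ : conor φ₀ := ⟨grad φ₀ (E.symm e), grad_mem φ₀ (by rw [hE, he])⟩
  have hDe : D e₀ = 1 := by
    rw [hDapp]
    show grad φ₀ (E.symm e) 0 = 1
    rw [hD, he1]
  -- splitting off the kernel
  let e1 : (LinearMap.ker D × MvPolynomial (Fin (m + 2)) k) ≃ₗ[MvPolynomial (Fin (m + 2)) k]
      conor φ₀ :=
    { toFun := fun x => x.1.1 + x.2 • e₀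
      map_add' := by
        intro x y
        simp only [Prod.fst_add, Prod.snd_add, Submodule.coe_add, add_smul]
        abel
      map_smul' := by
        intro c x
        simp [smul_smul, smul_add]
      invFun := fun x => (⟨x - D x • e₀, by
        rw [LinearMap.mem_ker, map_sub, map_smul, hDe, smul_eq_mul, mul_one, sub_self]⟩, D x)
      left_inv := by
        intro x
        have hx : D x.1.1 = 0 := LinearMap.mem_ker.1 x.1.2
        have h1 : D (x.1.1 + x.2 • e₀) = x.2 := by
          rw [map_add, hx, map_smul, hDe, smul_eq_mul, mul_one, zero_add]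
        ext1
        · apply Subtype.ext
          show x.1.1 + x.2 • e₀ - D (x.1.1 + x.2 • e₀) • e₀ = x.1.1
          rw [h1]
          abel
        · exact h1
      right_inv := by
        intro x
        show x - D x • e₀ + D x • e₀ = x
        abel }
  obtain ⟨e2⟩ := conor_split φ₀ hφ₀
  have e3 : (LinearMap.ker D × (Fin (m + 3) → MvPolynomial (Fin (m + 2)) k))
      ≃ₗ[MvPolynomial (Fin (m + 2)) k]
      (Fin ((m + 2) + (m + 3)) → MvPolynomial (Fin (m + 2)) k) :=
    ((LinearEquiv.refl _ (LinearMap.ker D)).prodCongr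
      (Fin.consLinearEquiv (MvPolynomial (Fin (m + 2)) k)
        (fun _ : Fin (m + 2 + 1) => MvPolynomial (Fin (m + 2)) k)).symm).trans
      ((LinearEquiv.prodAssoc (MvPolynomial (Fin (m + 2)) k) (LinearMap.ker D)
        (MvPolynomial (Fin (m + 2)) k) (Fin (m + 2) → MvPolynomial (Fin (m + 2)) k)).symm.trans
      ((e1.prodCongr (LinearEquiv.refl _ (Fin (m + 2) → MvPolynomial (Fin (m + 2)) k))).trans
      (e2.trans (LinearEquiv.funCongrLeft _ _ (finCongr (by omega))))))
  obtain ⟨κ⟩ := free_of_stably (k := k) (m := m + 2) (d := m + 2) (l := m + 3)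
    (M := LinearMap.ker D) (by omega) e3
  have hk : ∀ i : Fin (m + 2), ∃ h, φ h = 0 ∧ grad φ₀ (E.symm h) = (κ.symm (Pi.single i 1)).1.1 := by
    intro i
    obtain ⟨h, h1, h2⟩ := grad_surj φ₀ hφ₀ (κ.symm (Pi.single i 1)).1.2
    exact ⟨E h, h1, by rw [AlgEquiv.symm_apply_apply, h2]⟩
  choose kk hk1 hk2 using hk
  refine ⟨kk, hk1, fun i => ?_, fun h hh => ?_⟩
  · rw [← hD, hk2]
    exact LinearMap.mem_ker.1 (κ.symm (Pi.single i 1)).2
  · -- decompose
    let x : conor φ₀ := ⟨grad φ₀ (E.symm h), grad_mem φ₀ (by rw [hE, hh])⟩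
    let y := e1.symm x
    obtain ⟨t, ht⟩ := hφ y.2
    choose ti hti using fun i => hφ (κ y.1 i)
    refine ⟨t, ti, ?_⟩
    have h1 : x = y.1.1 + y.2 • e₀ := (e1.apply_symm_apply x).symm
    have h2 : y.1 = ∑ i, κ y.1 i • κ.symm (Pi.single i 1) := by
      apply κ.injective
      rw [map_sum]
      simp only [map_smul, LinearEquiv.apply_symm_apply]
      ext1 j
      simp [Finset.sum_apply, Pi.single_apply]
    have h3 : grad φ₀ (E.symm h) = (∑ i, κ y.1 i • (κ.symm (Pi.single i 1)).1.1) +
        y.2 • grad φ₀ (E.symm e) := by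
      have h4 := congrArg (fun z : conor φ₀ => z.1) h1
      have h5 := congrArg (fun z : LinearMap.ker D => z.1.1) h2
      simp only [Submodule.coe_add, Submodule.coe_smul] at h4 h5
      rw [show x.1 = grad φ₀ (E.symm h) from rfl, show e₀.1 = grad φ₀ (E.symm e) from rfl] at h4
      rw [h4, h5]
      congr 1
      simp
    have h6 : E.symm (h - (t * e + ∑ i, ti i * kk i)) ∈ (RingHom.ker φ₀) ^ 2 := by
      apply grad_ker φ₀ hφ₀
      · rw [hE, map_sub, map_add, map_mul, map_sum, hh, he]
        simp [hk1]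
      · rw [map_sub, map_add, map_mul, map_sum, grad_sub, grad_add, grad_sum,
          grad_mul _ _ _ (by rw [hE, he])]
        have h7 : ∀ i, grad φ₀ (E.symm (ti i * kk i)) =
            κ y.1 i • (κ.symm (Pi.single i 1)).1.1 := by
          intro i
          rw [map_mul, grad_mul _ _ _ (by rw [hE, hk1]), hE, hti, hk2]
        simp only [h7]
        rw [h3, hE, ht]
        abel
    have h8 : Ideal.map (E : MvPolynomial (Fin (N + 1)) k →+* (MvPolynomial (Fin N) k)[X])
        (RingHom.ker φ₀) ≤ RingHom.ker φ := by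
      rw [Ideal.map_le_iff_le_comap]
      intro z hz
      exact hz
    have h9 := Ideal.mem_map_of_mem
      (E : MvPolynomial (Fin (N + 1)) k →+* (MvPolynomial (Fin N) k)[X]) h6
    rw [Ideal.map_pow] at h9
    have h10 := Ideal.pow_right_mono h8 2 h9
    have h11 : (E : MvPolynomial (Fin (N + 1)) k →+* (MvPolynomial (Fin N) k)[X])
        (E.symm (h - (t * e + ∑ i, ti i * kk i))) = h - (t * e + ∑ i, ti i * kk i) :=
      E.apply_symm_apply _
    rw [h11] at h10
    exact h10

end Pool.Agent.H71.AAE
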