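import Mathlib
import Pool.Agent.H71.AAE.Defs
import Pool.Agent.H71.AAE.E
import Pool.Agent.H71.AAE.H1
import Pool.Agent.H71.AAE.H2
import Pool.Agent.H71.AAE.H3

/-! Project AAE (MP_ae801b_ag), module P: Quillen patching. -/

set_option autoImplicit false

open Polynomial

namespace Pool.Agent.H71.AAE

universe u

section SR

variable {A B : Type u} [CommRing A] [CommRing B]

/-- elements with denominators powers of `a` -/
def SR (ψ : A →+* B) (a : A) : Subring B where
  carrier := {x | ∃ n, ψ a ^ n * x ∈ ψ.range}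
  mul_mem' := by
    rintro x y ⟨n, hn⟩ ⟨m, hm⟩
    refine ⟨n + m, ?_⟩
    have := ψ.range.mul_mem hn hm
    convert this using 1
    ring
  one_mem' := ⟨0, by rw [pow_zero, one_mul]; exact ψ.range.one_mem⟩
  add_mem' := by
    rintro x y ⟨n, hn⟩ ⟨m, hm⟩
    refine ⟨n + m, ?_⟩
    have h1 := ψ.range.mul_mem (ψ.range.pow_mem ⟨a, rfl⟩ m) hn
    have h2 := ψ.range.mul_mem (ψ.range.pow_mem ⟨a, rfl⟩ n) hm
    have := ψ.range.add_mem h1 h2
    convert this using 1
    ring
  zero_mem' := ⟨0, by rw [mul_zero]; exact ψ.range.zero_mem⟩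
  neg_mem' := by
    rintro x ⟨n, hn⟩
    refine ⟨n, ?_⟩
    rw [mul_neg]
    exact ψ.range.neg_mem hn

theorem mem_SR {ψ : A →+* B} {a : A} {x : B} : x ∈ SR ψ a ↔ ∃ n, ψ a ^ n * x ∈ ψ.range :=
  Iff.rfl

theorem range_le_SR (ψ : A →+* B) (a : A) : ψ.range ≤ SR ψ a := by
  intro x hx
  exact ⟨0, by rwa [pow_zero, one_mul]⟩

theorem mem_range_of_both {ψ : A →+* B} {a b : A} (hab : IsCoprime a b) {x : B}
    (h1 : x ∈ SR ψ a) (h2 : x ∈ SR ψ b) : x ∈ ψ.range := by
  obtain ⟨n, hn⟩ := h1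
  obtain ⟨m, hm⟩ := h2
  obtain ⟨u, v, huv⟩ := (hab.pow : IsCoprime (a ^ n) (b ^ m))
  have h3 := ψ.range.add_mem (ψ.range.mul_mem ⟨u, rfl⟩ hn) (ψ.range.mul_mem ⟨v, rfl⟩ hm)
  have h4 : ψ u * (ψ a ^ n * x) + ψ v * (ψ b ^ m * x) = x := by
    have := congrArg ψ huv
    rw [map_add, map_mul, map_mul, map_pow, map_pow, map_one] at this
    linear_combination x * this
  rwa [h4] at h3

theorem small_aux {ψ : A →+* B} {a b : A} (hden : ∀ x : B, ∃ n, ψ (a * b) ^ n * x ∈ ψ.range)
    (p : B[X]) : ∃ K, ∀ c, b ^ K ∣ c → ψ c * p.eval (ψ c) ∈ SR ψ a := by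
  induction p using Polynomial.induction_on' with
  | add f g hf hg =>
    obtain ⟨K, h1⟩ := hf
    obtain ⟨L, h2⟩ := hg
    refine ⟨K + L, fun c hc => ?_⟩
    rw [eval_add, mul_add]
    exact Subring.add_mem _ (h1 c ((pow_dvd_pow b (Nat.le_add_right K L)).trans hc))
      (h2 c ((pow_dvd_pow b (Nat.le_add_left L K)).trans hc))
  | monomial n x =>
    obtain ⟨K, hK⟩ := hden x
    refine ⟨K, ?_⟩
    rintro c ⟨d, rfl⟩
    rw [eval_monomial]
    have h1 : ψ b ^ K * x ∈ SR ψ a := by
      refine ⟨K, ?_⟩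
      convert hK using 1
      rw [map_mul]
      ring
    have h2 : ψ d ∈ SR ψ a := range_le_SR ψ a ⟨d, rfl⟩
    have h3 : ψ (b ^ K * d) ∈ SR ψ a := range_le_SR ψ a ⟨_, rfl⟩
    have := Subring.mul_mem _ (Subring.mul_mem _ h2 (Subring.pow_mem _ h3 n)) h1
    convert this using 1
    rw [map_mul, map_pow]
    ring

theorem small_one {ψ : A →+* B} {a b : A} (hden : ∀ x : B, ∃ n, ψ (a * b) ^ n * x ∈ ψ.range)
    (p : B[X]) (h0 : p.eval 0 ∈ ψ.range) : ∃ K, ∀ c, b ^ K ∣ c → p.eval (ψ c) ∈ SR ψ a := by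
  obtain ⟨K, hK⟩ := small_aux hden (divX p)
  refine ⟨K, fun c hc => ?_⟩
  have h1 : p = X * divX p + C (p.coeff 0) := (Polynomial.X_mul_divX_add p).symm
  rw [h1, eval_add, eval_mul, eval_X, eval_C]
  refine Subring.add_mem _ (hK c hc) (range_le_SR ψ a ?_)
  rwa [Polynomial.coeff_zero_eq_eval_zero]

theorem small {α : Type} [Finite α] {ψ : A →+* B} {a b : A}
    (hden : ∀ x : B, ∃ n, ψ (a * b) ^ n * x ∈ ψ.range)
    (p : α → B[X]) (h0 : ∀ i, (p i).eval 0 ∈ ψ.range) :
    ∃ K, ∀ c, b ^ K ∣ c → ∀ i, (p i).eval (ψ c) ∈ SR ψ a := by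
  classical
  have := Fintype.ofFinite α
  choose K hK using fun i => small_one hden (p i) (h0 i)
  refine ⟨∑ i, K i, fun c hc i => hK i c ((pow_dvd_pow b ?_).trans hc)⟩
  exact Finset.single_le_sum (f := K) (fun _ _ => Nat.zero_le _) (Finset.mem_univ i)

/-- all entries of the matrix and of its inverse are in the subring -/
def InS {ι : Type} [Fintype ι] [DecidableEq ι] (S : Subring B) (G : (Matrix ι ι B)ˣ) : Prop :=
  ∀ i j, G.val i j ∈ S ∧ G.inv i j ∈ S

theorem small_mat {ι : Type} [Fintype ι] [DecidableEq ι] {ψ : A →+* B} {a b : A}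
    (hden : ∀ x : B, ∃ n, ψ (a * b) ^ n * x ∈ ψ.range)
    (G : (Matrix ι ι B[X])ˣ) (h0 : mapU (A := B[X]) (B := B) (evalRingHom 0) G = 1) :
    ∃ K, ∀ c, b ^ K ∣ c → InS (SR ψ a) (mapU (A := B[X]) (B := B) (evalRingHom (ψ c)) G) := by
  have h1 : ∀ (M : Matrix ι ι B[X]), M.map (evalRingHom 0) = 1 → ∀ i j,
      (M i j).eval 0 ∈ ψ.range := by
    intro M hM i j
    have := congrFun (congrFun hM i) j
    rw [Matrix.map_apply, coe_evalRingHom] at this
    rw [this, Matrix.one_apply]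
    split_ifs
    · exact ψ.range.one_mem
    · exact ψ.range.zero_mem
  have h2 : G.val.map (evalRingHom 0) = 1 := congrArg Units.val h0
  have h3 : G.inv.map (evalRingHom 0) = 1 := by
    have : mapU (A := B[X]) (B := B) (evalRingHom 0) G⁻¹ = 1 := by rw [map_inv, h0, inv_one]
    exact congrArg Units.val this
  obtain ⟨K, hK⟩ := small (α := ι × ι) hden (fun x => G.val x.1 x.2) (fun x => h1 _ h2 _ _)
  obtain ⟨L, hL⟩ := small (α := ι × ι) hden (fun x => G.inv x.1 x.2) (fun x => h1 _ h3 _ _)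
  refine ⟨K + L, fun c hc i j => ⟨?_, ?_⟩⟩
  · exact hK c ((pow_dvd_pow b (Nat.le_add_right K L)).trans hc) (i, j)
  · exact hL c ((pow_dvd_pow b (Nat.le_add_left L K)).trans hc) (i, j)

theorem quillen_split {ι : Type} [Fintype ι] [DecidableEq ι] {ψ : A →+* B} {a b : A}
    (hab : IsCoprime a b) (hden : ∀ x : B, ∃ n, ψ (a * b) ^ n * x ∈ ψ.range)
    (G : (Matrix ι ι B[X])ˣ) (h0 : mapU (A := B[X]) (B := B) (evalRingHom 0) G = 1) :
    ∃ P Q : (Matrix ι ι B)ˣ, InS (SR ψ a) P ∧ InS (SR ψ b) Q ∧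
      mapU (A := B[X]) (B := B) (evalRingHom 1) G = Q * P := by
  obtain ⟨K, hK⟩ := small_mat hden G h0
  set H : (Matrix ι ι B[X])ˣ :=
    mapU (A := B[X]) (B := B[X]) ((C : B →+* B[X]).comp (evalRingHom 1)) G *
      (mapU (A := B[X]) (B := B[X]) (eval₂RingHom C (1 + X)) G)⁻¹ with hH
  have e1 : ∀ c : B, (evalRingHom c).comp ((C : B →+* B[X]).comp (evalRingHom 1)) =
      evalRingHom 1 := by
    intro c
    apply Polynomial.ringHom_ext
    · intro x
      simp
    · simp
  have e2 : ∀ c : B, (evalRingHom c).comp (eval₂RingHom C (1 + X)) = evalRingHom (1 + c) := by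
    intro c
    apply Polynomial.ringHom_ext
    · intro x
      simp
    · simp
  have h1 : mapU (A := B[X]) (B := B) (evalRingHom 0) H = 1 := by
    rw [hH, map_mul, map_inv, mapU_comp, mapU_comp, e1, e2, add_zero, mul_inv_cancel]
  have hden' : ∀ x : B, ∃ n, ψ (b * a) ^ n * x ∈ ψ.range := by
    intro x
    rw [mul_comm b a]
    exact hden x
  obtain ⟨L, hL⟩ := small_mat hden' H h1
  obtain ⟨x, y, hxy⟩ := (hab.pow : IsCoprime (a ^ L) (b ^ K))
  set c := y * b ^ K with hc
  have hc1 : b ^ K ∣ c := dvd_mul_left _ _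
  have hc2 : a ^ L ∣ c - 1 := ⟨-x, by rw [hc, ← hxy]; ring⟩
  refine ⟨mapU (A := B[X]) (B := B) (evalRingHom (ψ c)) G,
    mapU (A := B[X]) (B := B) (evalRingHom (ψ (c - 1))) H, hK c hc1, hL (c - 1) hc2, ?_⟩
  have e3 : (1 : B) + ψ (c - 1) = ψ c := by
    rw [map_sub, map_one]
    ring
  rw [hH, map_mul, map_inv, mapU_comp, mapU_comp, e1, e2, e3]
  rw [inv_mul_cancel_right]

theorem exists_common {α : Type} [Finite α] {ψ : A →+* B} {a : A} (x : α → B)
    (hx : ∀ i, x i ∈ SR ψ a) : ∃ n, ∀ i, ψ a ^ n * x i ∈ ψ.range := by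
  classical
  have := Fintype.ofFinite α
  choose n hn using hx
  refine ⟨∑ i, n i, fun i => ?_⟩
  have h1 : n i ≤ ∑ i, n i :=
    Finset.single_le_sum (f := n) (fun _ _ => Nat.zero_le _) (Finset.mem_univ i)
  obtain ⟨k, hk⟩ := Nat.exists_eq_add_of_le h1
  rw [hk, pow_add]
  have := ψ.range.mul_mem (ψ.range.pow_mem ⟨a, rfl⟩ k) (hn i)
  convert this using 1
  ring

end SR

section patch

theorem den_poly {R : Type u} [CommRing R] (f : R) (x : (Localization.Away f)[X]) :
    ∃ n, mapRingHom (algebraMap R (Localization.Away f)) (C f) ^ n * x ∈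
      (mapRingHom (algebraMap R (Localization.Away f))).range := by
  induction x using Polynomial.induction_on' with
  | add g h hg hh =>
    obtain ⟨n, a, hn⟩ := hg
    obtain ⟨m, b, hm⟩ := hh
    refine ⟨n + m, C f ^ m * a + C f ^ n * b, ?_⟩
    rw [map_add, map_mul, map_mul, hn, hm, map_pow, map_pow]
    ring
  | monomial k a =>
    obtain ⟨n, r, hr⟩ := IsLocalization.Away.surj f a
    refine ⟨n, Polynomial.monomial k r, ?_⟩
    rw [coe_mapRingHom, Polynomial.map_monomial, Polynomial.map_C, ← C_pow, C_mul_monomial,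
      ← hr, mul_comm]

theorem patch {R : Type u} [CommRing R] [IsDomain R] {r : ℕ} (I : Ideal R[X])
    (v : Fin (r + 3) → R[X]) (hv : ∀ i, v i ∈ I) (i₀ : Fin (r + 3)) (hmonic : (v i₀).Monic)
    (ν : R) (hν : C ν ∈ I) (h : ∀ x ∈ I, C (1 + ν) * x ∈ Ideal.span (Set.range v)) :
    ∃ w : Fin (r + 3) → R[X], Ideal.span (Set.range w) = I := by
  have hle : Ideal.span (Set.range v) ≤ I := by
    rw [Ideal.span_le]
    rintro _ ⟨i, rfl⟩
    exact hv i
  by_cases h0 : ν = 0
  · refine ⟨v, le_antisymm hle fun x hx => ?_⟩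
    have := h x hx
    rwa [h0, add_zero, C_1, one_mul] at this
  by_cases h1 : 1 + ν = 0
  · refine ⟨Pi.single 0 1, ?_⟩
    have hI : I = ⊤ := by
      rw [Ideal.eq_top_iff_one]
      have h2 : ν = -1 := by linear_combination h1
      rw [h2, C_neg, C_1] at hν
      have := I.neg_mem hν
      rwa [neg_neg] at this
    rw [hI, Ideal.eq_top_iff_one]
    exact Ideal.subset_span ⟨0, Pi.single_eq_same _ _⟩
  -- the main case
  set F := 1 + ν with hF
  have hne : ν * F ≠ 0 := mul_ne_zero h0 h1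
  let L := Localization.Away (ν * F)
  have hM : Submonoid.powers (ν * F) ≤ nonZeroDivisors R :=
    powers_le_nonZeroDivisors_of_noZeroDivisors hne
  haveI : IsDomain L := IsLocalization.isDomain_of_le_nonZeroDivisors (M := Submonoid.powers (ν * F)) L hM
  set φ := algebraMap R L with hφ
  have hinj : Function.Injective φ := IsLocalization.injective L hM
  set ψ : R[X] →+* L[X] := mapRingHom φ with hψ
  have hψi : Function.Injective ψ := Polynomial.map_injective _ hinj
  have hden : ∀ x : L[X], ∃ n, ψ (C ν * C F) ^ n * x ∈ ψ.range := by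
    intro x
    rw [← C_mul]
    exact den_poly (ν * F) x
  have hcop : IsCoprime (C ν : R[X]) (C F) := ⟨-1, 1, by rw [hF, C_add, C_1]; ring⟩
  -- the row is unimodular over L[X]
  have hunit : IsUnit (ψ (C (ν * F))) := by
    rw [hψ, coe_mapRingHom, Polynomial.map_C]
    exact (IsLocalization.Away.algebraMap_isUnit (S := L) (ν * F)).map C
  have hu : Ideal.span (Set.range fun i => ψ (v i)) = ⊤ := by
    have h2 := h _ hν
    have h3 : ψ (C F * C ν) ∈ Ideal.map ψ (Ideal.span (Set.range v)) :=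
      Ideal.mem_map_of_mem _ h2
    rw [Ideal.map_span, ← Set.range_comp] at h3
    have e : (C F * C ν : R[X]) = C (ν * F) := by rw [← C_mul, mul_comm F ν]
    rw [e] at h3
    exact Ideal.eq_top_of_isUnit_mem _ h3 hunit
  obtain ⟨G, g1, g2⟩ := iso_monic (fun i => ψ (v i)) i₀ (hmonic.map φ) hu
  obtain ⟨P, Q, hP, hQ, hG⟩ := quillen_split hcop hden G g1
  rw [hG] at g2
  -- the new row
  set w' : Fin (r + 3) → L[X] := Matrix.vecMul (fun i => ψ (v i)) Q.val with hw'
  have t1 : Tr (A := L[X]) (fun i => ψ (v i)) w' Q := rfl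
  have t2 : Tr (A := L[X]) w' (Pi.single 0 1) P := by
    rw [Tr, hw', Matrix.vecMul_vecMul]
    exact g2
  have hvS : ∀ (S : Subring L[X]), ψ.range ≤ S → ∀ (u : Fin (r + 3) → L[X])
      (M : Matrix (Fin (r + 3)) (Fin (r + 3)) L[X]), (∀ i, u i ∈ S) → (∀ i j, M i j ∈ S) →
      ∀ j, Matrix.vecMul u M j ∈ S := by
    intro S hS u M hu hM j
    show ∑ i, u i * M i j ∈ S
    exact Subring.sum_mem _ fun i _ => Subring.mul_mem _ (hu i) (hM i j)
  have hwr : ∀ j, w' j ∈ ψ.range := by
    intro j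
    refine mem_range_of_both hcop ?_ ?_
    · have h5 := t2.inv
      rw [Tr] at h5
      rw [← h5]
      refine hvS _ (range_le_SR _ _) _ _ (fun i => ?_) (fun i j => (hP i j).2) j
      refine range_le_SR _ _ ?_
      by_cases hi : i = 0
      · subst hi
        rw [Pi.single_eq_same]
        exact ψ.range.one_mem
      · rw [Pi.single_eq_of_ne hi]
        exact ψ.range.zero_mem
    · exact hvS _ (range_le_SR _ _) _ _ (fun i => range_le_SR _ _ ⟨v i, rfl⟩)
        (fun i j => (hQ i j).1) j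
  choose w hw using hwr
  -- denominators
  obtain ⟨n1, hn1⟩ := exists_common (α := Fin (r + 3) × Fin (r + 3))
    (fun x => Q.val x.1 x.2) (fun x => (hQ x.1 x.2).1)
  obtain ⟨n2, hn2⟩ := exists_common (α := Fin (r + 3) × Fin (r + 3))
    (fun x => Q.inv x.1 x.2) (fun x => (hQ x.1 x.2).2)
  obtain ⟨n3, hn3⟩ := exists_common (α := Fin (r + 3) × Fin (r + 3))
    (fun x => P.val x.1 x.2) (fun x => (hP x.1 x.2).1)
  choose M1 hM1 using hn1
  choose M2 hM2 using hn2
  choose M3 hM3 using hn3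
  have hcomb : ∀ (J : Ideal R[X]) (x : R[X]) (n m : ℕ), C ν ^ n * x ∈ J → C F ^ m * x ∈ J →
      x ∈ J := by
    intro J x n m ha hb
    obtain ⟨s, t, hst⟩ := (hcop.pow : IsCoprime (C ν ^ n) (C F ^ m))
    have : x = s * (C ν ^ n * x) + t * (C F ^ m * x) := by
      linear_combination (-x) * hst
    rw [this]
    exact J.add_mem (J.mul_mem_left _ ha) (J.mul_mem_left _ hb)
  refine ⟨w, le_antisymm ?_ ?_⟩
  · rw [Ideal.span_le]
    rintro _ ⟨j, rfl⟩
    refine hcomb I (w j) 1 n1 (I.mul_mem_right _ (by rwa [pow_one])) ?_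
    have h6 : C F ^ n1 * w j = ∑ i, v i * M1 (i, j) := by
      apply hψi
      rw [map_mul, map_pow, hw, map_sum]
      simp only [map_mul, hM1]
      rw [hw', Matrix.vecMul, dotProduct, Finset.mul_sum]
      refine Finset.sum_congr rfl fun i _ => ?_
      ring
    rw [h6]
    exact I.sum_mem fun i _ => I.mul_mem_right _ (hv i)
  · intro x hx
    refine hcomb _ x n3 (n2 + 1) ?_ ?_
    · refine Ideal.mul_mem_right _ _ ?_
      have h7 : C ν ^ n3 = ∑ i, w i * M3 (i, 0) := by
        apply hψi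
        rw [map_pow, map_sum]
        simp only [map_mul, hM3, hw]
        have h8 := congrFun t2 0
        rw [Pi.single_eq_same, Matrix.vecMul, dotProduct] at h8
        calc ψ (C ν) ^ n3 = ψ (C ν) ^ n3 * ∑ i, w' i * P.val i 0 := by rw [h8, mul_one]
          _ = _ := by
            rw [Finset.mul_sum]
            refine Finset.sum_congr rfl fun i _ => ?_
            ring
      rw [h7]
      exact Ideal.sum_mem _ fun i _ => Ideal.mul_mem_right _ _ (Ideal.subset_span ⟨i, rfl⟩)
    · have h9 := h x hx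
      have h10 : ∀ y ∈ Ideal.span (Set.range v), C F ^ n2 * y ∈ Ideal.span (Set.range w) := by
        intro y hy
        refine Submodule.span_induction (p := fun y _ => C F ^ n2 * y ∈
          Ideal.span (Set.range w)) ?_ ?_ ?_ ?_ hy
        · rintro _ ⟨j, rfl⟩
          have h11 : C F ^ n2 * v j = ∑ i, w i * M2 (i, j) := by
            apply hψi
            rw [map_mul, map_pow, map_sum]
            simp only [map_mul, hM2, hw]
            have h12 := congrFun t1.inv j
            rw [Matrix.vecMul, dotProduct] at h12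
            calc ψ (C F) ^ n2 * ψ (v j) = ψ (C F) ^ n2 * ∑ i, w' i * Q.inv i j := by
                  rw [← h12]
                  rfl
              _ = _ := by
                rw [Finset.mul_sum]
                refine Finset.sum_congr rfl fun i _ => ?_
                ring
          rw [h11]
          exact Ideal.sum_mem _ fun i _ => Ideal.mul_mem_right _ _ (Ideal.subset_span ⟨i, rfl⟩)
        · rw [mul_zero]
          exact Ideal.zero_mem _
        · intro a b _ _ ha hb
          rw [mul_add]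
          exact Ideal.add_mem _ ha hb
        · intro a b _ hb
          rw [smul_eq_mul, mul_left_comm]
          exact Ideal.mul_mem_left _ _ hb
      have h13 := h10 _ h9
      rwa [pow_succ, mul_assoc]

end patch

end Pool.Agent.H71.AAE
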