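import Mathlib
import Pool.Agent.H71.AAE.Defs
import Pool.Agent.H71.AAE.P
import Pool.Agent.H71.AAE.M1
import Pool.Agent.H71.AAE.M2
import Pool.Agent.H71.AAE.M3

/-! # AAE, module M, part 4: lemmas for the main argument -/

set_option autoImplicit false

open Polynomial

namespace Pool.Agent.H71.AAE

universe u



section Lemmas

variable {k : Type u} [Field k] {N m : ℕ}
  {φ : (MvPolynomial (Fin N) k)[X] →ₐ[k] MvPolynomial (Fin m) k}
  {s p : MvPolynomial (Fin N) k}

theorem phi'_sq (hg : φ X ^ 2 = φ (C s) * φ X - φ (C p))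
    (hS : ∀ b, ∃ α β : MvPolynomial (Fin N) k, b = φ (C α) + φ (C β) * φ X)
    {y : (MvPolynomial (Fin N) k)[X]} (hy : y ∈ (RingHom.ker φ) ^ 2) :
    ∃ z ∈ (cond φ) ^ 2, phi' φ s y = uu φ s * (uu φ s * z) := by
  rw [pow_two] at hy
  induction hy using Submodule.mul_induction_on' with
  | mem_mul_mem a ha b hb =>
    obtain ⟨β, hβ, h1, _⟩ := theta_exists hg hS (RingHom.mem_ker.1 ha)
    obtain ⟨β', hβ', h1', _⟩ := theta_exists hg hS (RingHom.mem_ker.1 hb)
    refine ⟨β * β', ?_, ?_⟩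
    · rw [pow_two]
      exact Ideal.mul_mem_mul hβ hβ'
    · rw [map_mul, h1, h1']
      ring
  | add x _ y _ hx hy =>
    obtain ⟨a, ha, ha'⟩ := hx
    obtain ⟨b, hb, hb'⟩ := hy
    refine ⟨a + b, Ideal.add_mem _ ha hb, ?_⟩
    rw [map_add, ha', hb']
    ring

theorem phi'_surj
    (hS : ∀ b, ∃ α β : MvPolynomial (Fin N) k, b = φ (C α) + φ (C β) * φ X)
    (b : MvPolynomial (Fin m) k) : ∃ h, phi' φ s h = b := by
  obtain ⟨α, β, rfl⟩ := hS b
  refine ⟨C α + C β * C s - C β * X, ?_⟩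
  rw [map_sub, map_add, map_mul, map_mul, phi'_C, phi'_C, phi'_C, phi'_X]
  ring

theorem phi'_sub_phi (h : (MvPolynomial (Fin N) k)[X]) :
    phi' φ s h - φ h ∈ Ideal.span {uu φ s} := by
  induction h using Polynomial.induction_on' with
  | add a b ha hb =>
    have : phi' φ s (a + b) - φ (a + b) = (phi' φ s a - φ a) + (phi' φ s b - φ b) := by
      rw [map_add, map_add]; ring
    rw [this]
    exact Ideal.add_mem _ ha hb
  | monomial n a =>
    have h1 : ∀ n : ℕ, (φ (C s) - φ X) ^ n - φ X ^ n ∈ Ideal.span {uu φ s} := by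
      intro n
      have h2 : (φ (C s) - φ X) - φ X ∣ (φ (C s) - φ X) ^ n - φ X ^ n := sub_dvd_pow_sub_pow _ _ n
      have h3 : (φ (C s) - φ X) - φ X = uu φ s := by unfold uu; ring
      rw [h3] at h2
      exact Ideal.mem_span_singleton.2 h2
    have h4 : phi' φ s (monomial n a) - φ (monomial n a) =
        φ (C a) * ((φ (C s) - φ X) ^ n - φ X ^ n) := by
      rw [← C_mul_X_pow_eq_monomial, map_mul, map_mul, map_pow, map_pow, phi'_C, phi'_X]
      ring
    rw [h4]
    exact Ideal.mul_mem_left _ _ (h1 n)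

theorem exists_iota (hφ : Function.Surjective φ) (hg : φ X ^ 2 = φ (C s) * φ X - φ (C p))
    (hS : ∀ b, ∃ α β : MvPolynomial (Fin N) k, b = φ (C α) + φ (C β) * φ X) :
    ∃ ι : MvPolynomial (Fin m) k →+* MvPolynomial (Fin m) k ⧸ cond φ,
      ∀ h, ι (φ h) = Ideal.Quotient.mk (cond φ) (phi' φ s h) := by
  have hker : RingHom.ker (φ : (MvPolynomial (Fin N) k)[X] →+* MvPolynomial (Fin m) k) ≤
      RingHom.ker ((Ideal.Quotient.mk (cond φ)).comp (phi' φ s)) := by
    intro h hh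
    obtain ⟨β, hβ, h1, _⟩ := theta_exists (s := s) hg hS (RingHom.mem_ker.1 hh)
    rw [RingHom.mem_ker, RingHom.comp_apply, Ideal.Quotient.eq_zero_iff_mem, h1]
    exact Ideal.mul_mem_left _ _ hβ
  let ι := RingHom.liftOfSurjective
    (φ : (MvPolynomial (Fin N) k)[X] →+* MvPolynomial (Fin m) k) hφ
    ⟨(Ideal.Quotient.mk (cond φ)).comp (phi' φ s), hker⟩
  refine ⟨ι, fun h => ?_⟩
  exact RingHom.liftOfSurjective_comp_apply _ _ _ h

theorem nakayama_patch {R : Type u} [CommRing R] [IsDomain R] [IsNoetherianRing R] {r : ℕ}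
    (I : Ideal R[X]) (v : Fin (r + 3) → R[X]) (hv : ∀ i, v i ∈ I) (hmonic : (v 0).Monic)
    (h1 : I ≤ Ideal.span (Set.range v) ⊔ Ideal.map C (Ideal.comap C I))
    (h2 : I ≤ Ideal.span (Set.range v) ⊔ I ^ 2) :
    ∃ w : Fin (r + 3) → R[X], Ideal.span (Set.range w) = I := by
  set J := Ideal.span (Set.range v) with hJ
  set K := Ideal.comap C I with hK
  have hJI : J ≤ I := Ideal.span_le.2 (by rintro _ ⟨i, rfl⟩; exact hv i)
  have h3 : I ≤ J ⊔ Ideal.map C K * I := by
    have h4 : I ^ 2 ≤ J ⊔ Ideal.map C K * I := by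
      rw [pow_two]
      calc I * I ≤ (J ⊔ Ideal.map C K) * I := Ideal.mul_mono_left h1
        _ = J * I ⊔ Ideal.map C K * I := Ideal.sup_mul _ _ _
        _ ≤ J ⊔ Ideal.map C K * I := sup_le_sup_right Ideal.mul_le_left _
    exact h2.trans (sup_le le_sup_left h4)
  have hfin : Module.Finite R (R[X] ⧸ J) := by
    have h5 : Module.Finite R (R[X] ⧸ Ideal.span {v 0}) := hmonic.finite_quotient
    have h6 : Ideal.span {v 0} ≤ J := Ideal.span_mono (by
      rintro _ rfl
      exact ⟨0, rfl⟩)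
    exact Module.Finite.of_surjective (Ideal.Quotient.factorₐ R h6).toLinearMap
      (Ideal.Quotient.factor_surjective h6)
  have : IsNoetherian R (R[X] ⧸ J) := isNoetherian_of_isNoetherianRing_of_finite R _
  -- the module I / J
  let M : Submodule R (R[X] ⧸ J) := (Submodule.restrictScalars R I).map
    ((Ideal.Quotient.mkₐ R J).toLinearMap)
  have hMfg : M.FG := IsNoetherian.noetherian M
  have h8 : ∀ c ∈ Ideal.map C K, ∀ d ∈ I, Ideal.Quotient.mk J (c * d) ∈ K • M := by
    intro c hc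
    refine Submodule.span_induction (p := fun c _ => ∀ d ∈ I, Ideal.Quotient.mk J (c * d) ∈ K • M)
      ?_ ?_ ?_ ?_ hc
    · rintro _ ⟨r, hr, rfl⟩ d hd
      have h9 : Ideal.Quotient.mk J (C r * d) = r • Ideal.Quotient.mk J d := by
        rw [← Polynomial.smul_eq_C_mul]
        rfl
      rw [h9]
      exact Submodule.smul_mem_smul hr ⟨d, hd, rfl⟩
    · intro d _
      rw [zero_mul, map_zero]
      exact Submodule.zero_mem _
    · intro x y _ _ hx hy d hd
      rw [add_mul, map_add]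
      exact Submodule.add_mem _ (hx d hd) (hy d hd)
    · intro a x _ hx d hd
      rw [smul_eq_mul, mul_comm a x, mul_assoc]
      exact hx _ (Ideal.mul_mem_left _ _ hd)
  have h9 : ∀ b ∈ Ideal.map C K * I, Ideal.Quotient.mk J b ∈ K • M := by
    intro b hb
    refine Submodule.mul_induction_on hb (fun c hc d hd => h8 c hc d hd) fun x y hx hy => ?_
    rw [map_add]
    exact Submodule.add_mem _ hx hy
  have hM : M ≤ K • M := by
    rintro _ ⟨x, hx, rfl⟩
    have hx' : x ∈ I := hx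
    obtain ⟨a, ha, b, hb, rfl⟩ := Submodule.mem_sup.1 (h3 hx')
    have h7 : (Ideal.Quotient.mkₐ R J).toLinearMap (a + b) = Ideal.Quotient.mk J b := by
      rw [map_add]
      have : (Ideal.Quotient.mkₐ R J).toLinearMap a = 0 := Ideal.Quotient.eq_zero_iff_mem.2 ha
      rw [this, zero_add]
      rfl
    rw [h7]
    exact h9 b hb
  obtain ⟨ρ, hρ1, hρ2⟩ := Submodule.exists_sub_one_mem_and_smul_eq_zero_of_fg_of_le_smul K M hMfg hM
  apply patch I v hv 0 hmonic (ρ - 1)
  · exact hρ1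
  · intro x hx
    have h10 := hρ2 _ ⟨x, hx, rfl⟩
    have h11 : ρ • (Ideal.Quotient.mkₐ R J).toLinearMap x = Ideal.Quotient.mk J (C ρ * x) := by
      rw [← Polynomial.smul_eq_C_mul]
      rfl
    rw [h11, Ideal.Quotient.eq_zero_iff_mem] at h10
    rw [add_sub_cancel]
    exact h10

end Lemmas

end Pool.Agent.H71.AAE
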