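import Mathlib
import Pool.Agent.H71.AAE.Defs

/-! Project AAE (MP_ae801b_ag), module G1, part a: algebraic dependence. -/

set_option autoImplicit false

open Polynomial

namespace Pool.Agent.H71.AAE

universe u

theorem exists_rel {k : Type u} [Field k] {σ τ : Type} [Fintype σ] [Fintype τ]
    (hst : Fintype.card σ < Fintype.card τ) (D : MvPolynomial σ k)
    (h : τ → Localization.Away D) :
    ∃ P : MvPolynomial τ k, P ≠ 0 ∧ MvPolynomial.aeval h P = 0 := by
  by_cases hD : D = 0
  · refine ⟨1, one_ne_zero, ?_⟩
    have : Subsingleton (Localization.Away D) := by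
      apply IsLocalization.subsingleton (M := Submonoid.powers D)
      exact ⟨1, by simp [hD]⟩
    exact Subsingleton.elim _ _
  · have hM : Submonoid.powers D ≤ nonZeroDivisors (MvPolynomial σ k) :=
      powers_le_nonZeroDivisors_of_noZeroDivisors hD
    have : IsDomain (Localization.Away D) :=
      IsLocalization.isDomain_of_le_nonZeroDivisors (M := Submonoid.powers D) _ hM
    have hinj : Function.Injective (algebraMap (MvPolynomial σ k) (Localization.Away D)) :=
      IsLocalization.injective _ hM
    have : FaithfulSMul (MvPolynomial σ k) (Localization.Away D) :=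
      (faithfulSMul_iff_algebraMap_injective _ _).2 hinj
    have : Algebra.IsAlgebraic (MvPolynomial σ k) (Localization.Away D) :=
      IsLocalization.isAlgebraic _ (Submonoid.powers D)
    have h1 := trdeg_add_eq (R := k) (S := MvPolynomial σ k) (A := Localization.Away D)
    rw [trdeg_eq_zero (R := MvPolynomial σ k) (A := Localization.Away D), add_zero] at h1
    by_contra hcon
    push Not at hcon
    have h2 : AlgebraicIndependent k h := by
      rw [algebraicIndependent_iff]
      intro P hP
      by_contra h0
      exact hcon P h0 hP
    have h3 := h2.lift_cardinalMk_le_trdeg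
    rw [← h1, MvPolynomial.trdeg_of_isDomain] at h3
    simp only [Cardinal.mk_fintype, Cardinal.lift_natCast, Nat.cast_le] at h3
    omega

end Pool.Agent.H71.AAE
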