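import Mathlib
import Pool.Agent.H71.AAE.Defs
import Pool.Agent.H71.AAE.G1a

/-! Project AAE (MP_ae801b_ag), module G0: generic shears have monic relations. -/

set_option autoImplicit false

open Polynomial

namespace Pool.Agent.H71.AAE

universe u

section top

variable {A : Type u} [CommRing A]

/-- `p` has degree at most `n` with coefficient `c` at `n` -/
def Top (p : A[X]) (n : ℕ) (c : A) : Prop := p.natDegree ≤ n ∧ p.coeff n = c

theorem Top.mul {p q : A[X]} {n m : ℕ} {c d : A} (hp : Top p n c) (hq : Top q m d) :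
    Top (p * q) (n + m) (c * d) := by
  refine ⟨natDegree_mul_le.trans (add_le_add hp.1 hq.1), ?_⟩
  rw [Polynomial.coeff_mul_add_eq_of_natDegree_le hp.1 hq.1, hp.2, hq.2]

theorem Top.one : Top (1 : A[X]) 0 1 := ⟨by simp, by simp⟩

theorem Top.pow {p : A[X]} {n : ℕ} {c : A} (hp : Top p n c) (m : ℕ) :
    Top (p ^ m) (n * m) (c ^ m) := by
  refine ⟨?_, ?_⟩
  · rw [mul_comm]
    exact natDegree_pow_le_of_le m hp.1
  · rw [mul_comm, Polynomial.coeff_pow_of_natDegree_le hp.1, hp.2]

theorem Top.prod {α : Type} (s : Finset α) (p : α → A[X]) (n : α → ℕ) (c : α → A)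
    (h : ∀ i ∈ s, Top (p i) (n i) (c i)) :
    Top (∏ i ∈ s, p i) (∑ i ∈ s, n i) (∏ i ∈ s, c i) := by
  classical
  induction s using Finset.induction_on with
  | empty => simpa using Top.one
  | insert a s ha ih =>
    rw [Finset.prod_insert ha, Finset.sum_insert ha, Finset.prod_insert ha]
    exact (h a (Finset.mem_insert_self a s)).mul
      (ih fun i hi => h i (Finset.mem_insert_of_mem hi))

theorem Top.le {p : A[X]} {n m : ℕ} {c : A} (hp : Top p n c) (h : n ≤ m) :
    Top p m (if n = m then c else 0) := by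
  refine ⟨hp.1.trans h, ?_⟩
  split_ifs with h1
  · rw [← h1, hp.2]
  · exact coeff_eq_zero_of_natDegree_lt (lt_of_le_of_lt hp.1 (lt_of_le_of_ne h h1))

theorem Top.sum {α : Type} (s : Finset α) (p : α → A[X]) (n : ℕ) (c : α → A)
    (h : ∀ i ∈ s, Top (p i) n (c i)) :
    Top (∑ i ∈ s, p i) n (∑ i ∈ s, c i) := by
  refine ⟨natDegree_sum_le_of_forall_le _ _ fun i hi => (h i hi).1, ?_⟩
  rw [Polynomial.finsetSum_coeff]
  exact Finset.sum_congr rfl fun i hi => (h i hi).2

end top

section main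

variable {k : Type u} [Field k] {N m : ℕ}

/-- the factor `X_i - λ_{i,0} T - λ_{i,1} T²` -/
noncomputable def fac (lam : Fin N × Fin 2 → k) (i : Fin N) : (MvPolynomial (Fin N) k)[X] :=
  C (MvPolynomial.X i) - C (MvPolynomial.C (lam (i, 0))) * X -
    C (MvPolynomial.C (lam (i, 1))) * X ^ 2

theorem fac_top (lam : Fin N × Fin 2 → k) (i : Fin N) :
    Top (fac lam i) 2 (-MvPolynomial.C (lam (i, 1))) := by
  constructor
  · rw [fac]
    compute_degree
  · rw [fac, coeff_sub, coeff_sub, coeff_C_mul, coeff_C_mul, coeff_X_pow, if_pos rfl,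
      coeff_C_of_ne_zero (by norm_num), coeff_X_of_ne_one (by norm_num)]
    simp

/-- the substitution `X_0 ↦ T, X_{i+1} ↦ X_i - λ_{i,0} T - λ_{i,1} T²` -/
noncomputable def unsh (lam : Fin N × Fin 2 → k) :
    MvPolynomial (Fin (N + 1)) k →ₐ[k] (MvPolynomial (Fin N) k)[X] :=
  MvPolynomial.aeval (Fin.cons X (fac lam))

theorem shear_C (f : Fin (N + 1) → MvPolynomial (Fin m) k) (lam : Fin N × Fin 2 → k)
    (ρ : MvPolynomial (Fin N) k) : shear f lam (C ρ) = MvPolynomial.aeval (fun i =>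
      f i.succ + MvPolynomial.C (lam (i, 0)) * f 0 + MvPolynomial.C (lam (i, 1)) * f 0 ^ 2) ρ := by
  show Polynomial.eval₂RingHom _ _ (C ρ) = _
  simp

theorem shear_X (f : Fin (N + 1) → MvPolynomial (Fin m) k) (lam : Fin N × Fin 2 → k) :
    shear f lam X = f 0 := by
  show Polynomial.eval₂RingHom _ _ X = _
  simp

theorem shear_unsh (f : Fin (N + 1) → MvPolynomial (Fin m) k) (lam : Fin N × Fin 2 → k)
    (h : MvPolynomial (Fin (N + 1)) k) : shear f lam (unsh lam h) = MvPolynomial.aeval f h := by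
  have : (shear f lam).comp (unsh lam) = MvPolynomial.aeval f := by
    apply MvPolynomial.algHom_ext
    intro i
    rw [AlgHom.comp_apply, unsh, MvPolynomial.aeval_X, MvPolynomial.aeval_X]
    refine Fin.cases ?_ (fun i => ?_) i
    · rw [Fin.cons_zero, shear_X]
    · rw [Fin.cons_succ, fac, map_sub, map_sub, map_mul, map_mul, map_pow, shear_X, shear_C,
        shear_C, shear_C]
      simp [MvPolynomial.algebraMap_eq]
      ring
  exact congrArg (fun g => g h) this

/-- weight of an exponent -/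
def wt (a : Fin (N + 1) →₀ ℕ) : ℕ := a 0 + ∑ i : Fin N, 2 * a i.succ

theorem unsh_monomial_top (lam : Fin N × Fin 2 → k) (a : Fin (N + 1) →₀ ℕ) (c : k) :
    Top (unsh lam (MvPolynomial.monomial a c)) (wt a)
      (MvPolynomial.C (c * ∏ i : Fin N, (-lam (i, 1)) ^ a i.succ)) := by
  rw [unsh, MvPolynomial.aeval_monomial, Finsupp.prod_fintype _ _ (fun i => pow_zero _),
    Fin.prod_univ_succ]
  have h1 : Top (algebraMap k (MvPolynomial (Fin N) k)[X] c) 0 (MvPolynomial.C c) := by
    rw [Polynomial.algebraMap_apply, MvPolynomial.algebraMap_eq]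
    exact ⟨by simp, by simp⟩
  have h2 : Top ((Fin.cons X (fac lam) : Fin (N + 1) → (MvPolynomial (Fin N) k)[X]) 0 ^ a 0)
      (a 0) 1 := by
    rw [Fin.cons_zero]
    exact ⟨by simp, by simp⟩
  have h3 : Top (∏ i : Fin N,
      (Fin.cons X (fac lam) : Fin (N + 1) → (MvPolynomial (Fin N) k)[X]) i.succ ^ a i.succ)
      (∑ i : Fin N, 2 * a i.succ) (∏ i : Fin N, (-MvPolynomial.C (lam (i, 1))) ^ a i.succ) := by
    refine Top.prod _ _ _ _ fun i _ => ?_
    rw [Fin.cons_succ]
    exact (fac_top lam i).pow _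
  have h4 := h1.mul (h2.mul h3)
  rw [zero_add, one_mul] at h4
  convert h4 using 1
  · rfl
  · rw [MvPolynomial.C_mul, map_prod]
    simp

/-- the leading form as a polynomial in the parameters -/
noncomputable def lead (h : MvPolynomial (Fin (N + 1)) k) (D : ℕ) :
    MvPolynomial (Fin N × Fin 2) k :=
  ∑ a ∈ h.support, if wt a = D then
    MvPolynomial.C (h.coeff a) * ∏ i : Fin N, (-MvPolynomial.X (i, 1)) ^ a i.succ else 0

theorem unsh_top (lam : Fin N × Fin 2 → k) (h : MvPolynomial (Fin (N + 1)) k) (D : ℕ)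
    (hD : ∀ a ∈ h.support, wt a ≤ D) :
    Top (unsh lam h) D (MvPolynomial.C (MvPolynomial.eval lam (lead h D))) := by
  conv => enter [1]; rw [MvPolynomial.as_sum h]
  rw [map_sum, lead, map_sum, map_sum]
  refine Top.sum _ _ _ _ fun a ha => ?_
  have h1 := (unsh_monomial_top lam a (h.coeff a)).le (hD a ha)
  convert h1 using 1
  split_ifs with h2
  · simp
  · simp

theorem exponent_prod (a : Fin (N + 1) →₀ ℕ) :
    (∏ i : Fin N, (-MvPolynomial.X (i, 1) : MvPolynomial (Fin N × Fin 2) k) ^ a i.succ) =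
      MvPolynomial.monomial (∑ i : Fin N, Finsupp.single ((i, 1) : Fin N × Fin 2) (a i.succ))
        (∏ i : Fin N, (-1 : k) ^ a i.succ) := by
  have h1 : ∀ i : Fin N, (-MvPolynomial.X (i, 1) : MvPolynomial (Fin N × Fin 2) k) ^ a i.succ =
      MvPolynomial.C ((-1) ^ a i.succ) *
        MvPolynomial.monomial (Finsupp.single ((i, 1) : Fin N × Fin 2) (a i.succ)) 1 := by
    intro i
    rw [← MvPolynomial.X_pow_eq_monomial, neg_pow, MvPolynomial.C_pow, MvPolynomial.C_neg,
      MvPolynomial.C_1]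
  rw [Finset.prod_congr rfl fun i _ => h1 i, Finset.prod_mul_distrib,
    ← MvPolynomial.monomial_sum_one, ← map_prod, MvPolynomial.C_mul_monomial, mul_one]

theorem lead_ne_zero (h : MvPolynomial (Fin (N + 1)) k) (a₀ : Fin (N + 1) →₀ ℕ)
    (ha : a₀ ∈ h.support) : lead h (wt a₀) ≠ 0 := by
  intro hcon
  have h1 := congrArg (MvPolynomial.coeff
    (∑ i : Fin N, Finsupp.single ((i, 1) : Fin N × Fin 2) (a₀ i.succ))) hcon
  rw [lead, MvPolynomial.coeff_sum, MvPolynomial.coeff_zero] at h1
  have hexp : ∀ a : Fin (N + 1) →₀ ℕ, ∀ i : Fin N,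
      (∑ i : Fin N, Finsupp.single ((i, 1) : Fin N × Fin 2) (a i.succ)) (i, 1) = a i.succ := by
    intro a i
    rw [Finsupp.finsetSum_apply, Finset.sum_eq_single i]
    · simp
    · intro j _ hj
      rw [Finsupp.single_apply, if_neg]
      intro h
      exact hj (congrArg Prod.fst h)
    · intro h
      exact absurd (Finset.mem_univ i) h
  rw [Finset.sum_eq_single a₀] at h1
  · rw [if_pos rfl, exponent_prod, MvPolynomial.C_mul_monomial, MvPolynomial.coeff_monomial,
      if_pos rfl] at h1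
    have h2 : (∏ i : Fin N, (-1 : k) ^ a₀ i.succ) ≠ 0 :=
      Finset.prod_ne_zero_iff.2 fun i _ => pow_ne_zero _ (neg_ne_zero.2 one_ne_zero)
    exact MvPolynomial.mem_support_iff.1 ha ((mul_eq_zero.1 h1).resolve_right h2)
  · intro a _ hne
    split_ifs with hw
    · rw [exponent_prod, MvPolynomial.C_mul_monomial, MvPolynomial.coeff_monomial, if_neg]
      intro he
      apply hne
      have h3 : ∀ i : Fin N, a i.succ = a₀ i.succ := by
        intro i
        rw [← hexp a i, he, hexp]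
      ext i
      refine Fin.cases ?_ (fun i => h3 i) i
      rw [wt, wt, Finset.sum_congr rfl fun i _ => by rw [h3 i]] at hw
      omega
    · exact MvPolynomial.coeff_zero _
  · intro h
    exact absurd ha h

theorem exists_rel_mv (hNm : m ≤ N) (f : Fin (N + 1) → MvPolynomial (Fin m) k) :
    ∃ P : MvPolynomial (Fin (N + 1)) k, P ≠ 0 ∧ MvPolynomial.aeval f P = 0 := by
  obtain ⟨P, hP, h⟩ := exists_rel (k := k) (σ := Fin m) (τ := Fin (N + 1))
    (by simp; omega) 1 (fun i => algebraMap _ _ (f i))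
  refine ⟨P, hP, ?_⟩
  have hinj : Function.Injective (algebraMap (MvPolynomial (Fin m) k)
      (Localization.Away (1 : MvPolynomial (Fin m) k))) :=
    IsLocalization.injective _ (powers_le_nonZeroDivisors_of_noZeroDivisors one_ne_zero)
  apply hinj
  rw [map_zero, ← h]
  have : (IsScalarTower.toAlgHom k (MvPolynomial (Fin m) k)
      (Localization.Away (1 : MvPolynomial (Fin m) k))).comp (MvPolynomial.aeval f) =
      MvPolynomial.aeval (fun i => algebraMap _ _ (f i)) := by
    apply MvPolynomial.algHom_ext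
    intro i
    simp
  exact congrArg (fun g => g P) this

theorem generic_monic (hNm : m ≤ N) (f : Fin (N + 1) → MvPolynomial (Fin m) k) :
    ∃ P : MvPolynomial (Fin N × Fin 2) k, P ≠ 0 ∧ ∀ lam : Fin N × Fin 2 → k,
      MvPolynomial.eval lam P ≠ 0 → ∃ h : (MvPolynomial (Fin N) k)[X], h.Monic ∧
        shear f lam h = 0 := by
  obtain ⟨h, h0, hf⟩ := exists_rel_mv hNm f
  obtain ⟨a₀, ha₀, hmax⟩ := Finset.exists_max_image h.support wt
    (Finset.nonempty_iff_ne_empty.2 fun he => h0 (MvPolynomial.support_eq_empty.1 he))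
  refine ⟨lead h (wt a₀), lead_ne_zero h a₀ ha₀, fun lam hlam => ?_⟩
  set c := MvPolynomial.eval lam (lead h (wt a₀)) with hc
  have h1 := unsh_top lam h (wt a₀) hmax
  refine ⟨C (MvPolynomial.C c⁻¹) * unsh lam h, ?_, ?_⟩
  · refine Polynomial.monic_of_natDegree_le_of_coeff_eq_one (wt a₀)
      ((natDegree_C_mul_le _ _).trans h1.1) ?_
    rw [coeff_C_mul, h1.2, ← MvPolynomial.C_mul, inv_mul_cancel₀ hlam, MvPolynomial.C_1]
  · rw [map_mul, shear_unsh, hf, mul_zero]

end main

end Pool.Agent.H71.AAE
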