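import Mathlib
import Pool.Agent.H71.AAE.Defs
import Pool.Agent.H71.AAE.G1a
import Pool.Agent.H71.AAE.G0

/-! Project AAE (MP_ae801b_ag), module G1, part b: no triple points. -/

set_option autoImplicit false

open Polynomial

namespace Pool.Agent.H71.AAE

universe u

section spec

variable {k : Type u} [Field k] {σ τ : Type}

theorem spec (D : MvPolynomial σ k) {T : Type u} [CommRing T] [Algebra k T] (x : σ → T)
    (hD : IsUnit (MvPolynomial.aeval x D)) :
    ∃ Φ : Localization.Away D →ₐ[k] T, ∀ s : MvPolynomial σ k,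
      Φ (algebraMap _ _ s) = MvPolynomial.aeval x s := by
  refine ⟨IsLocalization.Away.liftAlgHom (S := Localization.Away D) D
    (f := MvPolynomial.aeval x) hD, fun s => ?_⟩
  rw [IsLocalization.Away.liftAlgHom_apply, IsLocalization.Away.lift_eq]
  rfl

theorem rel_spec {L T : Type u} [CommRing L] [Algebra k L] [CommRing T] [Algebra k T]
    (Φ : L →ₐ[k] T) (h : τ → L) (P : MvPolynomial τ k) (hP : MvPolynomial.aeval h P = 0)
    (y : τ → T) (hy : ∀ t, Φ (h t) = y t) : MvPolynomial.aeval y P = 0 := by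
  have : Φ.comp (MvPolynomial.aeval h) = MvPolynomial.aeval y := by
    apply MvPolynomial.algHom_ext
    intro i
    simp [hy]
  have h1 := congrArg (fun g => g P) this
  simp only [AlgHom.comp_apply, hP, map_zero] at h1
  exact h1.symm

theorem eval_eq_zero_of {T : Type u} [CommRing T] [Nontrivial T] [Algebra k T]
    (lam : τ → k) (P : MvPolynomial τ k)
    (h : MvPolynomial.aeval (fun t => algebraMap k T (lam t)) P = 0) :
    MvPolynomial.eval lam P = 0 := by
  have h1 : MvPolynomial.aeval (fun t => algebraMap k T (lam t)) P =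
      algebraMap k T (MvPolynomial.eval lam P) := by
    have : MvPolynomial.aeval (fun t => algebraMap k T (lam t)) =
        (Algebra.ofId k T).comp (MvPolynomial.aeval lam) := by
      apply MvPolynomial.algHom_ext
      intro i
      simp [Algebra.ofId_apply]
    rw [this, AlgHom.comp_apply, Algebra.ofId_apply]
    rfl
  rw [h1] at h
  exact (map_eq_zero_iff _ (algebraMap k T).injective).1 h

end spec

section shear

variable {k : Type u} [Field k] {N m : ℕ}

theorem shear_CX (f : Fin (N + 1) → MvPolynomial (Fin m) k) (lam : Fin N × Fin 2 → k)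
    (i : Fin N) : shear f lam (C (MvPolynomial.X i)) =
      f i.succ + MvPolynomial.C (lam (i, 0)) * f 0 + MvPolynomial.C (lam (i, 1)) * f 0 ^ 2 := by
  rw [shear_C, MvPolynomial.aeval_X]

theorem hom_shear_CX {T : Type u} [CommRing T] [Algebra k T]
    (f : Fin (N + 1) → MvPolynomial (Fin m) k) (lam : Fin N × Fin 2 → k)
    (p : MvPolynomial (Fin m) k →ₐ[k] T)
    (i : Fin N) : p (shear f lam (C (MvPolynomial.X i))) =
      p (f i.succ) + algebraMap k T (lam (i, 0)) * p (f 0) +
        algebraMap k T (lam (i, 1)) * p (f 0) ^ 2 := by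
  rw [shear_CX, map_add, map_add, map_mul, map_mul, map_pow]
  have h : ∀ c : k, p (MvPolynomial.C c) = algebraMap k T c := fun c => by
    rw [← MvPolynomial.algebraMap_eq, AlgHom.commutes]
  rw [h, h]

end shear

section triple

variable {k : Type u} [Field k] {N m : ℕ}

/-- the three copies of the polynomial ring -/
noncomputable def cp (m : ℕ) (k : Type u) [Field k] (j : Fin 3) :
    MvPolynomial (Fin m) k →ₐ[k] MvPolynomial (Fin 3 × Fin m) k :=
  MvPolynomial.rename fun l => (j, l)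

theorem aeval_cp {T : Type u} [CommRing T] [Algebra k T]
    (p : Fin 3 → (MvPolynomial (Fin m) k →ₐ[k] T)) (j : Fin 3) (b : MvPolynomial (Fin m) k) :
    MvPolynomial.aeval (fun x : Fin 3 × Fin m => p x.1 (MvPolynomial.X x.2)) (cp m k j b) =
      p j b := by
  have : (MvPolynomial.aeval (fun x : Fin 3 × Fin m => p x.1 (MvPolynomial.X x.2))).comp
      (cp m k j) = p j := by
    apply MvPolynomial.algHom_ext
    intro i
    simp [cp]
  exact congrArg (fun g => g b) this

theorem generic_no_triple (hNm : 3 * m < 2 * N)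
    (f : Fin (N + 1) → MvPolynomial (Fin m) k) :
    ∃ P : MvPolynomial (Fin N × Fin 2) k, P ≠ 0 ∧ ∀ lam : Fin N × Fin 2 → k,
      MvPolynomial.eval lam P ≠ 0 → ∀ (Ω : Type u) [Field Ω] [Algebra k Ω]
      (p q r : MvPolynomial (Fin m) k →ₐ[k] Ω),
      p (f 0) ≠ q (f 0) → q (f 0) ≠ r (f 0) → p (f 0) ≠ r (f 0) →
      (∀ ρ, p (shear f lam (C ρ)) = q (shear f lam (C ρ))) →
      (∀ ρ, q (shear f lam (C ρ)) = r (shear f lam (C ρ))) → False := by
  set g : Fin 3 → MvPolynomial (Fin 3 × Fin m) k := fun j => cp m k j (f 0) with hg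
  set D := (g 0 - g 1) * (g 1 - g 2) * (g 0 - g 2) with hD
  set L := Localization.Away D with hL
  set ι : MvPolynomial (Fin 3 × Fin m) k →+* L := algebraMap _ L with hι
  set d : L := IsLocalization.Away.invSelf D with hd
  have hdD : ι D * d = 1 := IsLocalization.Away.mul_invSelf D
  -- the solution
  set s : Fin N → L := fun i => ι (cp m k 0 (f i.succ) - cp m k 1 (f i.succ)) * d *
    ι ((g 1 - g 2) * (g 0 - g 2)) with hs
  set t : Fin N → L := fun i => ι (cp m k 1 (f i.succ) - cp m k 2 (f i.succ)) * d *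
    ι ((g 0 - g 1) * (g 0 - g 2)) with ht
  set l1 : Fin N → L := fun i => (t i - s i) * d * ι ((g 0 - g 1) * (g 1 - g 2)) with hl1
  set l0 : Fin N → L := fun i => - s i - l1 i * ι (g 0 + g 1) with hl0
  obtain ⟨P, hP, hrel⟩ := exists_rel (k := k) (σ := Fin 3 × Fin m) (τ := Fin N × Fin 2)
    (by simp; omega) D (fun x => if x.2 = 0 then l0 x.1 else l1 x.1)
  refine ⟨P, hP, ?_⟩
  intro lam hlam Ω _ _ p q r hpq hqr hpr h1 h2
  apply hlam
  -- specialise
  have hc : ∀ j b, MvPolynomial.aeval (fun x : Fin 3 × Fin m =>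
      (![p, q, r] : Fin 3 → (MvPolynomial (Fin m) k →ₐ[k] Ω)) x.1 (MvPolynomial.X x.2))
      (cp m k j b) = (![p, q, r] : Fin 3 → (MvPolynomial (Fin m) k →ₐ[k] Ω)) j b :=
    fun j b => aeval_cp ![p, q, r] j b
  have hDe : MvPolynomial.aeval (fun x : Fin 3 × Fin m =>
      (![p, q, r] : Fin 3 → (MvPolynomial (Fin m) k →ₐ[k] Ω)) x.1 (MvPolynomial.X x.2)) D =
      (p (f 0) - q (f 0)) * (q (f 0) - r (f 0)) * (p (f 0) - r (f 0)) := by
    rw [hD, map_mul, map_mul, map_sub, map_sub, map_sub, hg]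
    simp only [hc]
    rfl
  have hDu : (p (f 0) - q (f 0)) * (q (f 0) - r (f 0)) * (p (f 0) - r (f 0)) ≠ 0 :=
    mul_ne_zero (mul_ne_zero (sub_ne_zero.2 hpq) (sub_ne_zero.2 hqr)) (sub_ne_zero.2 hpr)
  obtain ⟨Φ, hΦ⟩ := spec D (T := Ω) (fun x : Fin 3 × Fin m =>
      (![p, q, r] : Fin 3 → (MvPolynomial (Fin m) k →ₐ[k] Ω)) x.1 (MvPolynomial.X x.2))
      (by rw [hDe]; exact Ne.isUnit hDu)
  have hΦd : (p (f 0) - q (f 0)) * (q (f 0) - r (f 0)) * (p (f 0) - r (f 0)) * Φ d = 1 := by
    have := congrArg Φ hdD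
    rwa [map_mul, hι, hΦ, hDe, map_one] at this
  have e0 : ∀ b, Φ (ι (cp m k 0 b)) = p b := fun b => by rw [hι, hΦ, hc]; rfl
  have e1 : ∀ b, Φ (ι (cp m k 1 b)) = q b := fun b => by rw [hι, hΦ, hc]; rfl
  have e2 : ∀ b, Φ (ι (cp m k 2 b)) = r b := fun b => by rw [hι, hΦ, hc]; rfl
  have r1 : ∀ i : Fin N, (p (f i.succ) - q (f i.succ)) = -(algebraMap k Ω (lam (i, 0)) +
      algebraMap k Ω (lam (i, 1)) * (p (f 0) + q (f 0))) * (p (f 0) - q (f 0)) := by
    intro i
    have := h1 (MvPolynomial.X i)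
    rw [hom_shear_CX, hom_shear_CX] at this
    linear_combination this
  have r2 : ∀ i : Fin N, (q (f i.succ) - r (f i.succ)) = -(algebraMap k Ω (lam (i, 0)) +
      algebraMap k Ω (lam (i, 1)) * (q (f 0) + r (f 0))) * (q (f 0) - r (f 0)) := by
    intro i
    have := h2 (MvPolynomial.X i)
    rw [hom_shear_CX, hom_shear_CX] at this
    linear_combination this
  have es : ∀ i, Φ (s i) = -(algebraMap k Ω (lam (i, 0)) +
      algebraMap k Ω (lam (i, 1)) * (p (f 0) + q (f 0))) := by
    intro i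
    simp only [hs, map_mul, map_sub, hg, e0, e1, e2, r1]
    linear_combination (-(algebraMap k Ω (lam (i, 0)) +
      algebraMap k Ω (lam (i, 1)) * (p (f 0) + q (f 0)))) * hΦd
  have et : ∀ i, Φ (t i) = -(algebraMap k Ω (lam (i, 0)) +
      algebraMap k Ω (lam (i, 1)) * (q (f 0) + r (f 0))) := by
    intro i
    simp only [ht, map_mul, map_sub, hg, e0, e1, e2, r2]
    linear_combination (-(algebraMap k Ω (lam (i, 0)) +
      algebraMap k Ω (lam (i, 1)) * (q (f 0) + r (f 0)))) * hΦd
  have el1 : ∀ i, Φ (l1 i) = algebraMap k Ω (lam (i, 1)) := by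
    intro i
    simp only [hl1, map_mul, map_sub, hg, e0, e1, e2, es, et]
    linear_combination (algebraMap k Ω (lam (i, 1))) * hΦd
  have el0 : ∀ i, Φ (l0 i) = algebraMap k Ω (lam (i, 0)) := by
    intro i
    simp only [hl0, map_mul, map_sub, map_neg, map_add, hg, e0, e1, e2, es, el1]
    ring
  refine eval_eq_zero_of (T := Ω) lam P (rel_spec Φ _ P hrel _ ?_)
  rintro ⟨i, j⟩
  by_cases hj : j = 0
  · subst hj
    rw [if_pos rfl, el0]
  · have hj1 : j = 1 := by omega
    subst hj1
    rw [if_neg hj, el1]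

end triple

end Pool.Agent.H71.AAE
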