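import Mathlib

/-! Project AAE (MP_ae801b_ag), module G3, part a: primitive elements with coefficients in a
small infinite field. -/

set_option autoImplicit false

open Polynomial IntermediateField

namespace Pool.Agent.H71.AAE

universe u

section prim

variable {k K E : Type u} [Field k] [Infinite k] [Field K] [Field E] [Algebra k K] [Algebra K E]
  [Algebra k E] [IsScalarTower k K E] [CharZero K]

theorem exists_c (α β : E) (hα : IsIntegral K α) (hβ : IsIntegral K β) :
    ∃ c : k, α ∈ K⟮α + algebraMap k E c * β⟯ ∧ β ∈ K⟮α + algebraMap k E c * β⟯ := by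
  set M := IntermediateField.adjoin K ({α, β} : Set E) with hM
  have hfin : FiniteDimensional K M := by
    refine IntermediateField.finiteDimensional_adjoin (S := ({α, β} : Set E)) ?_
    rintro x (rfl | rfl)
    · exact hα
    · exact hβ
  have hIF : Finite (IntermediateField K M) :=
    Field.finite_intermediateField_of_exists_primitive_element K M
      (Field.exists_primitive_element K M)
  set α' : M := ⟨α, IntermediateField.subset_adjoin _ _ (Set.mem_insert _ _)⟩ with hα'
  set β' : M := ⟨β, IntermediateField.subset_adjoin _ _ (Set.mem_insert_of_mem _ rfl)⟩ with hβ'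
  obtain ⟨c, c', hne, heq⟩ := Finite.exists_ne_map_eq_of_infinite
    (fun c : k => (K⟮α' + algebraMap K M (algebraMap k K c) * β'⟯ : IntermediateField K M))
  set F := K⟮α' + algebraMap K M (algebraMap k K c) * β'⟯ with hF
  have h1 : α' + algebraMap K M (algebraMap k K c) * β' ∈ F := mem_adjoin_simple_self K _
  have h2 : α' + algebraMap K M (algebraMap k K c') * β' ∈ F := by
    rw [heq]
    exact mem_adjoin_simple_self K _
  have h3 : β' ∈ F := by
    have h4 := F.sub_mem h1 h2
    have hne' : algebraMap k K c - algebraMap k K c' ≠ 0 :=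
      sub_ne_zero.2 fun h => hne ((algebraMap k K).injective h)
    have h5 := F.mul_mem (F.algebraMap_mem ((algebraMap k K c - algebraMap k K c')⁻¹)) h4
    convert h5 using 1
    rw [map_inv₀, map_sub]
    have hne'' : algebraMap K M (algebraMap k K c) - algebraMap K M (algebraMap k K c') ≠ 0 := by
      rw [← map_sub]
      exact (map_ne_zero_iff _ (algebraMap K M).injective).2 hne'
    field_simp
    ring
  have h6 : α' ∈ F := by
    have := F.sub_mem h1 (F.mul_mem (F.algebraMap_mem (algebraMap k K c)) h3)
    convert this using 1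
    ring
  have key : ∀ x : M, x ∈ F → (x : E) ∈ K⟮α + algebraMap k E c * β⟯ := by
    intro x hx
    have h7 : M.val x ∈ F.map M.val := ⟨x, hx, rfl⟩
    rw [hF, IntermediateField.adjoin_map, Set.image_singleton] at h7
    have h8 : M.val (α' + algebraMap K M (algebraMap k K c) * β') =
        α + algebraMap k E c * β := by
      rw [map_add, map_mul, IsScalarTower.algebraMap_apply k K E]
      rfl
    rw [h8] at h7
    exact h7
  exact ⟨c, key α' h6, key β' h3⟩

theorem exists_coeffs {m : ℕ} (x : Fin (m + 1) → E) (hx : ∀ j, IsIntegral K (x j)) :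
    ∃ a : Fin (m + 1) → k, a 0 = 1 ∧ ∀ j, x j ∈ K⟮∑ i, algebraMap k E (a i) * x i⟯ := by
  induction m with
  | zero =>
    refine ⟨fun _ => 1, rfl, fun j => ?_⟩
    have hj : j = 0 := by omega
    subst hj
    have : ∑ i : Fin (0 + 1), algebraMap k E 1 * x i = x 0 := by
      rw [Fin.sum_univ_succ]
      simp
    rw [this]
    exact mem_adjoin_simple_self K _
  | succ m ih =>
    obtain ⟨a, ha0, ha⟩ := ih (fun i => x i.castSucc) (fun j => hx _)
    set y := ∑ i, algebraMap k E (a i) * x i.castSucc with hy
    have hyi : IsIntegral K y := by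
      refine IsIntegral.sum _ fun i _ => ?_
      refine IsIntegral.mul ?_ (hx _)
      rw [IsScalarTower.algebraMap_apply k K E]
      exact isIntegral_algebraMap
    obtain ⟨c, hc1, hc2⟩ := exists_c (k := k) y (x (Fin.last (m + 1))) hyi (hx _)
    refine ⟨Fin.snoc a c, ?_, fun j => ?_⟩
    · have : (0 : Fin (m + 2)) = Fin.castSucc 0 := rfl
      rw [this, Fin.snoc_castSucc, ha0]
    · have h1 : ∑ i : Fin (m + 1 + 1), algebraMap k E ((Fin.snoc a c : Fin (m + 2) → k) i) * x i =
          y + algebraMap k E c * x (Fin.last (m + 1)) := by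
        rw [Fin.sum_univ_castSucc]
        simp only [Fin.snoc_castSucc, Fin.snoc_last]
        rfl
      rw [h1]
      refine Fin.lastCases ?_ (fun j => ?_) j
      · exact hc2
      · have h2 := ha j
        have h3 : K⟮y⟯ ≤ K⟮y + algebraMap k E c * x (Fin.last (m + 1))⟯ := by
          rw [IntermediateField.adjoin_simple_le_iff]
          exact hc1
        exact h3 h2

end prim

end Pool.Agent.H71.AAE
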