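import Mathlib
import Pool.Agent.H71.AAE.Defs
import Pool.Agent.H71.AAE.H2
import Pool.Agent.H71.AAE.G3a

/-! Project AAE (MP_ae801b_ag), module G3, part b: generic primitive element. -/

set_option autoImplicit false

open Polynomial IntermediateField

namespace Pool.Agent.H71.AAE

universe u

theorem den_frac (R : Type u) [CommRing R] [IsDomain R] :
    Den (⊥ : Ideal R) (algebraMap R (FractionRing R)) (RingHom.id R) := by
  intro b
  obtain ⟨⟨x, s⟩, h⟩ := IsLocalization.surj (nonZeroDivisors R) b
  refine ⟨s, ?_, ?_⟩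
  · rw [Ideal.mem_bot]
    exact nonZeroDivisors.coe_ne_zero s
  · rintro t ⟨c, rfl⟩
    refine ⟨x * c, ?_⟩
    rw [map_mul, ← h]
    simp only [RingHom.id_apply, map_mul]
    ring

theorem exists_gen {k L : Type u} [Field k] [CharZero k] [CommRing L] [IsDomain L] [Algebra k L]
    {τ : Type} (lam : τ → L) (hlam : AlgebraicIndependent k lam)
    {m : ℕ} (x : Fin (m + 1) → L)
    (hx : ∀ j, ∃ F : (MvPolynomial τ k)[X], F ≠ 0 ∧
      eval₂ (MvPolynomial.aeval lam : MvPolynomial τ k →ₐ[k] L).toRingHom (x j) F = 0) :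
    ∃ a : Fin (m + 1) → k, a 0 = 1 ∧ ∃ P : MvPolynomial τ k, P ≠ 0 ∧
      ∃ Q : Fin (m + 1) → (MvPolynomial τ k)[X], ∃ H : (MvPolynomial τ k)[X], ∃ n : ℕ,
        H.natDegree ≤ n ∧ H.coeff n = P ∧
        eval₂ (MvPolynomial.aeval lam : MvPolynomial τ k →ₐ[k] L).toRingHom
          (∑ i, algebraMap k L (a i) * x i) H = 0 ∧
        ∀ j, MvPolynomial.aeval lam P * x j =
          eval₂ (MvPolynomial.aeval lam : MvPolynomial τ k →ₐ[k] L).toRingHom
            (∑ i, algebraMap k L (a i) * x i) (Q j) := by
  set ψ : MvPolynomial τ k →+* L :=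
    (MvPolynomial.aeval lam : MvPolynomial τ k →ₐ[k] L).toRingHom with hψ
  have hψi : Function.Injective ψ := hlam
  set ε : L →+* FractionRing L := algebraMap L (FractionRing L) with hε
  have hεi : Function.Injective ε := IsFractionRing.injective L (FractionRing L)
  set φ : MvPolynomial τ k →+* FractionRing (MvPolynomial τ k) :=
    algebraMap (MvPolynomial τ k) (FractionRing (MvPolynomial τ k)) with hφ
  have hφi : Function.Injective φ := IsFractionRing.injective _ _
  have hinj : Function.Injective (ε.comp ψ) := hεi.comp hψi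
  set j : FractionRing (MvPolynomial τ k) →+* FractionRing L := IsFractionRing.lift hinj with hj
  have hjφ : ∀ r, j (φ r) = ε (ψ r) := fun r => IsFractionRing.lift_algebraMap hinj r
  let _ : Algebra (FractionRing (MvPolynomial τ k)) (FractionRing L) := j.toAlgebra
  have hst : IsScalarTower k (FractionRing (MvPolynomial τ k)) (FractionRing L) := by
    refine IsScalarTower.of_algebraMap_eq fun c => ?_
    show _ = j (algebraMap k (FractionRing (MvPolynomial τ k)) c)
    rw [IsScalarTower.algebraMap_apply k (MvPolynomial τ k) (FractionRing (MvPolynomial τ k)),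
      hjφ, IsScalarTower.algebraMap_apply k L (FractionRing L)]
    congr 1
    show _ = MvPolynomial.aeval lam (algebraMap k (MvPolynomial τ k) c)
    rw [AlgHom.commutes]
  have hcz : CharZero (FractionRing (MvPolynomial τ k)) :=
    charZero_of_injective_algebraMap (algebraMap k (FractionRing (MvPolynomial τ k))).injective
  have hev : ∀ (F : (MvPolynomial τ k)[X]) (z : L),
      ε (eval₂ ψ z F) = aeval (ε z) (F.map φ) := by
    intro F z
    rw [Polynomial.aeval_def, Polynomial.eval₂_map, Polynomial.hom_eval₂]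
    have : ε.comp ψ = (algebraMap (FractionRing (MvPolynomial τ k)) (FractionRing L)).comp φ :=
      RingHom.ext fun r => (hjφ r).symm
    rw [this]
  have hint : ∀ i, IsIntegral (FractionRing (MvPolynomial τ k)) (ε (x i)) := by
    intro i
    obtain ⟨F, hF, h0⟩ := hx i
    have h1 : IsAlgebraic (FractionRing (MvPolynomial τ k)) (ε (x i)) := by
      refine ⟨F.map φ, ?_, ?_⟩
      · rwa [Ne, Polynomial.map_eq_zero_iff hφi]
      · rw [← hev, h0, map_zero]
    exact h1.isIntegral
  obtain ⟨a, ha0, ha⟩ := exists_coeffs (k := k) (K := FractionRing (MvPolynomial τ k))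
    (fun i => ε (x i)) hint
  set y : L := ∑ i, algebraMap k L (a i) * x i with hy
  have hy' : ∑ i, algebraMap k (FractionRing L) (a i) * ε (x i) = ε y := by
    rw [hy, map_sum]
    refine Finset.sum_congr rfl fun i _ => ?_
    rw [map_mul, IsScalarTower.algebraMap_apply k L (FractionRing L)]
  rw [hy'] at ha
  have hyi : IsIntegral (FractionRing (MvPolynomial τ k)) (ε y) := by
    rw [← hy']
    refine IsIntegral.sum _ fun i _ => IsIntegral.mul ?_ (hint i)
    rw [IsScalarTower.algebraMap_apply k (FractionRing (MvPolynomial τ k)) (FractionRing L)]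
    exact isIntegral_algebraMap
  have hQ : ∀ i, ∃ Q : (FractionRing (MvPolynomial τ k))[X], aeval (ε y) Q = ε (x i) := by
    intro i
    have h1 := ha i
    rw [← IntermediateField.mem_toSubalgebra,
      IntermediateField.adjoin_simple_toSubalgebra_of_isAlgebraic hyi.isAlgebraic,
      Algebra.adjoin_singleton_eq_range_aeval] at h1
    obtain ⟨Q, hQ⟩ := h1
    exact ⟨Q, hQ⟩
  choose Q₀ hQ₀ using hQ
  set H₀ := minpoly (FractionRing (MvPolynomial τ k)) (ε y) with hH₀
  have hH₀m : H₀.Monic := minpoly.monic hyi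
  have hden := (den_frac (MvPolynomial τ k)).poly
  choose s hs hs' using fun i => hden (Q₀ i)
  obtain ⟨t, ht, ht'⟩ := hden H₀
  set P := (∏ i, s i) * t with hP
  have hP0 : P ≠ 0 := by
    refine mul_ne_zero (Finset.prod_ne_zero_iff.2 fun i _ => ?_) ?_
    · exact fun h => hs i (by rw [h]; exact Ideal.zero_mem _)
    · exact fun h => ht (by rw [h]; exact Ideal.zero_mem _)
  choose Q hQ using fun i => hs' i P ((Finset.dvd_prod_of_mem s (Finset.mem_univ i)).trans
    (dvd_mul_right _ _))
  obtain ⟨H, hH⟩ := ht' P (dvd_mul_left _ _)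
  simp only [RingHom.comp_apply, RingHom.id_apply, coe_mapRingHom, Polynomial.map_C] at hH
  simp only [RingHom.comp_apply, RingHom.id_apply, coe_mapRingHom, Polynomial.map_C] at hQ
  refine ⟨a, ha0, P, hP0, Q, H, H₀.natDegree, ?_, ?_, ?_, ?_⟩
  · have h1 : (H.map φ).natDegree = H.natDegree := natDegree_map_eq_of_injective hφi H
    rw [← h1, hH]
    exact natDegree_C_mul_le _ _
  · apply hφi
    rw [← Polynomial.coeff_map, hH, coeff_C_mul, Polynomial.coeff_natDegree, hH₀m, mul_one]
  · apply hεi
    rw [hev, hH, map_mul, hH₀, minpoly.aeval, mul_zero, map_zero]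
  · intro i
    apply hεi
    have h1 : aeval (ε y) (C (φ P) * Q₀ i) =
        algebraMap (FractionRing (MvPolynomial τ k)) (FractionRing L) (φ P) * ε (x i) := by
      rw [map_mul, hQ₀, aeval_C]
    rw [hev, hQ]
    show _ = aeval (ε y) (C (φ P) * Q₀ i)
    rw [h1, map_mul]
    congr 1
    exact (hjφ P).symm

end Pool.Agent.H71.AAE
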