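import Mathlib
import Pool.Agent.H71.AAE.Defs
import Pool.Agent.H71.AAE.G1a
import Pool.Agent.H71.AAE.G0
import Pool.Agent.H71.AAE.G1b
import Pool.Agent.H71.AAE.G3b

/-! Project AAE (MP_ae801b_ag), module G3, part c: curvilinear double points. -/

set_option autoImplicit false

open Polynomial

namespace Pool.Agent.H71.AAE

universe u

variable {k : Type u} [Field k] {N m : ℕ}

/-- variables: two points and the quadratic parameters -/
abbrev Dbl (N m : ℕ) : Type := (Fin (m + 1) ⊕ Fin (m + 1)) ⊕ Fin N

/-- first point -/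
noncomputable def dp (k : Type u) [Field k] (N m : ℕ) :
    MvPolynomial (Fin (m + 1)) k →ₐ[k] MvPolynomial (Dbl N m) k :=
  MvPolynomial.rename fun l => Sum.inl (Sum.inl l)

/-- second point -/
noncomputable def dq (k : Type u) [Field k] (N m : ℕ) :
    MvPolynomial (Fin (m + 1)) k →ₐ[k] MvPolynomial (Dbl N m) k :=
  MvPolynomial.rename fun l => Sum.inl (Sum.inr l)

/-- the difference of the last coordinate -/
noncomputable def dδ (f : Fin (N + 1) → MvPolynomial (Fin (m + 1)) k) :
    MvPolynomial (Dbl N m) k := dp k N m (f 0) - dq k N m (f 0)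

/-- the generic parameters -/
noncomputable def dlam (f : Fin (N + 1) → MvPolynomial (Fin (m + 1)) k)
    (x : Fin N × Fin 2) : Localization.Away (dδ f) :=
  if x.2 = 0 then
    -algebraMap _ _ (dp k N m (f x.1.succ) - dq k N m (f x.1.succ)) *
      IsLocalization.Away.invSelf (dδ f) -
      algebraMap (MvPolynomial (Dbl N m) k) _ (MvPolynomial.X (Sum.inr x.1)) *
        algebraMap _ _ (dp k N m (f 0) + dq k N m (f 0))
  else algebraMap (MvPolynomial (Dbl N m) k) _ (MvPolynomial.X (Sum.inr x.1))

theorem spec_double (f : Fin (N + 1) → MvPolynomial (Fin (m + 1)) k) (lam : Fin N × Fin 2 → k)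
    (T : Type u) [CommRing T] [Algebra k T] (p q : MvPolynomial (Fin (m + 1)) k →ₐ[k] T)
    (hu : IsUnit (p (f 0) - q (f 0)))
    (h : ∀ ρ, p (shear f lam (C ρ)) = q (shear f lam (C ρ))) :
    ∃ Φ : Localization.Away (dδ f) →ₐ[k] T, (∀ x, Φ (dlam f x) = algebraMap k T (lam x)) ∧
      ∀ b, Φ (algebraMap _ _ (dp k N m b)) = p b := by
  set x : Dbl N m → T := Sum.elim (Sum.elim (fun j => p (MvPolynomial.X j))
    (fun j => q (MvPolynomial.X j))) (fun i => algebraMap k T (lam (i, 1))) with hx
  have hp : ∀ b, MvPolynomial.aeval x (dp k N m b) = p b := by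
    intro b
    have : (MvPolynomial.aeval x).comp (dp k N m) = p := by
      apply MvPolynomial.algHom_ext
      intro i
      simp [dp, hx]
    exact congrArg (fun g => g b) this
  have hq : ∀ b, MvPolynomial.aeval x (dq k N m b) = q b := by
    intro b
    have : (MvPolynomial.aeval x).comp (dq k N m) = q := by
      apply MvPolynomial.algHom_ext
      intro i
      simp [dq, hx]
    exact congrArg (fun g => g b) this
  have hδ : MvPolynomial.aeval x (dδ f) = p (f 0) - q (f 0) := by
    rw [dδ, map_sub, hp, hq]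
  obtain ⟨Φ, hΦ⟩ := spec (dδ f) (T := T) x (by rwa [hδ])
  have hΦd : (p (f 0) - q (f 0)) * Φ (IsLocalization.Away.invSelf (dδ f)) = 1 := by
    have := congrArg Φ (IsLocalization.Away.mul_invSelf (S := Localization.Away (dδ f)) (dδ f))
    rwa [map_mul, hΦ, map_one, hδ] at this
  refine ⟨Φ, ?_, fun b => by rw [hΦ, hp]⟩
  rintro ⟨i, j⟩
  have h1 : Φ (algebraMap (MvPolynomial (Dbl N m) k) _ (MvPolynomial.X (Sum.inr i))) = algebraMap k T (lam (i, 1)) := by
    rw [hΦ, MvPolynomial.aeval_X]
    rfl
  by_cases hj : j = 0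
  · subst hj
    rw [dlam, if_pos rfl, map_sub, map_mul, map_mul, map_neg, hΦ, h1, hΦ, map_sub, map_add, hp,
      hp, hq, hq]
    have h2 := h (MvPolynomial.X i)
    rw [hom_shear_CX, hom_shear_CX] at h2
    linear_combination (-Φ (IsLocalization.Away.invSelf (dδ f))) * h2 +
      (algebraMap k T (lam (i, 0)) +
        algebraMap k T (lam (i, 1)) * (p (f 0) + q (f 0))) * hΦd
  · have hj1 : j = 1 := by omega
    subst hj1
    rw [dlam, if_neg hj, h1]

theorem option_eval {L : Type u} [CommRing L] [Algebra k L] {τ : Type} (lam : τ → L) (x : L)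
    (F : MvPolynomial (Option τ) k) :
    eval₂ (MvPolynomial.aeval lam : MvPolynomial τ k →ₐ[k] L).toRingHom x
      (MvPolynomial.optionEquivLeft k τ F) =
    MvPolynomial.aeval (fun o : Option τ => o.elim x lam) F := by
  have h : ((Polynomial.eval₂RingHom
      (MvPolynomial.aeval lam : MvPolynomial τ k →ₐ[k] L).toRingHom x).comp
      (MvPolynomial.optionEquivLeft k τ : MvPolynomial (Option τ) k →+*
        (MvPolynomial τ k)[X])) =
      (MvPolynomial.aeval (fun o : Option τ => o.elim x lam) :
        MvPolynomial (Option τ) k →ₐ[k] L).toRingHom := by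
    apply MvPolynomial.ringHom_ext
    · intro r
      simp
    · intro i
      rcases i with _ | i
      · simp
      · simp
  exact congrArg (fun g => g F) h

theorem generic_double [CharZero k] (hNm : 2 * (m + 1) ≤ N)
    (f : Fin (N + 1) → MvPolynomial (Fin (m + 1)) k) :
    ∃ P : MvPolynomial (Fin N × Fin 2) k, P ≠ 0 ∧ ∀ lam : Fin N × Fin 2 → k,
      MvPolynomial.eval lam P ≠ 0 → ∃ a : Fin (m + 1) → k, a 0 = 1 ∧
      ∃ Q : Fin (m + 1) → k[X], ∃ H : k[X], H.Monic ∧ (2 * (m + 1) < N → H = 1) ∧
      ∀ (T : Type u) [CommRing T] [Algebra k T] (p q : MvPolynomial (Fin (m + 1)) k →ₐ[k] T),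
      IsUnit (p (f 0) - q (f 0)) → (∀ ρ, p (shear f lam (C ρ)) = q (shear f lam (C ρ))) →
      (∀ j, p (MvPolynomial.X j) = aeval (p (lin a)) (Q j)) ∧ aeval (p (lin a)) H = 0 := by
  by_cases hcase : ∃ P : MvPolynomial (Fin N × Fin 2) k, P ≠ 0 ∧
      MvPolynomial.aeval (dlam f) P = 0
  · obtain ⟨P, hP, hrel⟩ := hcase
    refine ⟨P, hP, fun lam hlam => ⟨Pi.single 0 1, Pi.single_eq_same _ _, fun _ => 0, 1,
      monic_one, fun _ => rfl, ?_⟩⟩
    intro T _ _ p q hu h
    obtain ⟨Φ, hΦ, _⟩ := spec_double f lam T p q hu h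
    have hT : Subsingleton T := by
      by_contra hns
      rw [not_subsingleton_iff_nontrivial] at hns
      exact hlam (eval_eq_zero_of (T := T) lam P (rel_spec Φ _ P hrel _ hΦ))
    exact ⟨fun j => Subsingleton.elim _ _, Subsingleton.elim _ _⟩
  · push Not at hcase
    have hindep : AlgebraicIndependent k (dlam f) := by
      rw [algebraicIndependent_iff]
      intro P hP
      by_contra h0
      exact hcase P h0 hP
    have hN : N = 2 * (m + 1) := by
      by_contra hne
      obtain ⟨P, hP, hrel⟩ := exists_rel (k := k) (σ := Dbl N m) (τ := Fin N × Fin 2)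
        (by simp; omega) (dδ f) (dlam f)
      exact hcase P hP hrel
    have hδ : dδ f ≠ 0 := by
      intro h0
      have : Subsingleton (Localization.Away (dδ f)) := by
        apply IsLocalization.subsingleton (M := Submonoid.powers (dδ f))
        exact ⟨1, by simp [h0]⟩
      exact hcase 1 one_ne_zero (Subsingleton.elim _ _)
    have hdom : IsDomain (Localization.Away (dδ f)) :=
      IsLocalization.isDomain_of_le_nonZeroDivisors (M := Submonoid.powers (dδ f)) _
        (powers_le_nonZeroDivisors_of_noZeroDivisors hδ)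
    have hx : ∀ j : Fin (m + 1), ∃ F : (MvPolynomial (Fin N × Fin 2) k)[X], F ≠ 0 ∧
        eval₂ (MvPolynomial.aeval (dlam f) :
          MvPolynomial (Fin N × Fin 2) k →ₐ[k] Localization.Away (dδ f)).toRingHom
          (algebraMap _ _ (dp k N m (MvPolynomial.X j))) F = 0 := by
      intro j
      obtain ⟨F, hF, hrel⟩ := exists_rel (k := k) (σ := Dbl N m) (τ := Option (Fin N × Fin 2))
        (by simp; omega) (dδ f)
        (fun o => o.elim (algebraMap _ _ (dp k N m (MvPolynomial.X j))) (dlam f))
      refine ⟨MvPolynomial.optionEquivLeft k _ F, ?_, ?_⟩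
      · rwa [Ne, map_eq_zero_iff _ (MvPolynomial.optionEquivLeft k _).injective]
      · rw [option_eval, hrel]
    obtain ⟨a, ha0, P, hP, Q, H, n, hHn, hHP, hH0, hQ⟩ := exists_gen (dlam f) hindep
      (fun j : Fin (m + 1) => algebraMap _ (Localization.Away (dδ f))
        (dp k N m (MvPolynomial.X j))) hx
    refine ⟨P, hP, fun lam hlam => ⟨a, ha0,
      fun j => C (MvPolynomial.eval lam P)⁻¹ * (Q j).map (MvPolynomial.eval lam),
      C (MvPolynomial.eval lam P)⁻¹ * H.map (MvPolynomial.eval lam), ?_, ?_, ?_⟩⟩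
    · refine Polynomial.monic_of_natDegree_le_of_coeff_eq_one n ?_ ?_
      · exact (natDegree_C_mul_le _ _).trans (natDegree_map_le.trans hHn)
      · rw [coeff_C_mul, coeff_map, hHP, inv_mul_cancel₀ hlam]
    · intro hlt
      omega
    · intro T _ _ p q hu h
      obtain ⟨Φ, hΦ, hΦp⟩ := spec_double f lam T p q hu h
      have hy : Φ (∑ i, algebraMap k (Localization.Away (dδ f)) (a i) *
          algebraMap _ (Localization.Away (dδ f)) (dp k N m (MvPolynomial.X i))) =
          p (lin a) := by
        rw [map_sum, lin, map_sum]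
        refine Finset.sum_congr rfl fun i _ => ?_
        rw [map_mul, map_mul, hΦp, AlgHom.commutes, ← MvPolynomial.algebraMap_eq,
          AlgHom.commutes]
      have hψ : ((Φ : Localization.Away (dδ f) →+* T).comp (MvPolynomial.aeval (dlam f) :
          MvPolynomial (Fin N × Fin 2) k →ₐ[k] Localization.Away (dδ f)).toRingHom) =
          (algebraMap k T).comp (MvPolynomial.eval lam) := by
        apply MvPolynomial.ringHom_ext
        · intro r
          simp
        · intro i
          simp [hΦ]
      have hev : ∀ F : (MvPolynomial (Fin N × Fin 2) k)[X],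
          Φ (eval₂ (MvPolynomial.aeval (dlam f) :
            MvPolynomial (Fin N × Fin 2) k →ₐ[k] Localization.Away (dδ f)).toRingHom
          (∑ i, algebraMap k (Localization.Away (dδ f)) (a i) *
            algebraMap _ (Localization.Away (dδ f)) (dp k N m (MvPolynomial.X i))) F) =
          aeval (p (lin a)) (F.map (MvPolynomial.eval lam)) := by
        intro F
        have h1 := Polynomial.hom_eval₂ F (MvPolynomial.aeval (dlam f) :
            MvPolynomial (Fin N × Fin 2) k →ₐ[k] Localization.Away (dδ f)).toRingHom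
            (Φ : Localization.Away (dδ f) →+* T)
            (∑ i, algebraMap k (Localization.Away (dδ f)) (a i) *
            algebraMap _ (Localization.Away (dδ f)) (dp k N m (MvPolynomial.X i)))
        rw [hψ] at h1
        rw [Polynomial.aeval_def, Polynomial.eval₂_map, ← hy]
        exact h1
      have hc : algebraMap k T (MvPolynomial.eval lam P)⁻¹ *
          algebraMap k T (MvPolynomial.eval lam P) = 1 := by
        rw [← map_mul, inv_mul_cancel₀ hlam, map_one]
      constructor
      · intro j
        rw [map_mul, ← hev, ← hQ, map_mul, hΦp, aeval_C]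
        have h2 := congrArg (fun g => g P) hψ
        have h3 : Φ (MvPolynomial.aeval (dlam f) P) =
            algebraMap k T (MvPolynomial.eval lam P) := h2
        rw [h3, ← mul_assoc, hc, one_mul]
      · rw [map_mul, ← hev, hH0, map_zero, mul_zero]

end Pool.Agent.H71.AAE
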