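import Mathlib
import Pool.Agent.H71.AAE.Defs
import Pool.Agent.H71.AAE.M1
import Pool.Agent.H71.AAE.M2
import Pool.Agent.H71.AAE.M3
import Pool.Agent.H71.AAE.M4

/-! # AAE, module M, part 5: the first generator -/

set_option autoImplicit false

open Polynomial

namespace Pool.Agent.H71.AAE

universe u

section First

variable {k : Type u} [Field k] {N m : ℕ}

theorem phi'_congr (φ : (MvPolynomial (Fin N) k)[X] →ₐ[k] MvPolynomial (Fin m) k)
    {s s' : MvPolynomial (Fin N) k} (h : φ (C s) = φ (C s')) : phi' φ s = phi' φ s' := by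
  unfold phi'
  rw [h]

theorem uu_congr (φ : (MvPolynomial (Fin N) k)[X] →ₐ[k] MvPolynomial (Fin m) k)
    {s s' : MvPolynomial (Fin N) k} (h : φ (C s) = φ (C s')) : uu φ s = uu φ s' := by
  unfold uu
  rw [h]

/-- Choice of the monic generator `a₁` and of the remaining ones. -/
theorem first_gen (hN : N = 2 * (m + 2))
    (φ : (MvPolynomial (Fin N) k)[X] →ₐ[k] MvPolynomial (Fin (m + 2)) k)
    (hφ : Function.Surjective φ)
    (hS : ∀ b, ∃ α β : MvPolynomial (Fin N) k, b = φ (C α) + φ (C β) * φ X)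
    (s p : MvPolynomial (Fin N) k) (hg : φ X ^ 2 = φ (C s) * φ X - φ (C p))
    (hu0 : uu φ s ≠ 0) (hu : Ideal.span {uu φ s} ⊔ cond φ = ⊤) :
    ∃ s₁ p₁ : MvPolynomial (Fin N) k, φ (C s₁) = φ (C s) ∧ φ (C p₁) = φ (C p) ∧
      ∃ w : Fin (m + 2) → (MvPolynomial (Fin N) k)[X], (∀ i, φ (w i) = 0) ∧
        φ (derivative (w 0)) = 1 ∧ (∀ j : Fin (m + 1), φ (derivative (w j.succ)) = 0) ∧
        RingHom.ker φ ≤ (Ideal.span {aa s₁ p₁} ⊔ Ideal.span (Set.range w)) ⊔
          (RingHom.ker φ) ^ 2 := by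
  -- 1 = t u + β
  have h1 : (1 : MvPolynomial (Fin (m + 2)) k) ∈ Ideal.span {uu φ s} ⊔ cond φ :=
    hu ▸ Submodule.mem_top
  obtain ⟨x, hx, β, hβ, hxβ⟩ := Submodule.mem_sup.1 h1
  obtain ⟨t, rfl⟩ := Ideal.mem_span_singleton'.1 hx
  obtain ⟨hb, hb1, hb2, hb3⟩ := theta_surj (s := s) hβ
  obtain ⟨βR, hβR⟩ := hβ 1
  rw [mul_one] at hβR
  obtain ⟨T, hT⟩ := hφ t
  have haa : φ (derivative (aa s p)) = -uu φ s := by
    have := derivative_decomp (φ := φ) (s := s) (p := p) 1 0 0 hg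
    simpa using this
  have haa0 : φ (aa s p) = 0 := phi_aa hg
  -- the element `e₀`
  obtain ⟨e, he⟩ : ∃ e, e = hb - T * aa s p := ⟨_, rfl⟩
  have he0 : φ e = 0 := by rw [he, map_sub, map_mul, hb1, haa0]; ring
  have he1 : φ (derivative e) = 1 := by
    rw [he, derivative_sub, derivative_mul, map_sub, map_add, map_mul, map_mul, haa, haa0, hb3, hT]
    linear_combination hxβ
  obtain ⟨kk, hk0, hk1, hk2⟩ := conormal_gens hN φ hφ he0 he1
  obtain ⟨V, hV⟩ : ∃ V : (MvPolynomial (Fin N) k)[X], V = C s - 2 * X := ⟨_, rfl⟩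
  have hVφ : φ V = uu φ s := by
    rw [hV, map_sub, map_mul]
    unfold uu
    have : φ (2 : (MvPolynomial (Fin N) k)[X]) = 2 := map_ofNat φ 2
    rw [this]
  obtain ⟨κ, hκ⟩ : ∃ κ, κ = aa s p + V * e := ⟨_, rfl⟩
  have hκ0 : φ κ = 0 := by rw [hκ, map_add, map_mul, haa0, he0]; ring
  have hκ1 : φ (derivative κ) = 0 := by
    rw [hκ, derivative_add, derivative_mul, map_add, map_add, map_mul, map_mul, haa, he0, he1, hVφ]
    ring
  obtain ⟨x, hx'⟩ : ∃ x, x = C βR * (kk 0 - κ) := ⟨_, rfl⟩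
  have hx0 : φ x = 0 := by rw [hx', map_mul, map_sub, hk0, hκ0]; ring
  have hx1 : φ (derivative x) = 0 := by
    rw [hx', derivative_mul, map_add, map_mul, map_mul, derivative_sub, map_sub, map_sub, hk0, hκ0,
      hk1, hκ1]
    ring
  obtain ⟨β₁, hβ₁, hβ₁', _⟩ := theta_exists (s := s) hg hS (h := kk 0 - κ)
    (by rw [map_sub, hk0, hκ0, sub_self])
  have hx2 : phi' φ s x = uu φ s * (β * β₁) := by
    rw [hx', map_mul, phi'_C, hβR, hβ₁']
    ring
  obtain ⟨ν, ν', hν, hν', hxν⟩ := exists_nu hg hu0 hS hu hx0 hx1 hx2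
    (by rw [pow_two]; exact Ideal.mul_mem_mul hβ hβ₁)
  refine ⟨s - ν, p + ν', ?_, ?_, Fin.cons (e - T * (κ - kk 0)) (fun j => kk j.succ), ?_, ?_, ?_, ?_⟩
  · rw [C_sub, map_sub, hν, sub_zero]
  · rw [C_add, map_add, hν', add_zero]
  · intro i
    refine Fin.cases ?_ (fun j => ?_) i
    · rw [Fin.cons_zero, map_sub, map_mul, map_sub, he0, hκ0, hk0]
      ring
    · rw [Fin.cons_succ, hk0]
  · rw [Fin.cons_zero, derivative_sub, derivative_mul, derivative_sub, map_sub, map_add, map_mul,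
      map_mul, map_sub, map_sub, he1, hκ0, hκ1, hk0, hk1]
    ring
  · intro j
    rw [Fin.cons_succ, hk1]
  · -- generation
    set w : Fin (m + 2) → (MvPolynomial (Fin N) k)[X] :=
      Fin.cons (e - T * (κ - kk 0)) (fun j => kk j.succ) with hw
    set I := RingHom.ker φ with hI
    set J := (Ideal.span {aa (s - ν) (p + ν')} ⊔ Ideal.span (Set.range w)) ⊔ I ^ 2 with hJ
    have hJ2 : ∀ {x}, x ∈ I ^ 2 → x ∈ J := fun hx => Ideal.mem_sup_right hx
    have hJa : aa (s - ν) (p + ν') ∈ J :=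
      Ideal.mem_sup_left (Ideal.mem_sup_left (Ideal.mem_span_singleton_self _))
    have hJw : ∀ i, w i ∈ J := fun i =>
      Ideal.mem_sup_left (Ideal.mem_sup_right (Ideal.subset_span ⟨i, rfl⟩))
    have hw0 : w 0 = e - T * (κ - kk 0) := rfl
    have hws : ∀ j : Fin (m + 1), w j.succ = kk j.succ := fun j => rfl
    have haa1 : aa (s - ν) (p + ν') = aa s p + (C ν * X + C ν') := by
      unfold aa
      rw [C_sub, C_add]
      ring
    -- kk 0
    have hk0J : kk 0 ∈ J := by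
      have h2 : kk 0 = aa (s - ν) (p + ν') + V * w 0 + (x - (C ν * X + C ν')) -
          (C βR + V * T - 1) * (kk 0 - κ) := by
        rw [haa1, hw0, hx', hκ]
        ring
      rw [h2]
      refine Ideal.sub_mem _ (Ideal.add_mem _ (Ideal.add_mem _ hJa (Ideal.mul_mem_left _ _ (hJw 0)))
        (hJ2 hxν)) (hJ2 ?_)
      rw [pow_two]
      apply Ideal.mul_mem_mul
      · rw [hI, RingHom.mem_ker, map_sub, map_add, map_mul, hβR, hVφ, hT, map_one]
        linear_combination hxβ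
      · rw [hI, RingHom.mem_ker, map_sub, hk0, hκ0, sub_self]
    have hkJ : ∀ i, kk i ∈ J := by
      intro i
      refine Fin.cases hk0J (fun j => ?_) i
      rw [← hws]
      exact hJw _
    have hκJ : κ ∈ J := by
      obtain ⟨t', ti, ht⟩ := hk2 κ hκ0
      have h3 : φ t' = 0 := by
        have h4 := derivative_sq (φ := φ) ht
        rw [derivative_sub, derivative_add, derivative_mul, derivative_sum, map_sub, map_add,
          map_add, map_mul, map_mul, map_sum, hκ1, he0, he1] at h4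
        have h5 : ∀ i, φ (derivative (ti i * kk i)) = 0 := by
          intro i
          rw [derivative_mul, map_add, map_mul, map_mul, hk0, hk1]
          ring
        simp only [h5, Finset.sum_const_zero] at h4
        linear_combination -h4
      have h6 : κ = (κ - (t' * e + ∑ i, ti i * kk i)) + (t' * e + ∑ i, ti i * kk i) := by ring
      rw [h6]
      refine Ideal.add_mem _ (hJ2 ht) (Ideal.add_mem _ (hJ2 ?_) (Ideal.sum_mem _ fun i _ =>
        Ideal.mul_mem_left _ _ (hkJ i)))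
      rw [pow_two]
      exact Ideal.mul_mem_mul (RingHom.mem_ker.2 h3) (RingHom.mem_ker.2 he0)
    have heJ : e ∈ J := by
      have h7 : e = w 0 + T * (κ - kk 0) := by rw [hw0]; ring
      rw [h7]
      exact Ideal.add_mem _ (hJw 0) (Ideal.mul_mem_left _ _ (Ideal.sub_mem _ hκJ hk0J))
    intro h hh
    obtain ⟨t', ti, ht⟩ := hk2 h (RingHom.mem_ker.1 hh)
    have h6 : h = (h - (t' * e + ∑ i, ti i * kk i)) + (t' * e + ∑ i, ti i * kk i) := by ring
    rw [h6]
    exact Ideal.add_mem _ (hJ2 ht) (Ideal.add_mem _ (Ideal.mul_mem_left _ _ heJ)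
      (Ideal.sum_mem _ fun i _ => Ideal.mul_mem_left _ _ (hkJ i)))

end First

end Pool.Agent.H71.AAE
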