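import Mathlib
import Pool.Agent.H71.AAE.Defs
import Pool.Agent.H71.AAE.E
import Pool.Agent.H71.AAE.M1
import Pool.Agent.H71.AAE.M2
import Pool.Agent.H71.AAE.M3
import Pool.Agent.H71.AAE.M4
import Pool.Agent.H71.AAE.M5

/-! # AAE, module M, part 6: the main argument -/

set_option autoImplicit false

open Polynomial

namespace Pool.Agent.H71.AAE

universe u



theorem finite_quot {k : Type u} [Field k] {m : ℕ} (P : k[X]) (hP : P ≠ 0) :
    Module.Finite k (MvPolynomial (Fin (m + 1)) k ⧸ (cP P : Ideal (MvPolynomial (Fin (m + 1)) k))) := by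
  have h1 : Module.Finite k (k[X] ⧸ Ideal.span {P}) := (AdjoinRoot.powerBasis hP).finite
  let f : k[X] →ₐ[k] (MvPolynomial (Fin (m + 1)) k ⧸ (cP P : Ideal (MvPolynomial (Fin (m + 1)) k))) :=
    (Ideal.Quotient.mkₐ k (cP P)).comp (aeval (MvPolynomial.X 0))
  have hf : ∀ x ∈ Ideal.span {P}, f x = 0 := by
    intro x hx
    obtain ⟨q, rfl⟩ := Ideal.mem_span_singleton'.1 hx
    show Ideal.Quotient.mk (cP P) _ = 0
    rw [Ideal.Quotient.eq_zero_iff_mem]
    show (aeval (MvPolynomial.X 0)) (q * P) ∈ cP P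
    rw [mem_cP_iff, ev0_aeval]
    exact dvd_mul_left P q
  let F := Ideal.Quotient.liftₐ (Ideal.span {P}) f hf
  have hF : Function.Surjective F := by
    intro y
    obtain ⟨b, rfl⟩ := Ideal.Quotient.mk_surjective y
    refine ⟨Ideal.Quotient.mk _ (ev0 b), ?_⟩
    show f (ev0 b) = _
    show Ideal.Quotient.mk (cP P) (aeval (MvPolynomial.X 0) (ev0 b)) = Ideal.Quotient.mk (cP P) b
    rw [eq_comm, Ideal.Quotient.eq]
    exact sub_ev0_mem P b
  exact Module.Finite.of_surjective F.toLinearMap hF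

theorem artinian_quot {k : Type u} [Field k] {m : ℕ} (P : k[X]) (hP : P ≠ 0) :
    IsArtinianRing (MvPolynomial (Fin (m + 1)) k ⧸
      (cP P : Ideal (MvPolynomial (Fin (m + 1)) k))) := by
  have := finite_quot (m := m) P hP
  exact IsArtinianRing.of_finite k _

section Main

variable {k : Type u} [Field k] {N m : ℕ}

/-- Adjust `s` so that `u = s - 2g` is a nonzero polynomial in `X_0`. -/
theorem adjust (φ : (MvPolynomial (Fin N) k)[X] →ₐ[k] MvPolynomial (Fin (m + 1)) k)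
    (P : k[X]) (hP : P ≠ 0) (hc : cond φ = cP P)
    (s p : MvPolynomial (Fin N) k) (hg : φ X ^ 2 = φ (C s) * φ X - φ (C p))
    (hu : Ideal.span {uu φ s} ⊔ cond φ = ⊤) :
    ∃ s' p' : MvPolynomial (Fin N) k, φ X ^ 2 = φ (C s') * φ X - φ (C p') ∧
      Ideal.span {uu φ s'} ⊔ cond φ = ⊤ ∧ ∃ U : k[X], U ≠ 0 ∧
      uu φ s' = aeval (MvPolynomial.X 0) U := by
  have h1 : ∃ U : k[X], U ≠ 0 ∧ uu φ s - aeval (MvPolynomial.X 0) U ∈ cond φ := by
    have h2 := sub_ev0_mem P (uu φ s)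
    rw [← hc] at h2
    by_cases h0 : ev0 (uu φ s) = 0
    · refine ⟨P, hP, ?_⟩
      rw [h0, map_zero, sub_zero] at h2
      refine Ideal.sub_mem _ h2 ?_
      rw [hc]
      exact Ideal.subset_span (Set.mem_insert _ _)
    · exact ⟨_, h0, h2⟩
  obtain ⟨U, hU, hUc⟩ := h1
  obtain ⟨σ, hσ⟩ := hUc 1
  obtain ⟨τ, hτ⟩ := hUc (φ X)
  rw [mul_one] at hσ
  have h3 : uu φ (s - σ) = aeval (MvPolynomial.X 0) U := by
    have : uu φ (s - σ) = uu φ s - φ (C σ) := by
      unfold uu
      rw [C_sub, map_sub]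
      ring
    rw [this, hσ]
    ring
  refine ⟨s - σ, p - τ, ?_, ?_, U, hU, h3⟩
  · rw [C_sub, C_sub, map_sub, map_sub, hσ, hτ, hg]
    ring
  · rw [eq_top_iff, ← hu]
    refine sup_le ?_ le_sup_right
    rw [Ideal.span_singleton_le_iff_mem]
    have h4 : uu φ s = uu φ (s - σ) + (uu φ s - aeval (MvPolynomial.X 0) U) := by
      rw [h3]; ring
    rw [h4]
    exact Ideal.add_mem _ (Ideal.mem_sup_left (Ideal.mem_span_singleton_self _))
      (Ideal.mem_sup_right hUc)

theorem coprime_of (P U : k[X])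
    (hu : Ideal.span {(aeval (MvPolynomial.X 0 : MvPolynomial (Fin (m + 1)) k)) U} ⊔ cP P = ⊤) :
    IsCoprime U P := by
  have h1 : (1 : MvPolynomial (Fin (m + 1)) k) ∈
      Ideal.span {(aeval (MvPolynomial.X 0 : MvPolynomial (Fin (m + 1)) k)) U} ⊔ cP P :=
    hu ▸ Submodule.mem_top
  obtain ⟨x, hx, β, hβ, hxβ⟩ := Submodule.mem_sup.1 h1
  obtain ⟨t, rfl⟩ := Ideal.mem_span_singleton'.1 hx
  obtain ⟨q, hq⟩ := (mem_cP_iff P β).1 hβ
  refine ⟨ev0 t, q, ?_⟩
  have h2 := congrArg (ev0 : MvPolynomial (Fin (m + 1)) k →ₐ[k] k[X]) hxβ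
  rw [map_add, map_mul, ev0_aeval, hq, map_one] at h2
  linear_combination h2

/-- the coefficients of the new generators of the conductor -/
noncomputable def dg (L : k[X]) (i : Fin (m + 2)) : MvPolynomial (Fin (m + 2)) k :=
  if i = 1 then aeval (MvPolynomial.X 0) L else 1

theorem span_dg (P L : k[X]) (hL : IsCoprime L P) :
    Ideal.span (Set.range fun i : Fin (m + 2) => dg L i * gam P i) = cP P := by
  apply le_antisymm
  · rw [Ideal.span_le]
    rintro _ ⟨i, rfl⟩
    exact Ideal.mul_mem_left _ _ (gam_mem P i)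
  · rw [← span_gam, Ideal.span_le]
    rintro _ ⟨i, rfl⟩
    set J := Ideal.span (Set.range fun i : Fin (m + 2) => dg L i * gam P i) with hJ
    have hmem : ∀ i, dg L i * gam P i ∈ J := fun i => Ideal.subset_span ⟨i, rfl⟩
    show gam P i ∈ J
    by_cases hi : i = 1
    · subst hi
      obtain ⟨a, b, hab⟩ := hL
      have h0 := hmem 0
      have h1 := hmem 1
      have e0 : (dg L (0 : Fin (m + 2)) : MvPolynomial (Fin (m + 2)) k) = 1 := by
        unfold dg
        rw [if_neg (by simp)]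
      have e1 : (dg L (1 : Fin (m + 2)) : MvPolynomial (Fin (m + 2)) k) =
          aeval (MvPolynomial.X 0) L := by
        unfold dg
        rw [if_pos rfl]
      have e2 : (gam P 0 : MvPolynomial (Fin (m + 2)) k) = aeval (MvPolynomial.X 0) P := rfl
      rw [e0, one_mul, e2] at h0
      rw [e1] at h1
      have h2 := congrArg (aeval (MvPolynomial.X 0 : MvPolynomial (Fin (m + 2)) k)) hab
      rw [map_add, map_mul, map_mul, map_one] at h2
      have h3 : (gam P 1 : MvPolynomial (Fin (m + 2)) k) =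
          (aeval (MvPolynomial.X 0)) a * ((aeval (MvPolynomial.X 0)) L * gam P 1) +
          ((aeval (MvPolynomial.X 0)) b * gam P 1) * (aeval (MvPolynomial.X 0)) P := by
        linear_combination (-gam P 1) * h2
      rw [h3]
      exact Ideal.add_mem _ (Ideal.mul_mem_left _ _ h1) (Ideal.mul_mem_left _ _ h0)
    · have h1 := hmem i
      have e1 : (dg L i : MvPolynomial (Fin (m + 2)) k) = 1 := by
        unfold dg
        rw [if_neg hi]
      rw [e1, one_mul] at h1
      exact h1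

theorem surj_prod (φ : (MvPolynomial (Fin N) k)[X] →ₐ[k] MvPolynomial (Fin (m + 2)) k)
    {s : MvPolynomial (Fin N) k}
    (hS : ∀ b, ∃ α β : MvPolynomial (Fin N) k, b = φ (C α) + φ (C β) * φ X)
    (hu : Ideal.span {uu φ s} ⊔ cond φ = ⊤)
    (ι : MvPolynomial (Fin (m + 2)) k →+* MvPolynomial (Fin (m + 2)) k ⧸ cond φ)
    (hι : ∀ h, ι (φ h) = Ideal.Quotient.mk (cond φ) (phi' φ s h)) :
    Function.Surjective (ι.prod (Ideal.Quotient.mk (Ideal.span {uu φ s}))) := by
  rintro ⟨x, y⟩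
  obtain ⟨b, rfl⟩ := Ideal.Quotient.mk_surjective x
  obtain ⟨y₀, rfl⟩ := Ideal.Quotient.mk_surjective y
  obtain ⟨h, hh⟩ := phi'_surj (s := s) hS b
  have h1 : (1 : MvPolynomial (Fin (m + 2)) k) ∈ Ideal.span {uu φ s} ⊔ cond φ :=
    hu ▸ Submodule.mem_top
  obtain ⟨v, hv, β, hβ, hvβ⟩ := Submodule.mem_sup.1 h1
  obtain ⟨r, hr⟩ := hβ 1
  rw [mul_one] at hr
  refine ⟨φ h + β * (y₀ - φ h), ?_⟩
  ext1
  · show ι (φ h + β * (y₀ - φ h)) = _
    have h2 : ι β = 0 := by
      rw [← hr, hι, phi'_C, hr, Ideal.Quotient.eq_zero_iff_mem]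
      exact hβ
    rw [map_add, map_mul, h2, zero_mul, add_zero, hι, hh]
  · show Ideal.Quotient.mk _ (φ h + β * (y₀ - φ h)) = _
    rw [Ideal.Quotient.eq]
    have h3 : φ h + β * (y₀ - φ h) - y₀ = (φ h - y₀) * v := by
      have : β = 1 - v := by rw [← hvβ]; ring
      rw [this]
      ring
    rw [h3]
    exact Ideal.mul_mem_left _ _ hv

end Main

end Pool.Agent.H71.AAE
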