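import Mathlib
import Pool.Agent.H71.AAE.Defs
import Pool.Agent.H71.AAE.M1
import Pool.Agent.H71.AAE.M2
import Pool.Agent.H71.AAE.M3
import Pool.Agent.H71.AAE.M4
import Pool.Agent.H71.AAE.M5
import Pool.Agent.H71.AAE.M6

/-! # AAE, module M, part 7: matching and conclusion -/

set_option autoImplicit false

open Polynomial

namespace Pool.Agent.H71.AAE

universe u

section Match

variable {k : Type u} [Field k] {N m : ℕ}

/-- `Theta` of the chosen elements generates the conductor modulo its square. -/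
theorem theta_gen (φ : (MvPolynomial (Fin N) k)[X] →ₐ[k] MvPolynomial (Fin (m + 2)) k)
    {s p s₁ p₁ : MvPolynomial (Fin N) k}
    (hS : ∀ b, ∃ α β : MvPolynomial (Fin N) k, b = φ (C α) + φ (C β) * φ X)
    (hg : φ X ^ 2 = φ (C s) * φ X - φ (C p)) (hu0 : uu φ s ≠ 0)
    (hs₁ : φ (C s₁) = φ (C s)) (hp₁ : φ (C p₁) = φ (C p))
    (w : Fin (m + 2) → (MvPolynomial (Fin N) k)[X])
    (hgen : RingHom.ker φ ≤ (Ideal.span {aa s₁ p₁} ⊔ Ideal.span (Set.range w)) ⊔
          (RingHom.ker φ) ^ 2)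
    (θ : Fin (m + 2) → MvPolynomial (Fin (m + 2)) k) (hθ : ∀ i, phi' φ s (w i) = uu φ s * θ i)
    {β : MvPolynomial (Fin (m + 2)) k} (hβ : β ∈ cond φ) :
    ∃ c : Fin (m + 2) → MvPolynomial (Fin (m + 2)) k,
      β - ∑ i, c i * θ i ∈ (cond φ) ^ 2 := by
  obtain ⟨h, hh1, hh2, _⟩ := theta_surj (s := s) hβ
  obtain ⟨x, hx, y, hy, hxy⟩ := Submodule.mem_sup.1 (hgen (RingHom.mem_ker.2 hh1))
  obtain ⟨x₁, hx₁, x₂, hx₂, hxx⟩ := Submodule.mem_sup.1 hx
  obtain ⟨t, rfl⟩ := Ideal.mem_span_singleton'.1 hx₁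
  obtain ⟨c, hc⟩ := (Ideal.mem_span_range_iff_exists_fun).1 hx₂
  obtain ⟨z, hz, hz'⟩ := phi'_sq hg hS hy
  refine ⟨fun i => phi' φ s (c i), ?_⟩
  have h1 : phi' φ s (aa s₁ p₁) = 0 := by
    rw [← phi'_congr φ hs₁]
    apply phi'_aa
    rw [hs₁, hp₁]
    exact hg
  have h2 : uu φ s * β = uu φ s * (∑ i, phi' φ s (c i) * θ i + uu φ s * z) := by
    rw [← hh2, ← hxy, ← hxx, ← hc, map_add, map_add, map_mul, h1, map_sum, hz', mul_add,
      Finset.mul_sum, mul_zero, zero_add]
    congr 1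
    refine Finset.sum_congr rfl fun i _ => ?_
    rw [map_mul, hθ]
    ring
  have h3 := mul_left_cancel₀ hu0 h2
  rw [h3, add_sub_cancel_left]
  exact Ideal.mul_mem_left _ _ hz

theorem main_aux (hN : N = 2 * (m + 2))
    (φ : (MvPolynomial (Fin N) k)[X] →ₐ[k] MvPolynomial (Fin (m + 2)) k)
    (hφ : Function.Surjective φ)
    (hS : ∀ b, ∃ α β : MvPolynomial (Fin N) k, b = φ (C α) + φ (C β) * φ X)
    (P : k[X]) (hP : P ≠ 0) (hc : cond φ = cP P)
    (s p : MvPolynomial (Fin N) k) (hg : φ X ^ 2 = φ (C s) * φ X - φ (C p))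
    (hu : Ideal.span {uu φ s} ⊔ cond φ = ⊤) (U : k[X]) (hU : U ≠ 0)
    (hUu : uu φ s = aeval (MvPolynomial.X 0) U) :
    ∃ w : Fin (m + 3) → (MvPolynomial (Fin N) k)[X],
      Ideal.span (Set.range w) = RingHom.ker φ := by
  have hu0 : uu φ s ≠ 0 := by
    intro h0
    apply hU
    have := congrArg (ev0 : MvPolynomial (Fin (m + 2)) k →ₐ[k] k[X]) (hUu.symm.trans h0)
    rwa [ev0_aeval, map_zero] at this
  obtain ⟨s₁, p₁, hs₁, hp₁, w, hw0, hw1, hw2, hgen⟩ := first_gen hN φ hφ hS s p hg hu0 hu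
  have hg₁ : φ X ^ 2 = φ (C s₁) * φ X - φ (C p₁) := by rw [hs₁, hp₁]; exact hg
  -- Theta of the w i
  have hθ' := fun i => theta_exists (s := s) hg hS (hw0 i)
  choose θ hθc hθ hθd using hθ'
  -- matrices
  have hq : ∀ j, ∃ q : Fin (m + 2) → MvPolynomial (Fin (m + 2)) k, ∑ l, q l * gam P l = θ j := by
    intro j
    have h1 := hθc j
    rw [hc, ← span_gam] at h1
    exact (Ideal.mem_span_range_iff_exists_fun).1 h1
  choose q hq using hq
  have hq' : ∀ l, ∃ c : Fin (m + 2) → MvPolynomial (Fin (m + 2)) k,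
      gam P l - ∑ j, c j * θ j ∈ (cond φ) ^ 2 := by
    intro l
    apply theta_gen φ hS hg hu0 hs₁ hp₁ w hgen θ hθ
    rw [hc]
    exact gam_mem P l
  choose q' hq' using hq'
  let mk := Ideal.Quotient.mk (cond φ)
  have hQ : (Matrix.of fun l j => mk (q' l j)) * (Matrix.of fun j i => mk (q j i)) = 1 := by
    ext l i
    rw [Matrix.mul_apply]
    simp only [Matrix.of_apply]
    have h1 : ∑ i, ((∑ j, q' l j * q j i) - (if l = i then 1 else 0)) * gam P i ∈ (cP P) ^ 2 := by
      have h2 : ∑ i, ((∑ j, q' l j * q j i) - (if l = i then 1 else 0)) * gam P i =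
          -(gam P l - ∑ j, q' l j * θ j) := by
        simp only [sub_mul, Finset.sum_sub_distrib, ite_mul, one_mul, zero_mul,
          Finset.sum_ite_eq, Finset.mem_univ, if_true]
        rw [neg_sub]
        congr 1
        simp only [Finset.sum_mul]
        rw [Finset.sum_comm]
        refine Finset.sum_congr rfl fun j _ => ?_
        rw [← hq j, Finset.mul_sum]
        refine Finset.sum_congr rfl fun i _ => by ring
      rw [h2]
      apply neg_mem
      rw [← hc]
      exact hq' l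
    have h3 := gam_free P hP _ h1 i
    rw [← hc, ← Ideal.Quotient.eq_zero_iff_mem, map_sub, map_sum] at h3
    simp only [map_mul] at h3
    rw [sub_eq_zero] at h3
    rw [Matrix.one_apply]
    show ∑ j, mk (q' l j) * mk (q j i) = _
    rw [h3]
    split_ifs
    · exact map_one _
    · exact map_zero _
  set Q' : Matrix (Fin (m + 2)) (Fin (m + 2)) (MvPolynomial (Fin (m + 2)) k ⧸ cond φ) :=
    Matrix.of fun l j => mk (q' l j) with hQ'def
  set Q : Matrix (Fin (m + 2)) (Fin (m + 2)) (MvPolynomial (Fin (m + 2)) k ⧸ cond φ) :=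
    Matrix.of fun j i => mk (q j i) with hQdef
  have hdet : Q'.det * Q.det = 1 := by rw [← Matrix.det_mul, hQ, Matrix.det_one]
  obtain ⟨bl, hbl⟩ := Ideal.Quotient.mk_surjective Q.det
  obtain ⟨bl', hbl'⟩ := Ideal.Quotient.mk_surjective Q'.det
  set L := ev0 bl with hL
  have hLm : mk (aeval (MvPolynomial.X 0) L) = Q.det := by
    rw [← hbl, eq_comm]
    apply (Ideal.Quotient.eq).2
    rw [hc]
    exact sub_ev0_mem P bl
  have hLP : IsCoprime L P := by
    have h1 : bl' * bl - 1 ∈ cond φ := by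
      rw [← Ideal.Quotient.eq_zero_iff_mem, map_sub, map_mul, map_one, hbl, hbl', hdet, sub_self]
    rw [hc, mem_cP_iff, map_sub, map_mul, map_one] at h1
    obtain ⟨r, hr⟩ := h1
    refine ⟨ev0 bl', -r, ?_⟩
    linear_combination hr
  -- the target generators
  set γ : Fin (m + 2) → MvPolynomial (Fin (m + 2)) k := fun i => dg L i * gam P i with hγ
  have hγspan : Ideal.span (Set.range γ) = cond φ := by
    rw [hc]
    exact span_dg P L hLP
  -- the two elementary matrices
  have hart : IsArtinianRing (MvPolynomial (Fin (m + 2)) k ⧸ cond φ) := by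
    rw [hc]
    exact artinian_quot P hP
  set M₁ : Matrix (Fin (m + 2)) (Fin (m + 2)) (MvPolynomial (Fin (m + 2)) k ⧸ cond φ) :=
    Matrix.diagonal (fun i => mk (dg L i)) * Q' with hM₁
  have hM₁det : M₁.det = 1 := by
    rw [hM₁, Matrix.det_mul, Matrix.det_diagonal]
    have h1 : ∏ i : Fin (m + 2), mk (dg L i) = Q.det := by
      rw [← hLm]
      rw [Finset.prod_eq_single 1]
      · unfold dg
        rw [if_pos rfl]
      · intro i _ hi
        unfold dg
        rw [if_neg hi]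
        exact map_one _
      · intro h
        exact absurd (Finset.mem_univ _) h
    rw [h1, mul_comm]
    exact hdet
  have hM₁E := isElem_of_det_one M₁ hM₁det
  have hUP : IsCoprime U P := by
    apply coprime_of (m := m + 1)
    rw [← hUu, ← hc]
    exact hu
  set πu := Ideal.Quotient.mk (Ideal.span {uu φ s}) with hπu
  have hπu0 : πu (uu φ s) = 0 :=
    Ideal.Quotient.eq_zero_iff_mem.2 (Ideal.mem_span_singleton_self _)
  have hγ0 : IsUnit (πu (γ 0)) := by
    obtain ⟨a, b, hab⟩ := hUP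
    have h2 := congrArg (aeval (MvPolynomial.X 0 : MvPolynomial (Fin (m + 2)) k)) hab
    rw [map_add, map_mul, map_mul, map_one, ← hUu] at h2
    have h3 : γ 0 = aeval (MvPolynomial.X 0) P := by
      have e0 : (dg L (0 : Fin (m + 2)) : MvPolynomial (Fin (m + 2)) k) = 1 := by
        unfold dg
        rw [if_neg (by simp)]
      show dg L 0 * gam P 0 = _
      rw [e0, one_mul]
      rfl
    rw [h3]
    have h4 : πu (aeval (MvPolynomial.X 0) b) * πu (aeval (MvPolynomial.X 0) P) = 1 := by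
      rw [← map_mul, ← map_one πu, ← h2, map_add, map_mul πu _ (uu φ s), hπu0, mul_zero, zero_add]
    exact IsUnit.of_mul_eq_one_right _ h4
  obtain ⟨Gu, hGuE, hGu⟩ := exists_elem_column (fun i => πu (γ i)) hγ0
  obtain ⟨ι, hι⟩ := exists_iota hφ hg hS
  obtain ⟨G, G', hGG', hG'G, hG1, hG2⟩ := exists_lift_elem ι πu (surj_prod φ hS hu ι hι) M₁ hM₁E
    Gu hGuE
  choose GR hGR using fun i j => hφ (G i j)
  choose GR' hGR' using fun i j => hφ (G' i j)
  have hb0 : ∀ i, φ (∑ j, GR i j * w j) = 0 := by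
    intro i
    rw [map_sum]
    refine Finset.sum_eq_zero fun j _ => ?_
    rw [map_mul, hw0, mul_zero]
  -- Theta of b⁰
  have hω : ∀ i, phi' φ s (∑ j, GR i j * w j) =
      uu φ s * ∑ j, phi' φ s (GR i j) * θ j := by
    intro i
    rw [map_sum, Finset.mul_sum]
    refine Finset.sum_congr rfl fun j _ => ?_
    rw [map_mul, hθ]
    ring
  have hω1 : ∀ i, (∑ j, phi' φ s (GR i j) * θ j) - γ i ∈ (cond φ) ^ 2 := by
    intro i
    have h1 : (∑ j, phi' φ s (GR i j) * θ j) - γ i =
        ∑ l, ((∑ j, phi' φ s (GR i j) * q j l) - (if i = l then dg L i else 0)) * gam P l := by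
      simp only [sub_mul, Finset.sum_sub_distrib, ite_mul, zero_mul,
          Finset.sum_ite_eq, Finset.mem_univ, if_true]
      congr 1
      simp only [Finset.sum_mul]
      rw [Finset.sum_comm]
      refine Finset.sum_congr rfl fun j _ => ?_
      rw [← hq j, Finset.mul_sum]
      refine Finset.sum_congr rfl fun i _ => by ring
    rw [h1]
    refine Ideal.sum_mem _ fun l _ => ?_
    rw [pow_two]
    refine Ideal.mul_mem_mul ?_ (by rw [hc]; exact gam_mem P l)
    rw [← Ideal.Quotient.eq_zero_iff_mem, map_sub, map_sum]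
    have h2 : ∀ j, mk (phi' φ s (GR i j) * q j l) = M₁ i j * Q j l := by
      intro j
      rw [map_mul, ← hG1, Matrix.map_apply, ← hGR i j, hι]
      rfl
    have h3 : ∑ j, mk (phi' φ s (GR i j) * q j l) = (M₁ * Q) i l := by
      rw [Matrix.mul_apply]
      exact Finset.sum_congr rfl fun j _ => h2 j
    have h4 : (M₁ * Q) i l = mk (if i = l then dg L i else 0) := by
      rw [hM₁, Matrix.mul_assoc, hQ, Matrix.mul_one, Matrix.diagonal_apply]
      split_ifs
      · rfl
      · exact (map_zero _).symm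
    show ∑ j, mk (phi' φ s (GR i j) * q j l) - mk (if i = l then dg L i else 0) = 0
    rw [h3, h4, sub_self]
  have hθ0 : πu (θ 0) = 1 := by
    obtain ⟨b, hb⟩ := hθd 0
    rw [hw1] at hb
    have : θ 0 = 1 + b * uu φ s := by linear_combination -hb
    rw [this, map_add, map_mul, hπu0, mul_zero, add_zero, map_one]
  have hθs : ∀ j : Fin (m + 1), πu (θ j.succ) = 0 := by
    intro j
    obtain ⟨b, hb⟩ := hθd j.succ
    rw [hw2] at hb
    have : θ j.succ = b * uu φ s := by linear_combination -hb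
    rw [this, map_mul, hπu0, mul_zero]
  have hω2 : ∀ i, (∑ j, phi' φ s (GR i j) * θ j) - γ i ∈ Ideal.span {uu φ s} := by
    intro i
    rw [← Ideal.Quotient.eq_zero_iff_mem]
    show πu _ = 0
    rw [map_sub, map_sum, Fin.sum_univ_succ]
    have h1 : ∀ h, πu (phi' φ s h) = πu (φ h) := fun h =>
      (Ideal.Quotient.eq).2 (phi'_sub_phi h)
    have h2 : ∀ j : Fin (m + 1), πu (phi' φ s (GR i j.succ) * θ j.succ) = 0 := by
      intro j
      rw [map_mul, hθs, mul_zero]
    simp only [h2, Finset.sum_const_zero, add_zero]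
    rw [map_mul, hθ0, mul_one, h1, hGR]
    have h3 : πu (G i 0) = Gu i 0 := by rw [← hG2, Matrix.map_apply]
    rw [h3, hGu, sub_self]
  -- corrections
  have hy : ∀ i, ∃ y ∈ (RingHom.ker φ) ^ 2, phi' φ s y =
      uu φ s * ((∑ j, phi' φ s (GR i j) * θ j) - γ i) := by
    intro i
    obtain ⟨z, hz⟩ := Ideal.mem_span_singleton'.1 (hω2 i)
    have h1 : z ∈ (cond φ) ^ 2 := by
      apply mem_sq_of_mul hu
      rw [mul_comm, hz]
      exact hω1 i
    obtain ⟨y, hy, hy'⟩ := sq_lift (s := s) h1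
    refine ⟨y, hy, ?_⟩
    rw [hy', ← hz]
    ring
  choose y hyI hy' using hy
  set b : Fin (m + 2) → (MvPolynomial (Fin N) k)[X] := fun i => (∑ j, GR i j * w j) - y i with hb
  have hyk : ∀ i, φ (y i) = 0 := fun i =>
    RingHom.mem_ker.1 (Ideal.pow_le_self two_ne_zero (hyI i))
  have hbk : ∀ i, φ (b i) = 0 := by
    intro i
    show φ ((∑ j, GR i j * w j) - y i) = 0
    rw [map_sub, hb0, hyk, sub_self]
  have hbθ : ∀ i, phi' φ s (b i) = uu φ s * γ i := by
    intro i
    show phi' φ s ((∑ j, GR i j * w j) - y i) = _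
    rw [map_sub, hω, hy']
    ring
  -- generation modulo squares
  set v : Fin (m + 3) → (MvPolynomial (Fin N) k)[X] := Fin.cons (aa s₁ p₁) b with hv
  have hvspan : Ideal.span {aa s₁ p₁} ⊔ Ideal.span (Set.range b) = Ideal.span (Set.range v) := by
    rw [← Ideal.span_union, hv, Fin.range_cons]
    rfl
  have hgen2 : RingHom.ker φ ≤ Ideal.span (Set.range v) ⊔ (RingHom.ker φ) ^ 2 := by
    rw [← hvspan]
    refine hgen.trans (sup_le (sup_le (le_sup_left.trans le_sup_left) ?_) le_sup_right)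
    rw [Ideal.span_le]
    rintro _ ⟨j, rfl⟩
    set J := (Ideal.span {aa s₁ p₁} ⊔ Ideal.span (Set.range b)) ⊔ (RingHom.ker φ) ^ 2 with hJ
    show w j ∈ J
    have hbJ : ∀ i, b i ∈ J := fun i =>
      Ideal.mem_sup_left (Ideal.mem_sup_right (Ideal.subset_span ⟨i, rfl⟩))
    have hbJ' : ∀ i, (∑ l, GR i l * w l) ∈ J := by
      intro i
      have : (∑ l, GR i l * w l) = b i + y i := by rw [hb]; ring
      rw [this]
      exact Ideal.add_mem _ (hbJ i) (Ideal.mem_sup_right (hyI i))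
    have h1 : w j = (∑ i, GR' j i * ∑ l, GR i l * w l) -
        ∑ l, ((∑ i, GR' j i * GR i l) - (if j = l then 1 else 0)) * w l := by
      simp only [sub_mul, Finset.sum_sub_distrib, ite_mul, one_mul, zero_mul,
          Finset.sum_ite_eq, Finset.mem_univ, if_true]
      have h2 : ∑ i, GR' j i * ∑ l, GR i l * w l = ∑ l, (∑ i, GR' j i * GR i l) * w l := by
        simp only [Finset.sum_mul, Finset.mul_sum]
        rw [Finset.sum_comm]
        refine Finset.sum_congr rfl fun i _ => Finset.sum_congr rfl fun l _ => by ring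
      rw [h2]
      ring
    rw [h1]
    refine Ideal.sub_mem _ (Ideal.sum_mem _ fun i _ => Ideal.mul_mem_left _ _ (hbJ' i))
      (Ideal.sum_mem _ fun l _ => Ideal.mem_sup_right ?_)
    rw [pow_two]
    refine Ideal.mul_mem_mul (RingHom.mem_ker.2 ?_) (RingHom.mem_ker.2 (hw0 l))
    rw [map_sub, map_sum]
    have h3 : ∀ i, φ (GR' j i * GR i l) = G' j i * G i l := fun i => by rw [map_mul, hGR, hGR']
    have h4 : ∑ i, φ (GR' j i * GR i l) = (G' * G) j l := by
      rw [Matrix.mul_apply]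
      exact Finset.sum_congr rfl fun i _ => h3 i
    rw [h4, hG'G, Matrix.one_apply]
    split_ifs
    · rw [map_one, sub_self]
    · rw [map_zero, sub_self]
  have hgen1 : RingHom.ker φ ≤ Ideal.span (Set.range v) ⊔
      Ideal.map C (Ideal.comap C (RingHom.ker φ)) := by
    intro h hh
    obtain ⟨β, hβ, hβ', _⟩ := theta_exists (s := s) hg hS (RingHom.mem_ker.1 hh)
    rw [← hγspan] at hβ
    obtain ⟨c, hcβ⟩ := (Ideal.mem_span_range_iff_exists_fun).1 hβ
    choose ρ hρ using fun i => phi'_surj (s := s) hS (c i)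
    have h1 : phi' φ s₁ (h - ∑ i, ρ i * b i) = 0 := by
      rw [phi'_congr φ hs₁, map_sub, hβ', map_sum, ← hcβ, Finset.mul_sum, sub_eq_zero]
      refine Finset.sum_congr rfl fun i _ => ?_
      rw [map_mul, hbθ, hρ]
      ring
    have h2 : φ (h - ∑ i, ρ i * b i) = 0 := by
      rw [map_sub, RingHom.mem_ker.1 hh, map_sum, zero_sub, neg_eq_zero]
      refine Finset.sum_eq_zero fun i _ => ?_
      rw [map_mul, hbk, mul_zero]
    have hu0' : uu φ s₁ ≠ 0 := by rw [uu_congr φ hs₁]; exact hu0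
    obtain ⟨q₁, h₁, h₀, he, e1, e2, _⟩ := ker_theta hg₁ hu0' h2 h1
    have h3 : h = (q₁ * aa s₁ p₁ + ∑ i, ρ i * b i) + (C h₁ * X + C h₀) := by
      linear_combination he
    rw [h3]
    refine Ideal.add_mem _ (Ideal.mem_sup_left (Ideal.add_mem _ ?_ ?_)) (Ideal.mem_sup_right
      (Ideal.add_mem _ ?_ ?_))
    · apply Ideal.mul_mem_left
      exact Ideal.subset_span ⟨0, rfl⟩
    · refine Ideal.sum_mem _ fun i _ => Ideal.mul_mem_left _ _ ?_
      exact Ideal.subset_span ⟨i.succ, rfl⟩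
    · apply Ideal.mul_mem_right
      apply Ideal.mem_map_of_mem
      exact e1
    · apply Ideal.mem_map_of_mem
      exact e2
  refine nakayama_patch (RingHom.ker φ) v ?_ (aa_monic s₁ p₁) hgen1 hgen2
  intro i
  refine Fin.cases ?_ (fun j => ?_) i
  · exact RingHom.mem_ker.2 (phi_aa hg₁)
  · exact RingHom.mem_ker.2 (hbk j)

theorem main_conductor
    (φ : (MvPolynomial (Fin (2 * (m + 2))) k)[X] →ₐ[k] MvPolynomial (Fin (m + 2)) k)
    (hφ : Function.Surjective φ)
    (hS : ∀ b, ∃ α β : MvPolynomial (Fin (2 * (m + 2))) k, b = φ (C α) + φ (C β) * φ X)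
    (P : k[X]) (hP : P ≠ 0)
    (hc : cond φ = Ideal.span (insert (aeval (MvPolynomial.X 0) P)
          (Set.range fun j : Fin (m + 1) => MvPolynomial.X j.succ)))
    (s p : MvPolynomial (Fin (2 * (m + 2))) k) (hg : φ X ^ 2 = φ (C s) * φ X - φ (C p))
    (hu : Ideal.span {φ (C s) - 2 * φ X} ⊔ cond φ = ⊤) :
    ∃ w : Fin (m + 3) → (MvPolynomial (Fin (2 * (m + 2))) k)[X],
      Ideal.span (Set.range w) = RingHom.ker φ := by
  have hc' : cond φ = cP P := hc
  obtain ⟨s', p', hg', hu', U, hU, hUu⟩ := adjust φ P hP hc' s p hg hu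
  exact main_aux rfl φ hφ hS P hP hc' s' p' hg' hu' U hU hUu

end Match

end Pool.Agent.H71.AAE
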