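import Mathlib
import Pool.Agent.H71.AAE.Defs
import Pool.Agent.H71.AAE.S2

/-! Project AAE (MP_ae801b_ag), module S3: coordinates for the conductor. -/

set_option autoImplicit false

open Polynomial

namespace Pool.Agent.H71.AAE

universe u

variable {k : Type u} [Field k] {N m : ℕ}

theorem mem_cond {φ : (MvPolynomial (Fin N) k)[X] →ₐ[k] MvPolynomial (Fin m) k}
    {b : MvPolynomial (Fin m) k} : b ∈ cond φ ↔ ∀ b', ∃ ρ, φ (C ρ) = b * b' := Iff.rfl

theorem mem_cond_comp (φ : (MvPolynomial (Fin N) k)[X] →ₐ[k] MvPolynomial (Fin m) k)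
    (α : MvPolynomial (Fin m) k ≃ₐ[k] MvPolynomial (Fin m) k) (b : MvPolynomial (Fin m) k) :
    b ∈ cond ((α : _ →ₐ[k] MvPolynomial (Fin m) k).comp φ) ↔ α.symm b ∈ cond φ := by
  rw [mem_cond, mem_cond]
  constructor
  · intro h b'
    obtain ⟨ρ, hρ⟩ := h (α b')
    refine ⟨ρ, ?_⟩
    have h1 : α (φ (C ρ)) = b * α b' := hρ
    rw [← α.symm_apply_apply (φ (C ρ)), h1, map_mul, α.symm_apply_apply]
  · intro h b'
    obtain ⟨ρ, hρ⟩ := h (α.symm b')
    refine ⟨ρ, ?_⟩
    show α (φ (C ρ)) = _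
    rw [hρ, map_mul, α.apply_symm_apply, α.apply_symm_apply]

/-- the second point over the conductor -/
theorem exists_iota_hom (φ : (MvPolynomial (Fin N) k)[X] →ₐ[k] MvPolynomial (Fin m) k)
    (hφ : Function.Surjective φ)
    (hS : ∀ b, ∃ α β : MvPolynomial (Fin N) k, b = φ (C α) + φ (C β) * φ X)
    (s p : MvPolynomial (Fin N) k) (hg : φ X ^ 2 = φ (C s) * φ X - φ (C p)) :
    ∃ θ : MvPolynomial (Fin m) k →ₐ[k] MvPolynomial (Fin m) k ⧸ cond φ,
      θ (φ X) = Ideal.Quotient.mk (cond φ) (φ (C s) - φ X) ∧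
      ∀ ρ, θ (φ (C ρ)) = Ideal.Quotient.mk (cond φ) (φ (C ρ)) := by
  set τ : MvPolynomial (Fin N) k →ₐ[k] MvPolynomial (Fin m) k ⧸ cond φ :=
      ((Ideal.Quotient.mkₐ k (cond φ)).comp (φ.comp (Algebra.ofId (MvPolynomial (Fin N) k)
        (MvPolynomial (Fin N) k)[X] |>.restrictScalars k))) with hτ
  set t : MvPolynomial (Fin m) k ⧸ cond φ := Ideal.Quotient.mk (cond φ) (φ (C s) - φ X) with ht
  set ψ : (MvPolynomial (Fin N) k)[X] →ₐ[k] MvPolynomial (Fin m) k ⧸ cond φ :=
    { Polynomial.eval₂RingHom (τ : MvPolynomial (Fin N) k →+* _) t with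
      commutes' := fun c => by
        show Polynomial.eval₂RingHom (τ : MvPolynomial (Fin N) k →+* _) t
          (algebraMap k (MvPolynomial (Fin N) k)[X] c) = _
        rw [Polynomial.algebraMap_apply, Polynomial.coe_eval₂RingHom, Polynomial.eval₂_C]
        exact τ.commutes c } with hψ
  have hψC : ∀ ρ, ψ (C ρ) = Ideal.Quotient.mk (cond φ) (φ (C ρ)) := by
    intro ρ
    show Polynomial.eval₂ (τ : MvPolynomial (Fin N) k →+* _) t (C ρ) = _
    rw [Polynomial.eval₂_C]
    rfl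
  have hψX : ψ X = t := by
    show Polynomial.eval₂ (τ : MvPolynomial (Fin N) k →+* _) t X = _
    rw [Polynomial.eval₂_X]
  have hz : ∀ x, x ∈ cond φ → Ideal.Quotient.mk (cond φ) x = 0 :=
    fun x hx => Ideal.Quotient.eq_zero_iff_mem.2 hx
  have hqa : ψ (qa s p) = 0 := by
    rw [qa, map_add, map_sub, map_mul, map_pow, hψC, hψC, hψX, ht, ← map_pow, ← map_mul,
      ← map_sub, ← map_add]
    have : (φ (C s) - φ X) ^ 2 - φ (C s) * (φ (C s) - φ X) + φ (C p) = 0 := by
      linear_combination hg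
    rw [this, map_zero]
  have hker : ∀ f, φ f = 0 → ψ f = 0 := by
    intro f hf
    obtain ⟨w, α, β, rfl⟩ := exists_div s p f
    rw [map_add, map_mul, phi_qa φ s p hg, zero_mul, zero_add, map_add, map_mul] at hf
    obtain ⟨ha, hb⟩ := mem_cond_of_rel φ hS α β hf
    rw [map_add, map_mul, hqa, zero_mul, zero_add, map_add, map_mul, hψC, hψC,
      hz _ ha, hz _ hb, zero_mul, add_zero]
  obtain ⟨θ, hθ⟩ := lift_hom φ hφ ψ hker
  exact ⟨θ, by rw [hθ, hψX], fun ρ => by rw [hθ, hψC]⟩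

/-- the linear change of coordinates `X_0 ↦ lin a` -/
noncomputable def linHom (a : Fin (m + 1) → k) :
    MvPolynomial (Fin (m + 1)) k →ₐ[k] MvPolynomial (Fin (m + 1)) k :=
  MvPolynomial.aeval (Fin.cons (MvPolynomial.X 0 + ∑ j : Fin m,
    MvPolynomial.C (a j.succ) * MvPolynomial.X j.succ) fun j => MvPolynomial.X j.succ)

theorem linHom_zero (a : Fin (m + 1) → k) : linHom a (MvPolynomial.X 0) =
    MvPolynomial.X 0 + ∑ j : Fin m, MvPolynomial.C (a j.succ) * MvPolynomial.X j.succ := by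
  rw [linHom, MvPolynomial.aeval_X, Fin.cons_zero]

theorem linHom_succ (a : Fin (m + 1) → k) (j : Fin m) :
    linHom a (MvPolynomial.X j.succ) = MvPolynomial.X j.succ := by
  rw [linHom, MvPolynomial.aeval_X, Fin.cons_succ]

theorem hom_C {B : Type u} [CommRing B] [Algebra k B] {σ : Type}
    (f : MvPolynomial σ k →ₐ[k] B) (c : k) :
    f (MvPolynomial.C c) = algebraMap k B c := by
  rw [← MvPolynomial.algebraMap_eq, AlgHom.commutes]

theorem linHom_linHom_neg (a : Fin (m + 1) → k) :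
    (linHom a).comp (linHom (-a)) = AlgHom.id k _ := by
  apply MvPolynomial.algHom_ext
  intro i
  rw [AlgHom.comp_apply, AlgHom.id_apply]
  refine Fin.cases ?_ (fun i => ?_) i
  · rw [linHom_zero, map_add, linHom_zero, map_sum]
    simp only [Pi.neg_apply, neg_mul, map_neg, map_mul, linHom_succ, hom_C,
      MvPolynomial.algebraMap_eq, Finset.sum_neg_distrib]
    ring
  · rw [linHom_succ, linHom_succ]

/-- the linear automorphism -/
noncomputable def linEquiv (a : Fin (m + 1) → k) :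
    MvPolynomial (Fin (m + 1)) k ≃ₐ[k] MvPolynomial (Fin (m + 1)) k :=
  AlgEquiv.ofAlgHom (linHom a) (linHom (-a)) (linHom_linHom_neg a)
    (by have := linHom_linHom_neg (-a); rwa [neg_neg] at this)

/-- the triangular change of coordinates `X_j ↦ X_j - Q_j(X_0)` -/
noncomputable def triHom (Q : Fin (m + 1) → k[X]) :
    MvPolynomial (Fin (m + 1)) k →ₐ[k] MvPolynomial (Fin (m + 1)) k :=
  MvPolynomial.aeval (Fin.cons (MvPolynomial.X 0) fun j => MvPolynomial.X j.succ -
    aeval (MvPolynomial.X 0 : MvPolynomial (Fin (m + 1)) k) (Q j.succ))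

theorem triHom_zero (Q : Fin (m + 1) → k[X]) :
    triHom Q (MvPolynomial.X 0) = MvPolynomial.X 0 := by
  rw [triHom, MvPolynomial.aeval_X, Fin.cons_zero]

theorem triHom_succ (Q : Fin (m + 1) → k[X]) (j : Fin m) :
    triHom Q (MvPolynomial.X j.succ) = MvPolynomial.X j.succ -
      aeval (MvPolynomial.X 0 : MvPolynomial (Fin (m + 1)) k) (Q j.succ) := by
  rw [triHom, MvPolynomial.aeval_X, Fin.cons_succ]

theorem triHom_triHom_neg (Q : Fin (m + 1) → k[X]) :
    (triHom Q).comp (triHom (-Q)) = AlgHom.id k _ := by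
  apply MvPolynomial.algHom_ext
  intro i
  rw [AlgHom.comp_apply, AlgHom.id_apply]
  refine Fin.cases ?_ (fun i => ?_) i
  · rw [triHom_zero, triHom_zero]
  · rw [triHom_succ, map_sub, triHom_succ, ← Polynomial.aeval_algHom_apply, triHom_zero,
      Pi.neg_apply, map_neg]
    ring

/-- the triangular automorphism -/
noncomputable def triEquiv (Q : Fin (m + 1) → k[X]) :
    MvPolynomial (Fin (m + 1)) k ≃ₐ[k] MvPolynomial (Fin (m + 1)) k :=
  AlgEquiv.ofAlgHom (triHom Q) (triHom (-Q)) (triHom_triHom_neg Q)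
    (by have := triHom_triHom_neg (-Q); rwa [neg_neg] at this)

theorem ideal_form (J : Ideal (MvPolynomial (Fin (m + 1)) k))
    (hJ : ∀ j : Fin m, MvPolynomial.X j.succ ∈ J) (H : k[X]) (hH0 : H ≠ 0)
    (hH : aeval (MvPolynomial.X 0 : MvPolynomial (Fin (m + 1)) k) H ∈ J) :
    ∃ P : k[X], P ≠ 0 ∧ J = Ideal.span (insert (aeval (MvPolynomial.X 0) P)
      (Set.range fun j : Fin m => MvPolynomial.X j.succ)) := by
  set e : k[X] →ₐ[k] MvPolynomial (Fin (m + 1)) k := aeval (MvPolynomial.X 0) with he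
  set 𝔞 : Ideal k[X] := Ideal.comap e J with h𝔞
  have hpr : Submodule.IsPrincipal 𝔞 := IsPrincipalIdealRing.principal 𝔞
  set P := Submodule.IsPrincipal.generator 𝔞 with hP
  have hPs : Ideal.span {P} = 𝔞 := Ideal.span_singleton_generator 𝔞
  have hPm : e P ∈ J := by
    have : P ∈ 𝔞 := Submodule.IsPrincipal.generator_mem 𝔞
    exact this
  refine ⟨P, ?_, le_antisymm ?_ ?_⟩
  · intro h0
    have h1 : H ∈ 𝔞 := hH
    rw [← hPs, h0, Ideal.mem_span_singleton, zero_dvd_iff] at h1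
    exact hH0 h1
  · intro b hb
    set I : Ideal (MvPolynomial (Fin (m + 1)) k) := Ideal.span (insert (e P)
      (Set.range fun j : Fin m => MvPolynomial.X j.succ)) with hI
    -- reduce modulo the variables
    set r : MvPolynomial (Fin (m + 1)) k →ₐ[k] k[X] :=
      MvPolynomial.aeval (Fin.cons X fun _ => 0) with hr
    have h1 : ∀ K : Ideal (MvPolynomial (Fin (m + 1)) k),
        (∀ j : Fin m, MvPolynomial.X j.succ ∈ K) → b - e (r b) ∈ K := by
      intro K hK
      rw [← Ideal.Quotient.eq_zero_iff_mem, map_sub, sub_eq_zero]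
      have : (Ideal.Quotient.mkₐ k K) = (Ideal.Quotient.mkₐ k K).comp (e.comp r) := by
        apply MvPolynomial.algHom_ext
        intro i
        refine Fin.cases ?_ (fun i => ?_) i
        · simp [hr, he]
        · simp only [AlgHom.comp_apply, hr, MvPolynomial.aeval_X, Fin.cons_succ, map_zero]
          exact Ideal.Quotient.eq_zero_iff_mem.2 (hK i)
      exact congrArg (fun g => g b) this
    have h2 := h1 J hJ
    have h3 : e (r b) ∈ J := by
      have := J.sub_mem hb h2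
      rwa [sub_sub_cancel] at this
    have h4 : r b ∈ 𝔞 := h3
    rw [← hPs, Ideal.mem_span_singleton] at h4
    obtain ⟨c, hc⟩ := h4
    have h5 := h1 I (fun j => Ideal.subset_span (Set.mem_insert_of_mem _ ⟨j, rfl⟩))
    have h6 : e (r b) ∈ I := by
      rw [hc, map_mul]
      exact I.mul_mem_right _ (Ideal.subset_span (Set.mem_insert _ _))
    have := I.add_mem h5 h6
    rwa [sub_add_cancel] at this
  · rw [Ideal.span_le]
    rintro x (rfl | ⟨j, rfl⟩)
    · exact hPm
    · exact hJ j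

theorem struct_cond
    (φ : (MvPolynomial (Fin N) k)[X] →ₐ[k] MvPolynomial (Fin (m + 1)) k)
    (hφ : Function.Surjective φ)
    (hS : ∀ b, ∃ α β : MvPolynomial (Fin N) k, b = φ (C α) + φ (C β) * φ X)
    (s p : MvPolynomial (Fin N) k) (hg : φ X ^ 2 = φ (C s) * φ X - φ (C p))
    (hu : Ideal.span {φ (C s) - 2 * φ X} ⊔ cond φ = ⊤)
    (a : Fin (m + 1) → k) (ha : a 0 = 1) (Q : Fin (m + 1) → k[X]) (H : k[X]) (hH : H.Monic)
    (h3 : ∀ (T : Type u) [CommRing T] [Algebra k T] (p q : MvPolynomial (Fin (m + 1)) k →ₐ[k] T),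
      IsUnit (p (φ X) - q (φ X)) → (∀ ρ, p (φ (C ρ)) = q (φ (C ρ))) →
      (∀ j, p (MvPolynomial.X j) = aeval (p (lin a)) (Q j)) ∧ aeval (p (lin a)) H = 0) :
    (H = 1 → cond φ = ⊤) ∧
    ∃ α : MvPolynomial (Fin (m + 1)) k ≃ₐ[k] MvPolynomial (Fin (m + 1)) k, ∃ P : k[X], P ≠ 0 ∧
      cond ((α : _ →ₐ[k] MvPolynomial (Fin (m + 1)) k).comp φ) =
        Ideal.span (insert (aeval (MvPolynomial.X 0) P)
          (Set.range fun j : Fin m => MvPolynomial.X j.succ)) := by
  obtain ⟨θ, hθX, hθC⟩ := exists_iota_hom φ hφ hS s p hg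
  have hunit : IsUnit ((Ideal.Quotient.mkₐ k (cond φ)) (φ X) - θ (φ X)) := by
    rw [hθX]
    have h1 : (1 : MvPolynomial (Fin (m + 1)) k) ∈ Ideal.span {φ (C s) - 2 * φ X} ⊔ cond φ := by
      rw [hu]
      exact Submodule.mem_top
    obtain ⟨x, hx, y, hy, hxy⟩ := Submodule.mem_sup.1 h1
    obtain ⟨z, rfl⟩ := Ideal.mem_span_singleton.1 hx
    refine IsUnit.of_mul_eq_one (Ideal.Quotient.mk (cond φ) (-z)) ?_
    show (Ideal.Quotient.mk (cond φ) (φ X) - Ideal.Quotient.mk (cond φ) (φ (C s) - φ X)) *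
      Ideal.Quotient.mk (cond φ) (-z) = 1
    rw [← map_sub, ← map_mul, ← (Ideal.Quotient.mk (cond φ)).map_one, Ideal.Quotient.eq]
    have : (φ X - (φ (C s) - φ X)) * -z - 1 = -y := by linear_combination hxy
    rw [this]
    exact neg_mem hy
  obtain ⟨hX, hH0⟩ := h3 (MvPolynomial (Fin (m + 1)) k ⧸ cond φ)
    (Ideal.Quotient.mkₐ k (cond φ)) θ hunit (fun ρ => (hθC ρ).symm)
  have hX' : ∀ j, MvPolynomial.X j - aeval (lin a) (Q j) ∈ cond φ := by
    intro j
    rw [← Ideal.Quotient.eq_zero_iff_mem, map_sub, sub_eq_zero]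
    have := hX j
    rw [Polynomial.aeval_algHom_apply] at this
    exact this
  have hH' : aeval (lin a) H ∈ cond φ := by
    rw [← Ideal.Quotient.eq_zero_iff_mem]
    rw [Polynomial.aeval_algHom_apply] at hH0
    exact hH0
  constructor
  · intro h1
    rw [h1, map_one] at hH'
    exact (Ideal.eq_top_iff_one _).2 hH'
  · -- the automorphism
    have e0 : lin a = linHom a (MvPolynomial.X 0) := by
      rw [lin, Fin.sum_univ_succ, ha, linHom_zero, MvPolynomial.C_1, one_mul]
    set α : MvPolynomial (Fin (m + 1)) k ≃ₐ[k] MvPolynomial (Fin (m + 1)) k :=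
      ((triEquiv Q).trans (linEquiv a)).symm with hα
    have hαs : ∀ b, α.symm b = linHom a (triHom Q b) := fun b => rfl
    obtain ⟨P, hP, hJ⟩ := ideal_form (cond ((α : _ →ₐ[k] MvPolynomial (Fin (m + 1)) k).comp φ))
      (fun j => by
        rw [mem_cond_comp, hαs, triHom_succ, map_sub, linHom_succ,
          ← Polynomial.aeval_algHom_apply, ← e0]
        exact hX' _) H hH.ne_zero (by
        rw [mem_cond_comp, hαs, ← Polynomial.aeval_algHom_apply,
          ← Polynomial.aeval_algHom_apply, triHom_zero, ← e0]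
        exact hH')
    exact ⟨α, P, hP, hJ⟩

end Pool.Agent.H71.AAE
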