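import Mathlib
import Pool.Agent.H71.AAE.Defs
import Pool.Agent.H71.AAE.G0
import Pool.Agent.H71.AAE.G1b
import Pool.Agent.H71.AAE.G1c
import Pool.Agent.H71.AAE.G3c
import Pool.Agent.H71.AAE.S1
import Pool.Agent.H71.AAE.S2
import Pool.Agent.H71.AAE.S3
import Pool.Agent.H71.AAE.M7

/-! Project AAE (MP_ae801b_ag): the final assembly. -/

set_option autoImplicit false

open Polynomial

namespace Pool.Agent.H71.AAE

universe u

variable {k : Type u} [Field k]

theorem exists_good [Infinite k] {σ : Type} (P : MvPolynomial σ k) (hP : P ≠ 0) :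
    ∃ x : σ → k, MvPolynomial.eval x P ≠ 0 := by
  by_contra hcon
  push Not at hcon
  exact hP (MvPolynomial.funext fun x => by rw [hcon, map_zero])

theorem comp_shear {N m : ℕ} (φ : MvPolynomial (Fin (N + 1)) k →ₐ[k] MvPolynomial (Fin m) k)
    (lam : Fin N × Fin 2 → k) (x : (MvPolynomial (Fin N) k)[X]) :
    φ (shear MvPolynomial.X lam x) = shear (fun i => φ (MvPolynomial.X i)) lam x := by
  have h : (φ.comp (shear MvPolynomial.X lam) :
      (MvPolynomial (Fin N) k)[X] →+* MvPolynomial (Fin m) k) =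
      (shear (fun i => φ (MvPolynomial.X i)) lam :
        (MvPolynomial (Fin N) k)[X] →+* MvPolynomial (Fin m) k) := by
    apply Polynomial.ringHom_ext
    · intro r
      show φ (shear MvPolynomial.X lam (C r)) = shear (fun i => φ (MvPolynomial.X i)) lam (C r)
      rw [shear_C, shear_C]
      have h2 : φ.comp (MvPolynomial.aeval fun i : Fin N => (MvPolynomial.X i.succ +
          MvPolynomial.C (lam (i, 0)) * MvPolynomial.X 0 +
          MvPolynomial.C (lam (i, 1)) * MvPolynomial.X 0 ^ 2 : MvPolynomial (Fin (N + 1)) k)) =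
          MvPolynomial.aeval (fun i => φ (MvPolynomial.X i.succ) +
          MvPolynomial.C (lam (i, 0)) * φ (MvPolynomial.X 0) +
          MvPolynomial.C (lam (i, 1)) * φ (MvPolynomial.X 0) ^ 2) := by
        apply MvPolynomial.algHom_ext
        intro i
        rw [AlgHom.comp_apply, MvPolynomial.aeval_X, MvPolynomial.aeval_X, map_add, map_add,
          map_mul, map_mul, map_pow, hom_C, hom_C, MvPolynomial.algebraMap_eq]
      exact congrArg (fun g => g r) h2
    · show φ (shear MvPolynomial.X lam X) = shear (fun i => φ (MvPolynomial.X i)) lam X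
      rw [shear_X, shear_X]
  exact congrArg (fun g => g x) h

theorem shear_unsh_phi {N m : ℕ} (φ : MvPolynomial (Fin (N + 1)) k →ₐ[k] MvPolynomial (Fin m) k)
    (lam : Fin N × Fin 2 → k) (h : MvPolynomial (Fin (N + 1)) k) :
    shear (fun i => φ (MvPolynomial.X i)) lam (unsh lam h) = φ h := by
  rw [shear_unsh]
  have : MvPolynomial.aeval (fun i => φ (MvPolynomial.X i)) = φ := by
    apply MvPolynomial.algHom_ext
    intro i
    rw [MvPolynomial.aeval_X]
  rw [this]

theorem shear_reduce {N m r : ℕ}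
    (φ : MvPolynomial (Fin (N + 1)) k →ₐ[k] MvPolynomial (Fin m) k)
    (lam : Fin N × Fin 2 → k) (w' : Fin r → (MvPolynomial (Fin N) k)[X])
    (h : Ideal.span (Set.range w') = RingHom.ker (shear (fun i => φ (MvPolynomial.X i)) lam)) :
    ∃ w : Fin r → MvPolynomial (Fin (N + 1)) k, Ideal.span (Set.range w) = RingHom.ker φ := by
  refine ⟨fun i => shear MvPolynomial.X lam (w' i), le_antisymm ?_ ?_⟩
  · rw [Ideal.span_le]
    rintro _ ⟨i, rfl⟩
    show φ (shear MvPolynomial.X lam (w' i)) = 0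
    rw [comp_shear]
    have : w' i ∈ Ideal.span (Set.range w') := Ideal.subset_span ⟨i, rfl⟩
    rw [h] at this
    exact this
  · intro x hx
    have h1 : unsh lam x ∈ Ideal.span (Set.range w') := by
      rw [h, RingHom.mem_ker]
      show shear (fun i => φ (MvPolynomial.X i)) lam (unsh lam x) = 0
      rw [shear_unsh_phi]
      exact hx
    have h2 := Ideal.mem_map_of_mem (shear (MvPolynomial.X : Fin (N + 1) →
      MvPolynomial (Fin (N + 1)) k) lam) h1
    rw [Ideal.map_span, ← Set.range_comp] at h2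
    have h3 : shear (MvPolynomial.X : Fin (N + 1) → MvPolynomial (Fin (N + 1)) k) lam
        (unsh lam x) = x := by
      rw [shear_unsh, MvPolynomial.aeval_X_left]
      rfl
    rw [h3] at h2
    exact h2

theorem shear_surjective {N m : ℕ}
    (φ : MvPolynomial (Fin (N + 1)) k →ₐ[k] MvPolynomial (Fin m) k)
    (hφ : Function.Surjective φ) (lam : Fin N × Fin 2 → k) :
    Function.Surjective (shear (fun i => φ (MvPolynomial.X i)) lam) := by
  intro b
  obtain ⟨h, rfl⟩ := hφ b
  exact ⟨unsh lam h, shear_unsh_phi φ lam h⟩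

/-- the structure after a generic shear -/
theorem generic_struct [CharZero k] {N m : ℕ} (hN : 2 * (m + 1) ≤ N)
    (φ : MvPolynomial (Fin (N + 1)) k →ₐ[k] MvPolynomial (Fin (m + 1)) k)
    (hφ : Function.Surjective φ) :
    ∃ lam : Fin N × Fin 2 → k,
      (∀ b, ∃ α β : MvPolynomial (Fin N) k,
        b = shear (fun i => φ (MvPolynomial.X i)) lam (C α) +
          shear (fun i => φ (MvPolynomial.X i)) lam (C β) *
            shear (fun i => φ (MvPolynomial.X i)) lam X) ∧
      ∃ s p : MvPolynomial (Fin N) k, shear (fun i => φ (MvPolynomial.X i)) lam X ^ 2 =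
        shear (fun i => φ (MvPolynomial.X i)) lam (C s) *
          shear (fun i => φ (MvPolynomial.X i)) lam X -
          shear (fun i => φ (MvPolynomial.X i)) lam (C p) ∧
      Ideal.span {shear (fun i => φ (MvPolynomial.X i)) lam (C s) -
        2 * shear (fun i => φ (MvPolynomial.X i)) lam X} ⊔
        cond (shear (fun i => φ (MvPolynomial.X i)) lam) = ⊤ ∧
      (2 * (m + 1) < N → cond (shear (fun i => φ (MvPolynomial.X i)) lam) = ⊤) ∧
      ∃ α : MvPolynomial (Fin (m + 1)) k ≃ₐ[k] MvPolynomial (Fin (m + 1)) k, ∃ P : k[X],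
        P ≠ 0 ∧ cond ((α : _ →ₐ[k] MvPolynomial (Fin (m + 1)) k).comp
          (shear (fun i => φ (MvPolynomial.X i)) lam)) =
          Ideal.span (insert (aeval (MvPolynomial.X 0) P)
            (Set.range fun j : Fin m => MvPolynomial.X j.succ)) := by
  set f : Fin (N + 1) → MvPolynomial (Fin (m + 1)) k := fun i => φ (MvPolynomial.X i) with hf
  obtain ⟨P0, hP0, H0⟩ := generic_monic (by omega : m + 1 ≤ N) f
  obtain ⟨P1, hP1, H1⟩ := generic_no_triple (by omega : 3 * (m + 1) < 2 * N) f
  obtain ⟨P2, hP2, H2⟩ := generic_unramified hN f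
  obtain ⟨P3, hP3, H3⟩ := generic_double hN f
  obtain ⟨lam, hlam⟩ := exists_good (P0 * P1 * P2 * P3)
    (mul_ne_zero (mul_ne_zero (mul_ne_zero hP0 hP1) hP2) hP3)
  rw [map_mul, map_mul, map_mul] at hlam
  have hl3 := right_ne_zero_of_mul hlam
  have hl2 := right_ne_zero_of_mul (left_ne_zero_of_mul hlam)
  have hl1 := right_ne_zero_of_mul (left_ne_zero_of_mul (left_ne_zero_of_mul hlam))
  have hl0 := left_ne_zero_of_mul (left_ne_zero_of_mul (left_ne_zero_of_mul hlam))
  have hs := shear_surjective φ hφ lam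
  have h0 := H0 lam hl0
  have h1 := H1 lam hl1
  have h2 := H2 lam hl2
  obtain ⟨a, ha, Q, H, hHm, hH1, h3⟩ := H3 lam hl3
  simp only [← shear_X f lam] at h1 h2 h3
  have hS := struct_two (shear f lam) hs h0 h1 h2
  obtain ⟨α₀, s, hαs⟩ := hS (shear f lam X ^ 2)
  have hg : shear f lam X ^ 2 = shear f lam (C s) * shear f lam X - shear f lam (C (-α₀)) := by
    rw [hαs, C_neg, map_neg]
    ring
  have hu := struct_unit (shear f lam) hs h2 hS s (-α₀) hg
  obtain ⟨hc1, hc2⟩ := struct_cond (shear f lam) hs hS s (-α₀) hg hu a ha Q H hHm h3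
  exact ⟨lam, hS, s, -α₀, hg, hu, fun hlt => hc1 (hH1 hlt), hc2⟩

theorem final_base [CharZero k] {m : ℕ}
    (φ : MvPolynomial (Fin (2 * (m + 2) + 1)) k →ₐ[k] MvPolynomial (Fin (m + 2)) k)
    (hφ : Function.Surjective φ) :
    ∃ w : Fin (m + 3) → MvPolynomial (Fin (2 * (m + 2) + 1)) k,
      Ideal.span (Set.range w) = RingHom.ker φ := by
  obtain ⟨lam, hS, s, p, hg, hu, _, α, P, hP, hc⟩ := generic_struct (m := m + 1) le_rfl φ hφ
  set φ' := shear (fun i => φ (MvPolynomial.X i)) lam with hφ'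
  have hs : Function.Surjective φ' := shear_surjective φ hφ lam
  have hαφ : ∀ x, ((α : _ →ₐ[k] MvPolynomial (Fin (m + 2)) k).comp φ') x = α (φ' x) :=
    fun x => rfl
  obtain ⟨w, hw⟩ := main_conductor
    ((α : MvPolynomial (Fin (m + 2)) k →ₐ[k] MvPolynomial (Fin (m + 2)) k).comp φ')
    (α.surjective.comp hs) (fun b => by
      obtain ⟨x, y, hxy⟩ := hS (α.symm b)
      refine ⟨x, y, ?_⟩
      rw [hαφ, hαφ, hαφ, ← map_mul, ← map_add, ← hxy, α.apply_symm_apply]) P hP hc s p (by
      rw [hαφ, hαφ, hαφ, ← map_pow, hg, map_sub, map_mul]) (by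
      have h1 : (1 : MvPolynomial (Fin (m + 2)) k) ∈
          Ideal.span {φ' (C s) - 2 * φ' X} ⊔ cond φ' := by
        rw [hu]
        exact Submodule.mem_top
      obtain ⟨x, hx, y, hy, hxy⟩ := Submodule.mem_sup.1 h1
      obtain ⟨z, rfl⟩ := Ideal.mem_span_singleton.1 hx
      rw [Ideal.eq_top_iff_one]
      refine Submodule.mem_sup.2 ⟨α ((φ' (C s) - 2 * φ' X) * z), ?_, α y, ?_, ?_⟩
      · rw [Ideal.mem_span_singleton]
        refine ⟨α z, ?_⟩
        rw [hαφ, hαφ, map_mul, map_sub, map_mul, map_ofNat]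
      · rw [mem_cond_comp, α.symm_apply_apply]
        exact hy
      · rw [← map_add, hxy, map_one])
  have hker : RingHom.ker ((α : _ →ₐ[k] MvPolynomial (Fin (m + 2)) k).comp φ') =
      RingHom.ker φ' := by
    ext x
    rw [RingHom.mem_ker, RingHom.mem_ker]
    show α (φ' x) = 0 ↔ φ' x = 0
    exact map_eq_zero_iff _ α.injective
  rw [hker] at hw
  exact shear_reduce φ lam w hw

theorem final_step [CharZero k] {N m r : ℕ} (hN : 2 * (m + 2) < N)
    (ih : ∀ φ : MvPolynomial (Fin N) k →ₐ[k] MvPolynomial (Fin (m + 2)) k,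
      Function.Surjective φ → ∃ w : Fin r → MvPolynomial (Fin N) k,
        Ideal.span (Set.range w) = RingHom.ker φ)
    (φ : MvPolynomial (Fin (N + 1)) k →ₐ[k] MvPolynomial (Fin (m + 2)) k)
    (hφ : Function.Surjective φ) :
    ∃ w : Fin (r + 1) → MvPolynomial (Fin (N + 1)) k,
      Ideal.span (Set.range w) = RingHom.ker φ := by
  obtain ⟨lam, _, _, _, _, _, hc, _⟩ := generic_struct (N := N)
    (m := m + 1) (by omega) φ hφ
  have hct := hc (by omega)
  set φ' := shear (fun i => φ (MvPolynomial.X i)) lam with hφ'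
  -- the restriction to the coefficient ring is surjective
  set φ₁ : MvPolynomial (Fin N) k →ₐ[k] MvPolynomial (Fin (m + 2)) k :=
    MvPolynomial.aeval (fun i => φ' (C (MvPolynomial.X i))) with hφ₁
  have hφ₁C : ∀ ρ, φ₁ ρ = φ' (C ρ) := by
    intro ρ
    have : (φ₁ : MvPolynomial (Fin N) k →+* MvPolynomial (Fin (m + 2)) k) =
        (φ' : (MvPolynomial (Fin N) k)[X] →+* MvPolynomial (Fin (m + 2)) k).comp C := by
      apply MvPolynomial.ringHom_ext
      · intro c
        show φ₁ (MvPolynomial.C c) = φ' (C (MvPolynomial.C c))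
        rw [hom_C]
        have h1 : (C (MvPolynomial.C c) : (MvPolynomial (Fin N) k)[X]) = algebraMap k _ c := by
          rw [Polynomial.algebraMap_apply, MvPolynomial.algebraMap_eq]
        rw [h1, AlgHom.commutes]
      · intro i
        show φ₁ (MvPolynomial.X i) = φ' (C (MvPolynomial.X i))
        rw [hφ₁, MvPolynomial.aeval_X]
    exact congrArg (fun g => g ρ) this
  have hsurj : Function.Surjective φ₁ := by
    intro b
    have h1 : (1 : MvPolynomial (Fin (m + 2)) k) ∈ cond φ' := by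
      rw [hct]
      exact Submodule.mem_top
    obtain ⟨ρ, hρ⟩ := h1 b
    exact ⟨ρ, by rw [hφ₁C, hρ, one_mul]⟩
  obtain ⟨w, hw⟩ := ih φ₁ hsurj
  obtain ⟨g, hg⟩ := hsurj (φ' X)
  refine shear_reduce φ lam (Fin.snoc (fun i => C (w i)) (X - C g)) (le_antisymm ?_ ?_)
  · rw [Ideal.span_le]
    rintro _ ⟨i, rfl⟩
    refine Fin.lastCases ?_ (fun i => ?_) i
    · rw [Fin.snoc_last]
      show φ' (X - C g) = 0
      rw [map_sub, ← hφ₁C, hg, sub_self]
    · rw [Fin.snoc_castSucc]
      show φ' (C (w i)) = 0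
      rw [← hφ₁C]
      have : w i ∈ Ideal.span (Set.range w) := Ideal.subset_span ⟨i, rfl⟩
      rw [hw] at this
      exact this
  · intro x hx
    have hx0 : φ' x = 0 := hx
    have h1 : C (x.eval g) + (X - C g) * (x /ₘ (X - C g)) = x := by
      rw [← Polynomial.modByMonic_X_sub_C_eq_C_eval]
      exact Polynomial.modByMonic_add_div x (X - C g)
    have h2 : (X - C g) ∈ Ideal.span (Set.range (Fin.snoc (fun i => C (w i)) (X - C g) :
        Fin (r + 1) → (MvPolynomial (Fin N) k)[X])) :=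
      Ideal.subset_span ⟨Fin.last r, by rw [Fin.snoc_last]⟩
    have h3 : x.eval g ∈ Ideal.span (Set.range w) := by
      rw [hw, RingHom.mem_ker]
      show φ₁ (x.eval g) = 0
      rw [hφ₁C]
      have h4 := hx0
      rw [← h1, map_add, map_mul] at h4
      have h5 : φ' (X - C g) = 0 := by rw [map_sub, ← hφ₁C, hg, sub_self]
      rwa [h5, zero_mul, add_zero] at h4
    have h6 : C (x.eval g) ∈ Ideal.span (Set.range (Fin.snoc (fun i => C (w i)) (X - C g) :
        Fin (r + 1) → (MvPolynomial (Fin N) k)[X])) := by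
      have h7 := Ideal.mem_map_of_mem (C : MvPolynomial (Fin N) k →+* _) h3
      rw [Ideal.map_span, ← Set.range_comp] at h7
      refine Ideal.span_mono ?_ h7
      rintro _ ⟨i, rfl⟩
      exact ⟨i.castSucc, by rw [Fin.snoc_castSucc]; rfl⟩
    rw [← h1]
    exact Ideal.add_mem _ h6 (Ideal.mul_mem_right _ _ h2)

theorem final_aux [CharZero k] {m : ℕ} (d : ℕ) :
    ∀ (φ : MvPolynomial (Fin (2 * (m + 2) + 1 + d)) k →ₐ[k] MvPolynomial (Fin (m + 2)) k),
    Function.Surjective φ →
    ∃ w : Fin (m + 3 + d) → MvPolynomial (Fin (2 * (m + 2) + 1 + d)) k,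
      Ideal.span (Set.range w) = RingHom.ker φ := by
  induction d with
  | zero =>
    intro φ hφ
    exact final_base φ hφ
  | succ d ih =>
    intro φ hφ
    exact final_step (by omega) ih φ hφ

/-- **Main theorem.** In characteristic zero, for `m ≥ 2` and `n ≥ 2m + 1` the kernel of every
surjection `k[X_1..X_n] → k[Y_1..Y_m]` is generated by `n - m` elements. -/
theorem final {k : Type u} [Field k] [CharZero k] {n m : ℕ} (hm : 2 ≤ m) (hn : 2 * m + 1 ≤ n)
    (φ : MvPolynomial (Fin n) k →ₐ[k] MvPolynomial (Fin m) k) (hφ : Function.Surjective φ) :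
    ∃ w : Fin (n - m) → MvPolynomial (Fin n) k, Ideal.span (Set.range w) = RingHom.ker φ := by
  obtain ⟨m, rfl⟩ := Nat.exists_eq_add_of_le' hm
  obtain ⟨d, rfl⟩ := Nat.exists_eq_add_of_le hn
  obtain ⟨w, hw⟩ := final_aux d φ hφ
  have h : 2 * (m + 2) + 1 + d - (m + 2) = m + 3 + d := by omega
  refine ⟨w ∘ Fin.cast h, ?_⟩
  have h1 : Set.range (Fin.cast h) = Set.univ := (finCongr h).surjective.range_eq
  rw [Set.range_comp, h1, Set.image_univ, hw]

end Pool.Agent.H71.AAE
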